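import Pool.Agent.Lib_helper3.FGP.E19F

/-!
# FGA: helper3's `WALLE_pr`, for one level (same proof)
-/

set_option autoImplicit false

namespace Pool.Agent.FGA

open Finset Pool.Agent.Var35 Pool.Agent.Var73 Pool.Agent.PV Pool.Agent.FGP
open scoped ArithmeticFunction ArithmeticFunction.Moebius

/-- the primes `Q ~ Y`, for one good level -/
def LEV (c₁ : ℝ) : Prop := ∃ c C B D₀ : ℝ, 0 < c ∧ 0 < C ∧ 1 ≤ B ∧
  ∀ D : ℕ, Pool.Agent.GA.Good c₁ D → D₀ ≤ (D : ℝ) →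
  (∀ X Y : ℝ, (D : ℝ) ^ B ≤ X → X ≤ Real.exp ((D : ℝ) ^ c) →
    X * (D : ℝ) ^ (-c) ≤ Y → Y ≤ X / 2 →
    ∑ Q ∈ QR Y, max 0 (|FGP.GV X Q - PV0 X Q - MTQ X Q| - C * X * (Y / X) ^ (1 / 4 : ℝ)) ≤
      C * (Real.exp (-(c * Real.log X / Real.log D)) + (D : ℝ) ^ (-c)) * Real.log X * X *
        (Y / Real.log Y)) ∧
  (∀ N : ℕ, (D : ℝ) ^ B ≤ N → (N : ℝ) ≤ Real.exp ((D : ℝ) ^ c) →
    |∑ n ∈ Icc 1 N, ArithmeticFunction.vonMangoldt n - N| ≤ (N : ℝ) ^ (3 / 4 : ℝ) →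
    ∀ Y : ℝ, N * (D : ℝ) ^ (-c) ≤ Y → Y ≤ N / 2 →
    ∑ Q ∈ QR Y, max 0 (|FGP.GV N Q - MTQ N Q| - C * N * (Y / N) ^ (1 / 4 : ℝ)) ≤
      C * (Real.exp (-(c * Real.log N / Real.log D)) + (D : ℝ) ^ (-c)) * Real.log N * N *
        (Y / Real.log Y))

theorem lev_pr (h18 : E18) (c₁ : ℝ) (hc₁ : 0 < c₁) : LEV c₁ := by
  obtain ⟨C₀, c₀, B₀, hC₀, hc₀, hB₀, K0, hmain⟩ := h18 c₁ hc₁
  obtain ⟨N0, hN0⟩ := cmp_pr (1 / 4) (by norm_num)
  obtain ⟨X₁, hX₁⟩ := e19_X N0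
  set c : ℝ := min (c₀ / 2) (1 / 10000) with hc
  have hcpos : 0 < c := lt_min (by positivity) (by norm_num)
  have hc1 : c ≤ 1 / 10000 := min_le_right _ _
  obtain ⟨D₀, hD₀⟩ := p19_D c (B₀ + 60) 0 X₁ hcpos K0
  have core : ∀ D : ℕ, Pool.Agent.GA.Good c₁ D → D₀ ≤ (D : ℝ) → ∀ X Y : ℝ,
      (D : ℝ) ^ (B₀ + 60) ≤ X → X ≤ Real.exp ((D : ℝ) ^ c) → X * (D : ℝ) ^ (-c) ≤ Y → Y ≤ X / 2 →
      P19S c B₀ 0 D X Y ∧
      ∑ Q ∈ QR Y, max 0 (|FGP.GV X Q - PV0 X Q - MTQ X Q| - C₀ * X * (Y / X) ^ (1 / 4 : ℝ)) ≤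
      (C₀ + 4) * (Real.exp (-(c * Real.log X / Real.log D)) + (D : ℝ) ^ (-c)) * Real.log X * X *
        (Y / Real.log Y) := by
    intro D hgood hDD X Y hX hX2 hY hYX
    obtain ⟨d1, -, d3, d4, d5, -⟩ := hD₀ D hDD
    have hDB : (D : ℝ) ≤ (D : ℝ) ^ (B₀ + 60) := by
      calc (D : ℝ) = (D : ℝ) ^ (1 : ℝ) := (Real.rpow_one _).symm
        _ ≤ _ := Real.rpow_le_rpow_of_exponent_le (by linarith) (by linarith)
    have hXX : X₁ ≤ X := d3.trans (hDB.trans hX)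
    obtain ⟨x1, x2, x3, x4, x5, x6⟩ := hX₁ X hXX
    have hK00 : (0 : ℝ) ≤ K0 := Nat.cast_nonneg _
    have h : P19S c B₀ 0 D X Y := ⟨hcpos, hc1.trans (by norm_num), hB₀, d1, by
      push_cast
      linarith, d5, x1, hX, hX2, hY, by push_cast; linarith⟩
    refine ⟨h, ?_⟩
    have hNN0 : N0 ≤ ⌊X⌋₊ := by
      apply Nat.le_floor
      linarith
    have hKK : K0 ≤ ⌊(D : ℝ) ^ (1 / 20 : ℝ)⌋₊ := by
      have h1 : (K0 : ℝ) ≤ (⌊(D : ℝ) ^ (1 / 20 : ℝ)⌋₊ : ℝ) := by linarith [h.Kf2]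
      exact_mod_cast h1
    have hcond : (⌊X⌋₊ : ℝ) ^ (1 / 2 + 1 / 4 : ℝ) ≤ (⌊Y⌋₊ : ℝ) := by
      have h1 : (⌊X⌋₊ : ℝ) ^ (1 / 2 + 1 / 4 : ℝ) ≤ X ^ (3 / 4 : ℝ) := by
        have : (1 / 2 + 1 / 4 : ℝ) = 3 / 4 := by norm_num
        rw [this]
        exact Real.rpow_le_rpow (Nat.cast_nonneg _) h.N1 (by norm_num)
      have h2 := Nat.lt_floor_add_one Y
      linarith [h.Y1]
    exact h.totalE hC₀ (min_le_left _ _) hc1 (hN0 _ hNN0 _ hcond (Nat.floor_le_floor h.YX))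
      (hmain _ hKK _ D h.rg hgood h.K20 h.DB _ h.ry) x4
  refine ⟨c, C₀ + 5, B₀ + 60, D₀, hcpos, by positivity, by linarith, fun D hg hDD => ⟨?_, ?_⟩⟩
  · -- all `X`
    intro X Y hX hX2 hY hYX
    obtain ⟨h, h1⟩ := core D hg hDD X Y hX hX2 hY hYX
    refine (sum_le_sum fun Q _ => max_le_max le_rfl (sub_le_sub_left ?_ _)).trans
      (h1.trans ?_)
    · have := h.X0
      have := h.Y0
      gcongr
      linarith
    · have := h.X0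
      have := h.Y0
      have := h.logY
      have := h.logX
      have := h.D0
      have h5 : C₀ + 4 ≤ C₀ + 5 := by linarith
      gcongr
  · -- special `X`
    intro N hX hX2 hN Y hY hYX
    obtain ⟨h, h1⟩ := core D hg hDD N Y hX hX2 hY hYX
    have hXX : X₁ ≤ (N : ℝ) := by
      obtain ⟨d1, -, d3, -, -, -⟩ := hD₀ D hDD
      have hDB : (D : ℝ) ≤ (D : ℝ) ^ (B₀ + 60) := by
        calc (D : ℝ) = (D : ℝ) ^ (1 : ℝ) := (Real.rpow_one _).symm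
          _ ≤ _ := Real.rpow_le_rpow_of_exponent_le (by linarith) (by linarith)
      exact d3.trans (hDB.trans hX)
    obtain ⟨x1, x2, x3, x4, x5, x6⟩ := hX₁ N hXX
    have hX0 := h.X0
    have hY0 := h.Y0
    have hlY := h.logY
    have hlX := h.logX
    have hD0 := h.D0
    have hF0 : 0 < (D : ℝ) ^ (-c) := Real.rpow_pos_of_pos hD0 _
    have hDc := h.Dc
    have h2 := h.pv0 (N := N) (η := (D : ℝ) ^ (-c)) rfl hF0 hN x5 (by
      rw [Real.rpow_neg hD0.le, div_inv_eq_mul]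
      refine le_trans ?_ x6
      gcongr)
    set E : ℝ := Real.exp (-(c * Real.log N / Real.log D)) with hE
    have hE0 : 0 < E := Real.exp_pos _
    calc ∑ Q ∈ QR Y, max 0 (|FGP.GV N Q - MTQ N Q| - (C₀ + 5) * N * (Y / N) ^ (1 / 4 : ℝ)) ≤
        ∑ Q ∈ QR Y, (max 0 (|FGP.GV N Q - PV0 N Q - MTQ N Q| - C₀ * N * (Y / N) ^ (1 / 4 : ℝ)) +
          |PV0 N Q|) := by
          refine sum_le_sum fun Q _ => ?_
          have h3 := abs_add_le (FGP.GV N Q - PV0 N Q - MTQ N Q) (PV0 N Q)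
          have e3 : FGP.GV N Q - PV0 N Q - MTQ N Q + PV0 N Q = FGP.GV N Q - MTQ N Q := by ring
          rw [e3] at h3
          have h4 := abs_nonneg (PV0 N Q)
          have h6 : 0 ≤ 5 * N * (Y / N) ^ (1 / 4 : ℝ) := by positivity
          have h7 := le_max_left (0 : ℝ)
            (|FGP.GV N Q - PV0 N Q - MTQ N Q| - C₀ * N * (Y / N) ^ (1 / 4 : ℝ))
          have h8 := le_max_right (0 : ℝ)
            (|FGP.GV N Q - PV0 N Q - MTQ N Q| - C₀ * N * (Y / N) ^ (1 / 4 : ℝ))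
          apply max_le
          · linarith
          · linarith
      _ = ∑ Q ∈ QR Y, max 0 (|FGP.GV N Q - PV0 N Q - MTQ N Q| - C₀ * N * (Y / N) ^ (1 / 4 : ℝ)) +
          ∑ Q ∈ QR Y, |PV0 N Q| := sum_add_distrib
      _ ≤ (C₀ + 4) * (E + (D : ℝ) ^ (-c)) * Real.log N * N * (Y / Real.log Y) +
          (D : ℝ) ^ (-c) * N * (Y / Real.log Y) := add_le_add h1 h2
      _ ≤ (C₀ + 4) * (E + (D : ℝ) ^ (-c)) * Real.log N * N * (Y / Real.log Y) +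
          (E + (D : ℝ) ^ (-c)) * Real.log N * N * (Y / Real.log Y) := by
          have h5 : (D : ℝ) ^ (-c) ≤ (E + (D : ℝ) ^ (-c)) * Real.log N := by nlinarith
          gcongr
      _ = _ := by ring

end Pool.Agent.FGA
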