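import Pool.Agent.Lib_helper99.FGA.WantedE
import Pool.Agent.Lib_helper3.FGP.WantedE

set_option autoImplicit false

namespace Pool.Agent.FGA

open Finset Pool.Agent.Var35 Pool.Agent.Var73 Pool.Agent.PV Pool.Agent.FGP
open scoped ArithmeticFunction ArithmeticFunction.Moebius

theorem A13E_pr (h : E14d) : A13E := by
  obtain ⟨C, hC, h⟩ := h
  exact ⟨C, hC, fun x hx => h x hx⟩

theorem A15w_pr (h : E15) : A15w := by
  obtain ⟨C, hC, K0, h⟩ := h
  exact ⟨C, hC, K0, fun K hK N hR _ => h K hK N hR⟩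

end Pool.Agent.FGA
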