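import Pool.Agent.Lib_helper99.FGA.Defs

/-!
# FGA: the blocks

`N` natural, `K` with `K ^ 400 ≤ N`, `log ^ 100 N ≤ K` (`FGP.Rg`), `N / Y ≤ K ^ (1/16)` (`FGP.RY`), moduli
`Q ∈ (Y, 4Y]` (`MQ Y`), `z = N / Q`. `fh, gh, Fh` as in FGP: `Ps = fh + gh + Fh`.
The blocks are Props `A02 .. A20`; a block proves `theorem A07_pr (h13a : FGP.W13a) (h13b : FGP.W13b) : A07`
(hypotheses: the Props in column `uses`, in this order).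
-/

set_option autoImplicit false

namespace Pool.Agent.FGA

open Finset Pool.Agent.Var35 Pool.Agent.Var73 Pool.Agent.PV Pool.Agent.FGP
open scoped ArithmeticFunction ArithmeticFunction.Moebius

/-! ## Analysis -/

/-- A02 : large sieve in mean over all moduli. PROOF: `l / Q = a / r` with `r ∣ Q`, `r > R`, so the sum is
`∑_{R < r ≤ 4Y} (∑_{Q ∈ MQ Y, r ∣ Q} 1/Q) ∑_{a ∈ Cd r} |P(a/r)|²`, and `∑_{Q ∈ MQ Y, r ∣ Q} 1/Q ≤ 3/r`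
(`Q = r m`, `Y/r < m ≤ 4Y/r`). Dyadic blocks `r ∈ (B, 2B]`, `B = 2^i R ≤ 4Y`: additive large sieve
`∑_{r ≤ 2B} ∑_a |P(a/r)|² ≤ (N' + 1 + 4B²) ∑ |c_n|²` (Lib_helper73/Var/LS, or as in `HC.sml_ls`,
Lib_helper92/HCF/SML.lean, after a shift of the frequencies), so the block gives
`(3/B)(N' + 1 + 4B²)`; sum over `i`. `ms M P = ∑ |c_n|²` since `M > N'` (orthogonality; see FGP_P11). -/
def A02 : Prop := ∃ C : ℝ, 0 < C ∧ ∀ (N' M Y R : ℕ) (A B : ℤ) (P : ℝ → ℂ), TP A B P →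
  B - A ≤ N' → N' < M → 1 ≤ Y → 1 ≤ R → 1 ≤ N' →
  ∑ Q ∈ MQ Y, VP P Q R ≤ C * ((Y : ℝ) + N' / R) * ms M P

/-- A03 : sampling at all moduli (model: `W11`, FGP_P11_helper76.lean). PROOF:
`(1/Q) ∑_b Φ(b/Q) - c_0 = ∑_{k ≠ 0} c_{kQ}`; `∑_Q |..| ≤ ∑_{h ≠ 0} |c_h| d(h)`,
`d(h) = #{Q ∈ (Y,4Y] : Q ∣ h} ≤ N'/Y` (the cofactor is at most `N'/Y`), `∑_h d(h) ≤ 2 · 3Y · N'/Y = 6 N'`, so
`∑ d(h)² ≤ 6 N'²/Y`; Cauchy. -/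
def A03 : Prop := ∀ (N' Y M : ℕ) (Φ : ℝ → ℝ), 1 ≤ N' → 1 ≤ Y → 4 * N' < M →
  TP (-(N' : ℤ)) N' (fun t => (Φ t : ℂ)) →
  ∑ Q ∈ MQ Y, |(1 / (Q : ℝ)) * ∑ b ∈ range Q, Φ (b / Q) - mean M (range M) Φ| ≤
    Real.sqrt (12 * (N' : ℝ) ^ 2 / Y) * Real.sqrt (mean M (range M) (fun t => Φ t ^ 2))

/-- A04 : the off-diagonal terms of `fh`, all moduli (model: `W12`, FGP_P12_helper19.lean; the only change is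
`A03` instead of `W11`: `√(12 (2N)²/Y)` instead of `√(4N)`, a factor `√(12 N / Y)`). -/
def A04 : Prop := ∃ C : ℝ, 0 < C ∧ ∃ K0 : ℕ, ∀ K ≥ K0, ∀ N, Rg K N → ∀ M, Good (2 * N) M →
  ∀ Y, RY K N Y → EE N K ≤ N →
  ∑ Q ∈ MQ Y, |(VA (fun t => fh N K t + gh N K t) Q - VA (gh N K) Q) -
      (ms M (fun t => fh N K t + gh N K t) - ms M (gh N K))| ≤
    C * ((N : ℝ) ^ 2 / Real.sqrt K) * (1 + Real.log N) ^ 7 * Real.sqrt ((N : ℝ) / Y)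

/-- A05 : the values at the fractions of denominator `≤ K` (model: `W17`, in FGP_P16_helper67.lean, which is
the case `a = 0`, `r = 1`). PROOF: `fh(a/r) = Ps(a/r) (1 - Wt(a/r))`, `|1 - Wt| ≤ C/K⁷` (`W04`), `|Ps| ≤ 2N`.
`gh(a/r)`: the term `c/q = a/r` is `mr r · N`; for the others `nn(a/r - c/q) ≥ 1/K²`, so
`vh² ≤ (C K⁴/H²)²` (`W01`), which is tiny. -/
def A05 : Prop := ∃ C : ℝ, 0 < C ∧ ∃ K0 : ℕ, ∀ K ≥ K0, ∀ N, Rg K N → ∀ r ∈ Icc 1 K, ∀ a ∈ Cd r,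
  ‖fh N K (a / r) + gh N K (a / r) - ((mr r * N : ℝ) : ℂ)‖ ≤ C * N / (K : ℝ) ^ 7

/-- A06 : the small denominators. PROOF: the fractions `l/Q` of denominator `r` are the `a/r`, `a ∈ Cd r`,
for every `r ∣ Q`; `A05` gives `| ‖(fh+gh)(a/r)‖² - mr r² N² | ≤ C N²/K⁷`; `∑_{r ≤ R} φ(r) ≤ K²`. -/
def A06 : Prop := ∃ C : ℝ, 0 < C ∧ ∃ K0 : ℕ, ∀ K ≥ K0, ∀ N, Rg K N → ∀ Q R : ℕ, 1 ≤ Q → R ≤ K →
  |VM (fun t => fh N K t + gh N K t) Q R - (N : ℝ) ^ 2 / Q * TL Q R| ≤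
    C * ((N : ℝ) ^ 2 / Q) / (K : ℝ) ^ 5

/-- A07 : the variance of `gh` for all moduli (model: `W13`, FGP_P13_helper53.lean; from `W13a`, `W13b`; here
`SK K (k Q)` stays as it is). -/
def A07 : Prop := ∃ C : ℝ, 0 < C ∧ ∃ K0 : ℕ, ∀ K ≥ K0, ∀ N, Rg K N → ∀ M, Good (2 * N) M →
  ∀ Y, RY K N Y → ∀ Q ∈ MQ Y,
  |VA (gh N K) Q - ms M (gh N K) -
      2 * ∑ k ∈ Icc 1 (N / Q), SK K (k * Q) * ((N : ℝ) - k * Q)| ≤ C * N / K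

/-! ## The singular series -/

/-- A08 : tail of the singular series (model: `W14t`, FGP_P14t_helper61.lean). PROOF: for squarefree `r`
`|c_r(h)| ≤ φ(gcd(r,h))`; `∑_{r > K} μ²(r) φ((r,h))/φ(r)² ≤ K^(-1/2) ∑_r μ²(r) √r φ((r,h))/φ(r)²`
`= K^(-1/2) ∏_{p ∣ h} (1 + √p/(p-1)) ∏_{p ∤ h} (1 + √p/(p-1)²)`, and `√p/(p-1) ≤ 2/√p`. Or: `r = g m`,
`g = gcd(r,h)`: `≤ K^(-1/2) ∑_{g ∣ h} μ²(g) √g/φ(g) ∑_m √m/φ(m)²`. -/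
def A08 : Prop := ∃ C : ℝ, 0 < C ∧ ∀ K h : ℕ, 1 ≤ K → 1 ≤ h →
  |SG h - SK K h| ≤ C * ks h ^ 2 / Real.sqrt K

/-- A09 : the singular series on multiples. PROOF: prime factors of `k M`; for `Q` odd `2 ∣ k Q` iff
`2 ∣ k`, and `k Q = (k/2) (2Q)`. -/
def A09 : Prop := ∀ C2 : ℝ, (∀ k : ℕ, 1 ≤ k → SG k = if 2 ∣ k then
      2 * C2 * ∏ p ∈ k.primeFactors.erase 2, (((p : ℝ) - 1) / ((p : ℝ) - 2)) else 0) →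
  (∀ M k : ℕ, 1 ≤ M → 2 ∣ M → 1 ≤ k → SG (k * M) = GM C2 M * FM M k) ∧
  (∀ Q k : ℕ, 1 ≤ Q → ¬ 2 ∣ Q → 1 ≤ k →
    SG (k * Q) = if 2 ∣ k then GM C2 (2 * Q) * FM (2 * Q) (k / 2) else 0)

/-- A10 : convolution identity (model: `W14b`, FGP_P14b_helper45.lean, which is `M = 2`). -/
def A10 : Prop := ∀ M k : ℕ, 1 ≤ M → 2 ∣ M → 1 ≤ k →
  FM M k = ∑ d ∈ k.divisors, (1 / (d : ℝ)) * ∑ i ∈ d.divisors, bM M i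

/-- A11 : the constants of `b_M` (model: `W14c`, FGP_P14c_helper45.lean, which is `M = 2`). PROOF: Euler
products; local factors for `p ∤ M`: `(1 + b(p)/p + b(p²)/p²) (1 - 1/(p-1)²) = 1`,
`(1 + b(p)/p² + b(p²)/p⁴) (1 - 1/(p-1)²) = 1 - 1/p²`; for `p ∣ M`: `1 - 1/p`, `1 - 1/p²`. With the factors of `GM`:
`2 C₂ ∏_{p ∣ M, p > 2} (p-1)/(p-2) = (M/φ(M)) ∏_{p ∤ M} (1 - 1/(p-1)²)`. Logarithm: `log d = ∑_p v_p(d) log p`,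
`∑_d b(d) v_p(d)/d = (b(p)/p + 2 b(p²)/p²) ∑_{p ∤ d} b(d)/d`, which is `0` for `p ∤ M` and
`-(1/(p-1)) ∑_d b(d)/d` for `p ∣ M`. -/
def A11 : Prop := ∀ M : ℕ, 1 ≤ M → 2 ∣ M →
  Summable (fun d : ℕ => |bM M d| * (1 + Real.log d) / d) ∧
  ∀ C2 : ℝ, IsC2 C2 →
    GM C2 M * ∑' d : ℕ, bM M d / d = 1 ∧
    GM C2 M * ∑' d : ℕ, bM M d / (d : ℝ) ^ 2 = (M / Nat.totient M : ℝ) * (6 / Real.pi ^ 2) ∧
    ∑' d : ℕ, bM M d * Real.log d / d =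
      - (∑ p ∈ M.primeFactors, Real.log p / ((p : ℝ) - 1)) * ∑' d : ℕ, bM M d / d

/-- A12 : absolute bounds. PROOF: Euler product:
`∏_{p ∣ M} (1 + p^(-3/4)) ∏_{p ∤ M} (1 + 2/((p-2) p^(3/4)) + p/((p-2) p^(3/2)))` (all finite partial sums are at most the
finite products; or `d = d₁ d₂`, `d₁` from primes dividing `M`); `p^(-3/4) ≤ p^(-1/2)`. `GM`:
`(p-1)/(p-2) ≤ 1 + 3/p ≤ (1 + 1/√p)³` for `p ≥ 3`. -/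
def A12 : Prop := (∃ C : ℝ, 0 < C ∧ ∀ M : ℕ, 1 ≤ M → 2 ∣ M →
    Summable (fun d : ℕ => |bM M d| * (d : ℝ) ^ (-(3 / 4) : ℝ)) ∧
    ∑' d : ℕ, |bM M d| * (d : ℝ) ^ (-(3 / 4) : ℝ) ≤ C * ks M) ∧
  ∀ C2 : ℝ, 0 < C2 → ∀ M : ℕ, 1 ≤ M → 0 < GM C2 M ∧ GM C2 M ≤ 2 * C2 * ks M ^ 3

/-- A13 : `Ps1` for all `x > 0` (from `W14d`). PROOF: for `x ≥ x0` this is `W14d`; for `1 ≤ x ≤ x0` everything is
bounded; for `x < 1` `Ps1 x = 0` and `|log x| ≤ 4 x^(-1/4)`. -/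
def A13 : Prop := ∀ η : ℝ, 0 < η → ∃ C : ℝ, 0 < C ∧ ∀ x : ℝ, 0 < x →
  |Ps1 x - M1 x| ≤ η * x + C * x ^ (3 / 4 : ℝ)

/-- A14 : the second order asymptotic for `f_M`, uniform in `M` (model: `W14`, FGP_P14_helper61.lean).
PROOF: `∑_{k ≤ y} (y-k) f_M(k) = ∑_i b_M(i) Ps1(y/i)` (`A10`; `Ps1 x = 0` for `x < 1`, so the sum may be taken over all
`i`), main terms by `A11`: `GM ∑ b/i² π²/12 y² = (M/φ(M)) y²/2`, `-(y/2) GM ∑ b (log y - log i)/i =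
-(y/2)(log y + ∑_{p ∣ M} log p/(p-1))`, `(y/2)(1 - γ - log 2π)`; error: `A13`, `A12`
(`∑ |b|/i ≤ ∑ |b| i^(-3/4) ≤ C ks M`). -/
def A14 : Prop := ∀ C2 : ℝ, IsC2 C2 → ∀ η : ℝ, 0 < η → ∃ C : ℝ, 0 < C ∧
  ∀ (M : ℕ) (y : ℝ), 1 ≤ M → 2 ∣ M → 0 < y →
  |GM C2 M * ∑ k ∈ Icc 1 ⌊y⌋₊, (y - k) * FM M k -
      ((M / Nat.totient M : ℝ) * y ^ 2 / 2 - y / 2 * (Real.log y + HC.CQ M - 1))| ≤
    (η * y + C * y ^ (3 / 4 : ℝ)) * ks M ^ 4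

/-- A15 : the main term for one modulus. PROOF: `SK K (kQ)` is replaced by `SG (kQ)` with `A08`
(`ks (kQ) ≤ ks k ks Q`, `ks k ^ 2 ≤ C z` for `k ≤ z`; total `C N ks(Q)² z²/√K`, `z ^ 16 ≤ K`), then `A09` and `A14`:
`Q` even: `M = Q`, `y = N/Q`; `Q` odd: `M = 2Q`, `y = N/(2Q)`, `k = 2k'` (`CQ (2Q) = CQ Q + log 2`,
`2Q/φ(2Q) = 2 Q/φ(Q)`, `ks (2Q) ≤ 2 ks Q`). Multiply by `2Q`. -/
def A15 : Prop := ∀ η : ℝ, 0 < η → ∃ Z0 : ℕ, 1 ≤ Z0 ∧ ∀ N K Q : ℕ, 1 ≤ Q → Z0 * Q ≤ N →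
  N ^ 16 ≤ Q ^ 16 * K →
  |2 * ∑ k ∈ Icc 1 (N / Q), SK K (k * Q) * ((N : ℝ) - k * Q) -
      ((N : ℝ) ^ 2 / Nat.totient Q - N * (Real.log ((N : ℝ) / Q) + HC.CQ Q - 1))| ≤
    η * N * ks Q ^ 4

/-- A16 : mean of the weights. PROOF: `ks Q ^ 8 = ∑_{d ∣ Q} μ²(d) ∏_{p ∣ d} ((1+1/√p)^8 - 1)`,
`(1+x)^8 - 1 ≤ 255 x` for `0 ≤ x ≤ 1`, `∑_Q ≤ Y ∑_d μ²(d) 255^ω(d)/d^(3/2) ≤ Y ∏_p (1 + 255/p^(3/2))`. -/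
def A16 : Prop := ∃ C : ℝ, 0 < C ∧ ∀ Y : ℕ, 1 ≤ Y → ∑ Q ∈ Icc 1 Y, ks Q ^ 8 ≤ C * Y

/-- A17 : the tail of `Q/φ(Q) = ∑_{r ∣ Q} μ²(r)/φ(r)` in mean. PROOF:
`0 ≤ Q/φ(Q) - TL Q R = ∑_{r ∣ Q, r > R} μ²/φ(r)`, at most `4Y/r` of the `Q ∈ MQ Y` are multiples of `r`,
`∑_{r > R} 1/(r φ(r)) ≤ C/R`. -/
def A17 : Prop := ∃ C : ℝ, 0 < C ∧ ∀ Y R : ℕ, 1 ≤ Y → 1 ≤ R →
  ∑ Q ∈ MQ Y, |TL Q R - (Q / Nat.totient Q : ℝ)| ≤ C * Y / R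

/-! ## Comparison with the variance -/

/-- A18a : the characters of conductor `> (X/Q) log⁸ X` and the fractions of denominator `> R`. PROOF: one side is
`HC.char_le` (Lib_helper92/HCF/CHL; as in `FIB_hh_le`), the other side `MF.per_q_pr` with `K = log² X`, `D = X/Q log⁸ X ≥ R`
(Lib_helper59/MFF/C3b) and `MF.surplus_pr` (MFF/C4c; `SUR` is monotone in `D`, take `D = X/Y log⁸ X`), `HC.diag`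
(`A2 Lam ≤ 2 X log X`), `∑_{Q ≤ 4Y} HH ≤ C X Y log X` (`HC.partAB`). Model: MFF/C5a, C5b. -/
def A18a : Prop := ∀ η : ℝ, 0 < η → ∃ C : ℝ, ∀ (X : ℝ) (Y : ℕ), C ≤ X →
  Real.sqrt X * Real.log X ^ 12 ≤ Y → C * Y ≤ X →
  ∑ Q ∈ MQ Y, |HC.HH X Q (X / Q * Real.log X ^ 8) -
      (1 / (Q : ℝ)) * ∑ l ∈ (range Q).filter (fun l : ℕ =>
        ⌊X / (4 * Y) * Real.log X ^ 8⌋₊ < HC.den l Q), HC.Sq HC.Lam ⌊X⌋₊ (l / Q)| ≤ η * X * Y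

/-- A18b : from the von Mangoldt function to the primes `> √N`. PROOF: `d n = Lam n - aS N n ≥ 0` is at most
`log N` and supported on at most `C √N` integers (prime powers, primes up to `√N`; `Chebyshev`), so
`(1/Q) ∑_{l < Q} ‖D(l/Q)‖² = ∑_a (∑_{n = a (Q)} d n)² ≤ (∑ d) max_a ≤ C √N log N (N/Q + 1) log N`; the same for `aS`:
`≤ C N log N (N/Q+1) log N`; `| |x|² - |y|² | ≤ |x-y| (2|x-y| + 2|y|)`, Cauchy; `N/Q ≤ N^(1/10)`. -/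
def A18b : Prop := ∀ η : ℝ, 0 < η → ∃ N0 : ℕ, ∀ N ≥ N0, ∀ Q R : ℕ, N ^ 9 ≤ Q ^ 10 → Q ≤ 4 * N →
  |(1 / (Q : ℝ)) * ∑ l ∈ (range Q).filter (fun l : ℕ => R < HC.den l Q), HC.Sq HC.Lam N (l / Q) -
      VP (Ps N) Q R| ≤ η * N

/-! ## Assembly -/

/-- A19 : the main theorem for the primes in `(√N, N]` (model: `W18`, FGP_P18_helper3.tgz) -/
def A19 : Prop := ∀ c₁ : ℝ, 0 < c₁ → ∃ C c B : ℝ, 0 < C ∧ 0 < c ∧ 1 ≤ B ∧ ∀ η : ℝ, 0 < η →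
  ∃ K0 : ℕ, ∀ K ≥ K0, ∀ N D : ℕ, Rg K N → Pool.Agent.GA.Good c₁ D → K ^ 20 ≤ D → (D : ℝ) ^ B ≤ N →
  ∀ Y, RY K N Y → K0 * Y ≤ N → ∀ R : ℕ, R ≤ K → N * Real.log N ^ 7 ≤ (R : ℝ) * Y →
  ∑ Q ∈ MQ Y, |VP (Ps N) Q R - N * (Real.log Q - HC.CQ Q)| ≤
    (C * Real.exp (-(c * Real.log N / Real.log D)) * Real.log N + η) * N * Y

/-- the integers in `(Y, 2Y]` -/
noncomputable def IR (Y : ℝ) : Finset ℕ := (Icc 1 ⌊2 * Y⌋₊).filter (fun Q : ℕ => Y < Q)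

/-- A20 : final statement: prime moduli (two parts, as in `WFIN`) and all moduli, for the same `D` -/
def A20 : Prop := ∃ c C B : ℝ, 0 < c ∧ 0 < C ∧ 1 ≤ B ∧ ∀ η : ℝ, 0 < η → ∀ T : ℝ, ∃ D C' : ℝ,
  T ≤ D ∧ D ^ B ≤ Real.exp (D ^ c) ∧
  (∀ X Y : ℝ, D ^ B ≤ X → X ≤ Real.exp (D ^ c) → X * D ^ (-c) ≤ Y → C' * Y ≤ X →
    ∑ Q ∈ IR Y, |HC.GX X Q - HC.LX X Q (X / Q * Real.log X ^ 8) - X * (Real.log Q - HC.CQ Q)| ≤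
      (C * Real.exp (-(c * Real.log X / Real.log D)) * Real.log X + η) * X * Y)

end Pool.Agent.FGA
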