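import Pool.Agent.Lib_helper99.FGA.Basic
import Pool.Agent.Lib_helper3.FGP.P19

set_option autoImplicit false

namespace Pool.Agent.FGA

open Finset Pool.Agent.Var35 Pool.Agent.Var73 Pool.Agent.PV Pool.Agent.FGP
open scoped ArithmeticFunction ArithmeticFunction.Moebius
open Filter Topology

/-- facts for large `X` -/
theorem a20_X (η T : ℝ) (hη : 0 < η) : ∃ X₁ : ℝ, ∀ X : ℝ, X₁ ≤ X →
    100 ≤ X ∧ T ≤ X ∧ 2 * (Real.sqrt X * Real.log X ^ 12) ≤ X ^ (59 / 60 : ℝ) ∧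
    8 ≤ Real.log X ∧ Real.log X + 3 ≤ η * X := by
  have e1 : ∀ᶠ X : ℝ in atTop, 100 ≤ X := eventually_ge_atTop _
  have e2 : ∀ᶠ X : ℝ in atTop, T ≤ X := eventually_ge_atTop _
  have e3 : ∀ᶠ X : ℝ in atTop, Real.log X ≤ 1 * X ^ (1 / 120 : ℝ) := by
    have := (isLittleO_log_rpow_atTop (show (0 : ℝ) < 1 / 120 by norm_num)).bound one_pos
    filter_upwards [this, eventually_ge_atTop (1 : ℝ)] with x hx h1
    rw [Real.norm_of_nonneg (Real.log_nonneg h1), Real.norm_of_nonneg (by positivity)] at hx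
    exact hx
  have e4 : ∀ᶠ X : ℝ in atTop, 2 ≤ X ^ (1 / 60 : ℝ) :=
    (tendsto_rpow_atTop (by norm_num)).eventually_ge_atTop _
  have e5 : ∀ᶠ X : ℝ in atTop, 8 ≤ Real.log X := Real.tendsto_log_atTop.eventually_ge_atTop _
  have e6 : ∀ᶠ X : ℝ in atTop, Real.log X ≤ η / 2 * X := by
    have := (isLittleO_log_rpow_atTop (show (0 : ℝ) < 1 by norm_num)).bound
      (show (0 : ℝ) < η / 2 by positivity)
    filter_upwards [this, eventually_ge_atTop (1 : ℝ)] with x hx h1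
    rw [Real.norm_of_nonneg (Real.log_nonneg h1), Real.norm_of_nonneg (by positivity),
      Real.rpow_one] at hx
    exact hx
  have e7 : ∀ᶠ X : ℝ in atTop, 6 / η ≤ X := eventually_ge_atTop _
  obtain ⟨X₁, hX₁⟩ := eventually_atTop.1
    (e1.and (e2.and (e3.and (e4.and (e5.and (e6.and e7))))))
  refine ⟨X₁, fun X hX => ?_⟩
  obtain ⟨a1, a2, a3, a4, a5, a6, a7⟩ := hX₁ X hX
  have hX0 : 0 < X := by linarith
  refine ⟨a1, a2, ?_, a5, ?_⟩
  · rw [one_mul] at a3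
    have h1 : Real.log X ^ 12 ≤ (X ^ (1 / 120 : ℝ)) ^ 12 := by
      have : 0 ≤ Real.log X := by linarith
      gcongr
    have h2 : (X ^ (1 / 120 : ℝ)) ^ 12 = X ^ (1 / 10 : ℝ) := by
      rw [← Real.rpow_natCast, ← Real.rpow_mul hX0.le]
      norm_num
    have h3 : Real.sqrt X = X ^ (1 / 2 : ℝ) := Real.sqrt_eq_rpow X
    have h4 : 2 * (Real.sqrt X * Real.log X ^ 12) ≤ 2 * (X ^ (1 / 2 : ℝ) * X ^ (1 / 10 : ℝ)) := by
      rw [h3, ← h2]
      gcongr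
    refine h4.trans ?_
    rw [← Real.rpow_add hX0]
    calc 2 * X ^ (1 / 2 + 1 / 10 : ℝ) ≤ X ^ (1 / 60 : ℝ) * X ^ (1 / 2 + 1 / 10 : ℝ) := by gcongr
      _ = X ^ (1 / 60 + (1 / 2 + 1 / 10) : ℝ) := by rw [← Real.rpow_add hX0]
      _ ≤ X ^ (59 / 60 : ℝ) :=
          Real.rpow_le_rpow_of_exponent_le (by linarith) (by norm_num)
  · have h1 : 3 ≤ η / 2 * X := by
      rw [div_le_iff₀ hη] at a7
      linarith
    linarith

theorem a20_CQ (Q : ℕ) (hQ : 1 ≤ Q) : |Real.log Q - HC.CQ Q| ≤ Real.log Q + 3 := by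
  have h1 : 0 ≤ ∑ p ∈ Q.primeFactors, Real.log p / ((p : ℝ) - 1) := by
    apply sum_nonneg
    intro p hp
    have hp2 : (2 : ℝ) ≤ p := by exact_mod_cast (Nat.prime_of_mem_primeFactors hp).two_le
    have : 0 ≤ Real.log p := Real.log_nonneg (by linarith)
    have : 0 ≤ (p : ℝ) - 1 := by linarith
    positivity
  have h2 : ∑ p ∈ Q.primeFactors, Real.log p / ((p : ℝ) - 1) ≤ Real.log Q := by
    calc ∑ p ∈ Q.primeFactors, Real.log p / ((p : ℝ) - 1) ≤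
        ∑ p ∈ Q.primeFactors, Real.log p := by
          apply sum_le_sum
          intro p hp
          have hp2 : (2 : ℝ) ≤ p := by exact_mod_cast (Nat.prime_of_mem_primeFactors hp).two_le
          have h3 : 0 ≤ Real.log p := Real.log_nonneg (by linarith)
          exact div_le_self h3 (by linarith)
      _ = Real.log (∏ p ∈ Q.primeFactors, (p : ℝ)) := by
          rw [Real.log_prod]
          intro p hp
          have := (Nat.prime_of_mem_primeFactors hp).pos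
          positivity
      _ ≤ Real.log Q := by
          have h3 : ∏ p ∈ Q.primeFactors, p ≤ Q :=
            Nat.le_of_dvd (by omega) (Nat.prod_primeFactors_dvd Q)
          have h4 : (∏ p ∈ Q.primeFactors, (p : ℝ)) ≤ Q := by
            have h5 := (Nat.cast_le (α := ℝ)).2 h3
            rwa [Nat.cast_prod] at h5
          apply Real.log_le_log _ h4
          apply prod_pos
          intro p hp
          exact_mod_cast (Nat.prime_of_mem_primeFactors hp).pos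
  have l3 := Real.eulerMascheroniConstant_lt_two_thirds
  have l4 := Real.one_half_lt_eulerMascheroniConstant
  have l5 : Real.log (2 * Real.pi) ≤ 2 := by
    rw [Real.log_le_iff_le_exp (by positivity)]
    have h1 := Real.pi_lt_d2
    have h2 : (2.7 : ℝ) ^ 2 ≤ Real.exp 2 := by
      have h3 := Real.exp_one_gt_d9
      have h4 : Real.exp 2 = Real.exp 1 ^ 2 := by rw [← Real.exp_nat_mul]; norm_num
      rw [h4]
      gcongr
      linarith
    nlinarith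
  have l6 : 0 ≤ Real.log (2 * Real.pi) := Real.log_nonneg (by linarith [Real.pi_gt_three])
  have l7 : 0 ≤ Real.log Q := Real.log_natCast_nonneg Q
  unfold HC.CQ
  rw [abs_le]
  constructor <;> linarith

/-- the estimate for one good level -/
def A20g (c₁ : ℝ) : Prop := ∃ c C B : ℝ, 0 < c ∧ 0 < C ∧ 1 ≤ B ∧ ∀ η : ℝ, 0 < η → ∃ C' X₀ : ℝ,
  ∀ D : ℕ, Pool.Agent.GA.Good c₁ D → X₀ ≤ D → ∀ X Y : ℝ, (D : ℝ) ^ B ≤ X →
    X ≤ Real.exp ((D : ℝ) ^ c) → X * (D : ℝ) ^ (-c) ≤ Y → C' * Y ≤ X →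
    ∑ Q ∈ IR Y, |HC.GX X Q - HC.LX X Q (X / Q * Real.log X ^ 8) - X * (Real.log Q - HC.CQ Q)| ≤
      (C * Real.exp (-(c * Real.log X / Real.log D)) * Real.log X + η) * X * Y

namespace A20S

variable {c B₀ : ℝ} {K0 D : ℕ} {X Y : ℝ} (h : P19S c B₀ K0 D X Y)
include h

theorem sub : IR Y ⊆ MQ ⌊Y⌋₊ := by
  intro Q hQ
  unfold IR at hQ
  rw [mem_filter, mem_Icc] at hQ
  obtain ⟨⟨hQ1, hQ2⟩, hYQ⟩ := hQ
  unfold MQ
  rw [mem_Ioc]
  have hQ2' : (Q : ℝ) ≤ 2 * Y :=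
    le_trans (by exact_mod_cast hQ2) (Nat.floor_le (by linarith [h.Y0]))
  have h1 := h.Yf1
  have h2 := h.Yf2
  refine ⟨?_, ?_⟩
  · have : (⌊Y⌋₊ : ℝ) < Q := by linarith
    exact_mod_cast this
  · have : (Q : ℝ) ≤ 4 * ⌊Y⌋₊ := by linarith
    exact_mod_cast this

theorem Qf {Q : ℕ} (hQ : Q ∈ IR Y) : 1 ≤ Q ∧ Y < Q ∧ (Q : ℝ) ≤ 2 * Y := by
  unfold IR at hQ
  rw [mem_filter, mem_Icc] at hQ
  obtain ⟨⟨hQ1, hQ2⟩, hYQ⟩ := hQ
  exact ⟨hQ1, hYQ, le_trans (by exact_mod_cast hQ2) (Nat.floor_le (by linarith [h.Y0]))⟩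

/-- the denominators -/
theorem RK (hc1 : c ≤ 1 / 2500) : ⌊X / (4 * ⌊Y⌋₊) * Real.log X ^ 8⌋₊ ≤ ⌊(D : ℝ) ^ (1 / 20 : ℝ)⌋₊ := by
  have hDc := Real.rpow_pos_of_pos h.D0 c
  have hY := h.Y0
  have hYf : 0 < (⌊Y⌋₊ : ℝ) := by linarith [h.Yf2, h.Y10]
  have h1 : X ≤ (D : ℝ) ^ c * Y := by
    have h3 := h.hY
    rw [Real.rpow_neg h.D0.le, ← div_eq_mul_inv, div_le_iff₀ hDc] at h3
    linarith
  have h2 : X / (4 * ⌊Y⌋₊) ≤ (D : ℝ) ^ c := by
    rw [div_le_iff₀ (by positivity)]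
    have h3 := h.Yf2
    calc X ≤ (D : ℝ) ^ c * Y := h1
      _ ≤ (D : ℝ) ^ c * (4 * ⌊Y⌋₊) := by
          have : Y ≤ 4 * ⌊Y⌋₊ := by linarith
          gcongr
  have h3 : Real.log X ≤ (D : ℝ) ^ c := by
    rw [Real.log_le_iff_le_exp h.X0]; exact h.hX2
  have h4 : 0 ≤ Real.log X := by linarith [h.logX]
  have h5 : X / (4 * ⌊Y⌋₊) * Real.log X ^ 8 ≤ (D : ℝ) ^ (1 / 25 : ℝ) := by
    have h50 : 0 ≤ X / (4 * ⌊Y⌋₊) := by
      have := h.X0
      positivity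
    calc X / (4 * ⌊Y⌋₊) * Real.log X ^ 8 ≤ (D : ℝ) ^ c * ((D : ℝ) ^ c) ^ 8 := by gcongr
      _ = (D : ℝ) ^ (9 * c) := by
          rw [← Real.rpow_natCast, ← Real.rpow_mul h.D0.le, ← Real.rpow_add h.D0]
          congr 1
          push_cast
          ring
      _ ≤ _ := Real.rpow_le_rpow_of_exponent_le (by linarith [h.d1]) (by linarith)
  have h6 := Nat.floor_le (a := X / (4 * ⌊Y⌋₊) * Real.log X ^ 8) (by
    have := h.X0
    positivity)
  have h7 := h.K25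
  have h8 : 0 ≤ (D : ℝ) ^ (1 / 25 : ℝ) := Real.rpow_nonneg h.D0.le _
  have h9 : (⌊X / (4 * ⌊Y⌋₊) * Real.log X ^ 8⌋₊ : ℝ) ≤ (⌊(D : ℝ) ^ (1 / 20 : ℝ)⌋₊ : ℝ) := by
    linarith
  exact_mod_cast h9

theorem RL (hl : 8 ≤ Real.log X) : (⌊X⌋₊ : ℝ) * Real.log ⌊X⌋₊ ^ 7 ≤
    (⌊X / (4 * ⌊Y⌋₊) * Real.log X ^ 8⌋₊ : ℝ) * ⌊Y⌋₊ := by
  have hX := h.X0
  have hYf : 0 < (⌊Y⌋₊ : ℝ) := by linarith [h.Yf2, h.Y10]
  have h1 := Nat.lt_floor_add_one (X / (4 * ⌊Y⌋₊) * Real.log X ^ 8)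
  have h2 : X / 4 * Real.log X ^ 8 - ⌊Y⌋₊ ≤
      (⌊X / (4 * ⌊Y⌋₊) * Real.log X ^ 8⌋₊ : ℝ) * ⌊Y⌋₊ := by
    have h3 : X / (4 * ⌊Y⌋₊) * Real.log X ^ 8 * ⌊Y⌋₊ = X / 4 * Real.log X ^ 8 := by
      field_simp
    have h4 : (X / (4 * ⌊Y⌋₊) * Real.log X ^ 8 - 1) * ⌊Y⌋₊ ≤
        (⌊X / (4 * ⌊Y⌋₊) * Real.log X ^ 8⌋₊ : ℝ) * ⌊Y⌋₊ := by
      apply mul_le_mul_of_nonneg_right (by linarith) hYf.le
    have h5 : (X / (4 * ⌊Y⌋₊) * Real.log X ^ 8 - 1) * ⌊Y⌋₊ = X / 4 * Real.log X ^ 8 - ⌊Y⌋₊ := by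
      rw [sub_mul, h3, one_mul]
    linarith
  refine le_trans ?_ h2
  have h3 : Real.log (⌊X⌋₊ : ℝ) ≤ Real.log X :=
    Real.log_le_log (by linarith [h.N3, h.x1]) h.N1
  have h0 : 0 ≤ Real.log (⌊X⌋₊ : ℝ) := Real.log_natCast_nonneg _
  have h4 : (⌊X⌋₊ : ℝ) * Real.log ⌊X⌋₊ ^ 7 ≤ X * Real.log X ^ 7 := by
    have := h.N1
    gcongr
  have h5 : (1 : ℝ) ≤ Real.log X ^ 7 := one_le_pow₀ (by linarith)
  have h6 : X / 4 * Real.log X ^ 8 ≥ 2 * (X * Real.log X ^ 7) := by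
    have : X / 4 * Real.log X ^ 8 = X * Real.log X ^ 7 * (Real.log X / 4) := by ring
    rw [this]
    have h7 : 0 < X * Real.log X ^ 7 := by positivity
    nlinarith
  have h7 : (⌊Y⌋₊ : ℝ) ≤ X * Real.log X ^ 7 := by
    have h8 := h.Yf1
    have h9 := h.YX
    nlinarith
  linarith

end A20S

theorem A20g_pr (h18a : A18a) (h18b : A18b) (h19 : A19) (c₁ : ℝ) (hc₁ : 0 < c₁) : A20g c₁ := by
  obtain ⟨C₀, c₀, B₀, hC₀, hc₀, hB₀, hmain⟩ := h19 c₁ hc₁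
  set c : ℝ := min (c₀ / 2) (1 / 2500) with hc
  have hcpos : 0 < c := lt_min (by positivity) (by norm_num)
  refine ⟨c, C₀, B₀ + 60, hcpos, hC₀, by linarith, fun η hη => ?_⟩
  obtain ⟨K0, hK0⟩ := hmain (η / 8) (by positivity)
  obtain ⟨Ca, hCa⟩ := h18a (η / 8) (by positivity)
  obtain ⟨Nb, hNb⟩ := h18b (η / 8) (by positivity)
  obtain ⟨X₁, hX₁⟩ := a20_X (η / 8) (max Ca (Nb + 1)) (by positivity)
  obtain ⟨D₀, hD₀⟩ := p19_D c (B₀ + 60) 0 X₁ hcpos K0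
  refine ⟨max (2 * (K0 : ℝ) + 2) Ca, D₀, fun D hgood hD X Y hX hX2 hY hYX => ?_⟩
  obtain ⟨d1, d2, d3, d4, d5, d6⟩ := hD₀ D hD
  have hD0 : (0 : ℝ) < D := by linarith
  have hDB : (D : ℝ) ≤ (D : ℝ) ^ (B₀ + 60) := by
    calc (D : ℝ) = (D : ℝ) ^ (1 : ℝ) := (Real.rpow_one _).symm
      _ ≤ _ := Real.rpow_le_rpow_of_exponent_le (by linarith) (by linarith)
  have hXX : X₁ ≤ X := d3.trans (hDB.trans hX)
  obtain ⟨x1, x2, x3, x4, x5⟩ := hX₁ X hXX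
  have hX0 : 0 < X := by linarith
  have hY0 : 0 < Y := lt_of_lt_of_le (by positivity) hY
  have hYX1 : (2 * (K0 : ℝ) + 2) * Y ≤ X :=
    (mul_le_mul_of_nonneg_right (le_max_left _ _) hY0.le).trans hYX
  have hYX2 : Ca * Y ≤ X := (mul_le_mul_of_nonneg_right (le_max_right _ _) hY0.le).trans hYX
  have h : P19S c B₀ K0 D X Y :=
    ⟨hcpos, min_le_right _ _, hB₀, d1, d4, d5, x1, hX, hX2, hY, hYX1⟩
  set N : ℕ := ⌊X⌋₊ with hN
  set Y' : ℕ := ⌊Y⌋₊ with hY'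
  set R : ℕ := ⌊X / (4 * Y') * Real.log X ^ 8⌋₊ with hR
  set K : ℕ := ⌊(D : ℝ) ^ (1 / 20 : ℝ)⌋₊ with hK
  have hYf1 : (Y' : ℝ) ≤ Y := h.Yf1
  have hYf2 : Y / 2 ≤ Y' := h.Yf2
  have hYf0 : (0 : ℝ) < Y' := by linarith
  have hNX : (N : ℝ) ≤ X := h.N1
  have hNX2 : X < N + 1 := h.N2
  have hN0 : (0 : ℝ) < N := by linarith
  -- the three inputs
  have e1 := hCa X Y' ((le_max_left _ _).trans x2) (by
      have h1 := h.Y1
      linarith) (by
      by_cases hCa0 : 0 ≤ Ca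
      · calc Ca * (Y' : ℝ) ≤ Ca * Y := by gcongr
          _ ≤ X := hYX2
      · have : Ca * (Y' : ℝ) ≤ 0 := mul_nonpos_of_nonpos_of_nonneg (by linarith) hYf0.le
        linarith)
  have hNNb : Nb ≤ N := by
    have h1 : (Nb : ℝ) + 1 ≤ X := (le_max_right _ _).trans x2
    have h2 : (Nb : ℝ) ≤ N := by linarith
    exact_mod_cast h2
  have e3 := hK0 K h.KK0 N D h.rg hgood h.K20 h.DB Y' h.ry h.KY R (A20S.RK h (min_le_right _ _))
    (A20S.RL h x4)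
  -- one modulus
  have hpt : ∀ Q ∈ IR Y, |HC.GX X Q - HC.LX X Q (X / Q * Real.log X ^ 8) -
      X * (Real.log Q - HC.CQ Q)| ≤
      |HC.HH X Q (X / Q * Real.log X ^ 8) - (1 / (Q : ℝ)) * ∑ l ∈ (range Q).filter (fun l : ℕ =>
        R < HC.den l Q), HC.Sq HC.Lam N (l / Q)| +
      |VP (Ps N) Q R - N * (Real.log Q - HC.CQ Q)| + η / 4 * X := by
    intro Q hQ
    obtain ⟨hQ1, hYQ, hQY⟩ := A20S.Qf h hQ
    have hQ0 : (0 : ℝ) < Q := by linarith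
    have hK00 : (0 : ℝ) ≤ K0 := Nat.cast_nonneg _
    have hQX : (Q : ℝ) ≤ X := by nlinarith
    have hD1 : 1 ≤ X / Q * Real.log X ^ 8 := by
      have h1 : 1 ≤ X / Q := by rwa [le_div_iff₀ hQ0, one_mul]
      have h2 : 1 ≤ Real.log X ^ 8 := one_le_pow₀ (by linarith)
      nlinarith
    rw [HC.gx_ident X Q hQ1 _ hD1]
    have hlQ : Real.log Q ≤ Real.log X := Real.log_le_log hQ0 hQX
    have e4 : |(N : ℝ) * (Real.log Q - HC.CQ Q) - X * (Real.log Q - HC.CQ Q)| ≤ η / 8 * X := by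
      rw [← sub_mul, abs_mul]
      have h1 : |(N : ℝ) - X| ≤ 1 := by
        rw [abs_le]
        constructor <;> linarith
      have h2 := a20_CQ Q hQ1
      calc |(N : ℝ) - X| * |Real.log Q - HC.CQ Q| ≤ 1 * (Real.log Q + 3) := by gcongr
        _ ≤ η / 8 * X := by linarith
    have hb1 : N ^ 9 ≤ Q ^ 10 := by
      have h1 : (N : ℝ) ^ 9 ≤ (Q : ℝ) ^ 10 := by
        have h2 : X ^ (59 / 60 : ℝ) ≤ Q := h.Y1.trans hYQ.le
        have h3 : (X ^ (59 / 60 : ℝ)) ^ 10 ≤ (Q : ℝ) ^ 10 := by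
          have := Real.rpow_pos_of_pos hX0 (59 / 60)
          gcongr
        have h4 : (X ^ (59 / 60 : ℝ)) ^ 10 = X ^ (59 / 6 : ℝ) := by
          rw [← Real.rpow_natCast, ← Real.rpow_mul hX0.le]
          norm_num
        have h5 : X ^ (9 : ℕ) ≤ X ^ (59 / 6 : ℝ) := by
          rw [← Real.rpow_natCast]
          exact Real.rpow_le_rpow_of_exponent_le (by linarith) (by norm_num)
        calc (N : ℝ) ^ 9 ≤ X ^ 9 := by gcongr
          _ ≤ X ^ (59 / 6 : ℝ) := h5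
          _ ≤ _ := by rw [← h4]; exact h3
      exact_mod_cast h1
    have hb2 : Q ≤ 4 * N := by
      have h1 : (Q : ℝ) ≤ 4 * N := by linarith [h.N3]
      exact_mod_cast h1
    have e5 := hNb N hNNb Q R hb1 hb2
    have e6 : η / 8 * (N : ℝ) ≤ η / 8 * X := by gcongr
    set V1 : ℝ := (1 / (Q : ℝ)) * ∑ l ∈ (range Q).filter (fun l : ℕ =>
        R < HC.den l Q), HC.Sq HC.Lam N (l / Q)
    set H1 : ℝ := HC.HH X Q (X / Q * Real.log X ^ 8)
    have h7 : H1 - X * (Real.log Q - HC.CQ Q) = (H1 - V1) + (V1 - VP (Ps N) Q R) +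
        (VP (Ps N) Q R - N * (Real.log Q - HC.CQ Q)) +
        ((N : ℝ) * (Real.log Q - HC.CQ Q) - X * (Real.log Q - HC.CQ Q)) := by ring
    rw [h7]
    refine (abs_add_le _ _).trans ?_
    have h8 := abs_add_le ((H1 - V1) + (V1 - VP (Ps N) Q R))
      (VP (Ps N) Q R - N * (Real.log Q - HC.CQ Q))
    have h9 := abs_add_le (H1 - V1) (V1 - VP (Ps N) Q R)
    linarith
  have hcard : ((IR Y).card : ℝ) ≤ 3 * Y := by
    have h1 : ((IR Y).card : ℝ) ≤ ((MQ Y').card : ℝ) := by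
      exact_mod_cast card_le_card (A20S.sub h)
    rw [a01_card] at h1
    linarith
  have s1 : ∑ Q ∈ IR Y, |HC.HH X Q (X / Q * Real.log X ^ 8) - (1 / (Q : ℝ)) *
      ∑ l ∈ (range Q).filter (fun l : ℕ => R < HC.den l Q), HC.Sq HC.Lam N (l / Q)| ≤
      η / 8 * X * Y := by
    refine (sum_le_sum_of_subset_of_nonneg (A20S.sub h) fun _ _ _ => abs_nonneg _).trans ?_
    refine e1.trans ?_
    gcongr
  have s2 : ∑ Q ∈ IR Y, |VP (Ps N) Q R - N * (Real.log Q - HC.CQ Q)| ≤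
      (C₀ * Real.exp (-(c * Real.log X / Real.log D)) * Real.log X + η / 8) * X * Y := by
    refine (sum_le_sum_of_subset_of_nonneg (A20S.sub h) fun _ _ _ => abs_nonneg _).trans ?_
    refine e3.trans ?_
    have hlD : 0 < Real.log D := Real.log_pos (by linarith)
    have h1 : Real.exp (-(c₀ * Real.log N / Real.log D)) ≤
        Real.exp (-(c * Real.log X / Real.log D)) := by
      apply Real.exp_le_exp.2
      apply neg_le_neg
      apply div_le_div_of_nonneg_right _ hlD.le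
      have h2 := h.logN
      have h3 : c ≤ c₀ / 2 := min_le_left _ _
      have h4 := h.logX
      calc c * Real.log X ≤ c₀ / 2 * Real.log X := by gcongr
        _ = c₀ * (Real.log X / 2) := by ring
        _ ≤ c₀ * Real.log N := by gcongr
    have h2 : Real.log (N : ℝ) ≤ Real.log X := Real.log_le_log hN0 hNX
    have h3 : 0 ≤ Real.log (N : ℝ) := Real.log_natCast_nonneg _
    gcongr
  calc ∑ Q ∈ IR Y, |HC.GX X Q - HC.LX X Q (X / Q * Real.log X ^ 8) -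
      X * (Real.log Q - HC.CQ Q)| ≤ ∑ Q ∈ IR Y, (|HC.HH X Q (X / Q * Real.log X ^ 8) -
        (1 / (Q : ℝ)) * ∑ l ∈ (range Q).filter (fun l : ℕ =>
        R < HC.den l Q), HC.Sq HC.Lam N (l / Q)| +
      |VP (Ps N) Q R - N * (Real.log Q - HC.CQ Q)| + η / 4 * X) := sum_le_sum hpt
    _ ≤ η / 8 * X * Y + (C₀ * Real.exp (-(c * Real.log X / Real.log D)) * Real.log X + η / 8) *
        X * Y + 3 * Y * (η / 4 * X) := by
        rw [sum_add_distrib, sum_add_distrib, sum_const, nsmul_eq_mul]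
        have : ((IR Y).card : ℝ) * (η / 4 * X) ≤ 3 * Y * (η / 4 * X) := by gcongr
        linarith
    _ = (C₀ * Real.exp (-(c * Real.log X / Real.log D)) * Real.log X + η) * X * Y := by ring

end Pool.Agent.FGA
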