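import Pool.Agent.Lib_helper99.FGA.Wanted

set_option autoImplicit false

namespace Pool.Agent.FGA

open Finset Pool.Agent.Var35 Pool.Agent.Var73 Pool.Agent.PV Pool.Agent.FGP
open scoped ArithmeticFunction ArithmeticFunction.Moebius

theorem a01_VP_nonneg (P : ℝ → ℂ) (Q R : ℕ) : 0 ≤ VP P Q R := by
  unfold VP
  positivity

theorem a01_VM_nonneg (P : ℝ → ℂ) (Q R : ℕ) : 0 ≤ VM P Q R := by
  unfold VM
  positivity

/-- all fractions -/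
theorem a01_split (P : ℝ → ℂ) (Q R : ℕ) : VA P Q = VP P Q R + VM P Q R := by
  unfold VA VP VM
  rw [← mul_add]
  congr 1
  rw [← sum_filter_add_sum_filter_not (range Q) (fun l : ℕ => R < HC.den l Q)]
  congr 1
  refine sum_congr ?_ fun _ _ => rfl
  ext l
  simp only [mem_filter, not_lt]

/-- Minkowski over any finite set -/
theorem a01_mink_gen (w : ℝ) (hw0 : 0 ≤ w) (T : Finset ℕ) (P F : ℕ → ℂ) :
    |w * ∑ b ∈ T, ‖P b + F b‖ ^ 2 - w * ∑ b ∈ T, ‖P b‖ ^ 2| ≤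
      2 * Real.sqrt ((w * ∑ b ∈ T, ‖P b‖ ^ 2) * (w * ∑ b ∈ T, ‖F b‖ ^ 2)) +
        w * ∑ b ∈ T, ‖F b‖ ^ 2 := by
  have h1 : ∀ b : ℕ, |‖P b + F b‖ ^ 2 - ‖P b‖ ^ 2| ≤ 2 * (‖P b‖ * ‖F b‖) + ‖F b‖ ^ 2 := by
    intro b
    set x : ℂ := P b
    set y : ℂ := F b
    have h2 : ‖x + y‖ ≤ ‖x‖ + ‖y‖ := norm_add_le _ _
    have h3 : ‖x‖ - ‖y‖ ≤ ‖x + y‖ := by
      have := norm_sub_norm_le x (-y)
      rw [norm_neg, sub_neg_eq_add] at this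
      exact this
    have h4 : ‖y‖ - ‖x‖ ≤ ‖x + y‖ := by
      have := norm_sub_norm_le y (-x)
      rw [norm_neg, sub_neg_eq_add, add_comm y x] at this
      exact this
    have hx := norm_nonneg x
    have hy := norm_nonneg y
    have hxy := norm_nonneg (x + y)
    rw [abs_le]
    constructor
    · nlinarith
    · nlinarith
  have h2 : |w * ∑ b ∈ T, ‖P b + F b‖ ^ 2 - w * ∑ b ∈ T, ‖P b‖ ^ 2| ≤
      w * ∑ b ∈ T, (2 * (‖P b‖ * ‖F b‖) + ‖F b‖ ^ 2) := by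
    rw [← mul_sub, abs_mul, abs_of_nonneg hw0, ← sum_sub_distrib]
    refine mul_le_mul_of_nonneg_left ?_ hw0
    exact (abs_sum_le_sum_abs _ _).trans (sum_le_sum fun b _ => h1 b)
  refine h2.trans ?_
  rw [sum_add_distrib, ← mul_sum, mul_add]
  have h4 : (∑ b ∈ T, ‖P b‖ * ‖F b‖) ^ 2 ≤
      (∑ b ∈ T, ‖P b‖ ^ 2) * ∑ b ∈ T, ‖F b‖ ^ 2 :=
    sum_mul_sq_le_sq_mul_sq _ _ _
  have h5 : w * ∑ b ∈ T, ‖P b‖ * ‖F b‖ ≤
      Real.sqrt ((w * ∑ b ∈ T, ‖P b‖ ^ 2) * (w * ∑ b ∈ T, ‖F b‖ ^ 2)) := by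
    apply Real.le_sqrt_of_sq_le
    calc (w * ∑ b ∈ T, ‖P b‖ * ‖F b‖) ^ 2 =
        w ^ 2 * (∑ b ∈ T, ‖P b‖ * ‖F b‖) ^ 2 := by ring
      _ ≤ w ^ 2 * ((∑ b ∈ T, ‖P b‖ ^ 2) * ∑ b ∈ T, ‖F b‖ ^ 2) :=
          mul_le_mul_of_nonneg_left h4 (sq_nonneg _)
      _ = _ := by ring
  linarith

theorem a01_mink (P F : ℝ → ℂ) (Q R : ℕ) :
    |VP (fun t => P t + F t) Q R - VP P Q R| ≤ 2 * Real.sqrt (VP P Q R * VP F Q R) + VP F Q R := by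
  unfold VP
  exact a01_mink_gen (1 / (Q : ℝ)) (by positivity) _ (fun b => P (b / Q)) (fun b => F (b / Q))

/-- summed over the moduli -/
theorem a01_mink_sum (P F : ℝ → ℂ) (R : ℕ) (T : Finset ℕ) :
    ∑ Q ∈ T, |VP (fun t => P t + F t) Q R - VP P Q R| ≤
      2 * Real.sqrt ((∑ Q ∈ T, VP P Q R) * ∑ Q ∈ T, VP F Q R) + ∑ Q ∈ T, VP F Q R := by
  refine (sum_le_sum fun Q _ => a01_mink P F Q R).trans ?_
  rw [sum_add_distrib, ← mul_sum]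
  have h1 : ∑ Q ∈ T, Real.sqrt (VP P Q R * VP F Q R) ≤
      Real.sqrt ((∑ Q ∈ T, VP P Q R) * ∑ Q ∈ T, VP F Q R) := by
    apply Real.le_sqrt_of_sq_le
    have h2 : ∀ Q ∈ T, Real.sqrt (VP P Q R * VP F Q R) =
        Real.sqrt (VP P Q R) * Real.sqrt (VP F Q R) :=
      fun Q _ => Real.sqrt_mul (a01_VP_nonneg P Q R) _
    rw [sum_congr rfl h2]
    refine (sum_mul_sq_le_sq_mul_sq _ _ _).trans (le_of_eq ?_)
    congr 1
    · exact sum_congr rfl fun Q _ => Real.sq_sqrt (a01_VP_nonneg P Q R)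
    · exact sum_congr rfl fun Q _ => Real.sq_sqrt (a01_VP_nonneg F Q R)
  linarith

theorem a01_card (Y : ℕ) : ((MQ Y).card : ℝ) = 3 * Y := by
  unfold MQ
  rw [Nat.card_Ioc]
  have : 4 * Y - Y = 3 * Y := by omega
  rw [this]
  push_cast
  ring

theorem a01_ks_ge (n : ℕ) : 1 ≤ ks n := by
  unfold ks
  have h : ∀ p ∈ n.primeFactors, (1 : ℝ) ≤ 1 + 1 / Real.sqrt p := by
    intro p _
    have : 0 ≤ 1 / Real.sqrt p := by positivity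
    linarith
  calc (1 : ℝ) = ∏ p ∈ n.primeFactors, (1 : ℝ) := by rw [prod_const_one]
    _ ≤ _ := prod_le_prod (fun _ _ => zero_le_one) h

end Pool.Agent.FGA
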