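import Mathlib

set_option autoImplicit false
set_option exponentiation.threshold 5000

namespace Pool.Agent.FGA

theorem a19_sqrt_add {a b : ℝ} (ha : 0 ≤ a) (hb : 0 ≤ b) :
    Real.sqrt (a + b) ≤ Real.sqrt a + Real.sqrt b := by
  rw [Real.sqrt_le_left (by positivity)]
  have h1 := Real.sq_sqrt ha
  have h2 := Real.sq_sqrt hb
  have h3 := Real.sqrt_nonneg a
  have h4 := Real.sqrt_nonneg b
  nlinarith [mul_nonneg h3 h4]

set_option maxHeartbeats 1000000 in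
theorem a19_num {N Y L κ E0 EE η C02 C03 C04 C06 C07 C7b C16 C17 Ck Rr S1 SF SP tot : ℝ}
    (hκ : 1 ≤ κ) (hL : 1 ≤ L) (hLκ : L ≤ κ ^ 4) (hY : 0 < Y) (hN : 0 < N) (hNY : N ≤ Y * κ ^ 25)
    (hE0 : 0 ≤ E0) (hE1 : E0 ≤ 1) (hEE0 : 0 ≤ EE) (hEE : EE ≤ C03 * N * (E0 + 1 / κ ^ 200))
    (hη : 0 < η) (hRr : 0 < Rr) (hR : N * L ^ 7 ≤ Rr * Y)
    (hC02 : 0 < C02) (hC03 : 0 < C03) (hC04 : 0 < C04) (hC06 : 0 < C06) (hC07 : 0 < C07)
    (hC7b : 0 < C7b) (hC16 : 0 < C16) (hC17 : 0 < C17) (hCk : 0 < Ck)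
    (hS1 : S1 ≤ C04 * (N ^ 2 / κ ^ 200) * (1 + L) ^ 7 * Real.sqrt (N / Y) +
      3 * Y * (C07 * N / κ ^ 400 + C16 * L * Real.sqrt (N * EE) + η / 12 * N) +
      η / (16 * Ck) * N * (Ck * (4 * Y)) + 3 * Y * (C06 * (N ^ 2 / Y) / κ ^ 2000) +
      N ^ 2 / Y * (C17 * Y / Rr))
    (hSP0 : 0 ≤ SP) (hSF0 : 0 ≤ SF)
    (hSP : SP ≤ 3 * C02 * Y * ((2 + C16) * N * L)) (hSF : SF ≤ 3 * C02 * Y * (C7b * L * EE))
    (htot : tot ≤ S1 + (2 * Real.sqrt (SP * SF) + SF))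
    (hκ0 : 4 * (128 * C04 + 3 * C07 + 3 * C06 + (3 * C16 * Real.sqrt C03 +
      6 * C02 * Real.sqrt ((2 + C16) * (C7b * C03)) + 3 * C02 * (C7b * C03))) ≤ η * κ)
    (hL0 : 4 * C17 ≤ η * L) :
    tot ≤ ((3 * C16 * Real.sqrt C03 + 6 * C02 * Real.sqrt ((2 + C16) * (C7b * C03)) +
      3 * C02 * (C7b * C03)) * Real.sqrt E0 * L + η) * N * Y := by
  have hL00 : 0 < L := by linarith
  have hκp : 0 < κ := by linarith
  set W : ℝ := N * Y with hW
  have hW0 : 0 < W := by positivity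
  set e : ℝ := Real.sqrt E0 with he
  have he0 : 0 ≤ e := Real.sqrt_nonneg _
  have he2 : e ^ 2 = E0 := Real.sq_sqrt hE0
  have he1 : e ≤ 1 := by
    rw [he]
    exact Real.sqrt_le_iff.mpr ⟨by norm_num, by simpa using hE1⟩
  have hE0e : E0 ≤ e := by nlinarith
  have hpow : ∀ m n : ℕ, m ≤ n → κ ^ m ≤ κ ^ n := fun m n h => pow_le_pow_right₀ hκ h
  have hdiv : ∀ j : ℕ, 1 ≤ j → W / κ ^ j ≤ W / κ := by
    intro j hj
    have := hpow 1 j hj
    rw [pow_one] at this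
    gcongr
  set ε : ℝ := e + 1 / κ ^ 100 with hε
  have hε0 : 0 ≤ ε := by positivity
  -- `W L ε ≤ W L e + W / κ`
  have hLε : W * (L * ε) ≤ W * (L * e) + W / κ := by
    have h1 : L * (1 / κ ^ 100) ≤ 1 / κ := by
      rw [mul_one_div, div_le_div_iff₀ (by positivity) hκp]
      calc L * κ ≤ κ ^ 4 * κ := by gcongr
        _ = κ ^ 5 := by ring
        _ ≤ κ ^ 100 := hpow 5 100 (by norm_num)
        _ = 1 * κ ^ 100 := (one_mul _).symm
    calc W * (L * ε) = W * (L * e) + W * (L * (1 / κ ^ 100)) := by rw [hε]; ring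
      _ ≤ W * (L * e) + W * (1 / κ) := by gcongr
      _ = _ := by ring
  have hsq : Real.sqrt (E0 + 1 / κ ^ 200) ≤ ε := by
    refine (a19_sqrt_add hE0 (by positivity)).trans ?_
    rw [← he]
    have : Real.sqrt (1 / κ ^ 200) = 1 / κ ^ 100 := by
      have h1 : 1 / κ ^ 200 = (1 / κ ^ 100) ^ 2 := by
        rw [div_pow, one_pow]
        congr 1
        rw [← pow_mul]
      rw [h1, Real.sqrt_sq (by positivity)]
    rw [this]
  have hEε : E0 + 1 / κ ^ 200 ≤ ε := by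
    have h1 : 1 / κ ^ 200 ≤ 1 / κ ^ 100 := by
      have := hpow 100 200 (by norm_num)
      gcongr
    rw [hε]
    linarith
  -- term A04
  have t1 : C04 * (N ^ 2 / κ ^ 200) * (1 + L) ^ 7 * Real.sqrt (N / Y) ≤ 128 * C04 * (W / κ) := by
    have h1 : (1 + L) ^ 7 ≤ 128 * κ ^ 28 := by
      have h11 : 1 + L ≤ 2 * κ ^ 4 := by
        have : (1 : ℝ) ≤ κ ^ 4 := one_le_pow₀ hκ
        linarith
      calc (1 + L) ^ 7 ≤ (2 * κ ^ 4) ^ 7 := by gcongr
        _ = 128 * κ ^ 28 := by ring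
    have h2 : N ^ 2 ≤ W * κ ^ 25 := by
      calc N ^ 2 = N * N := by ring
        _ ≤ N * (Y * κ ^ 25) := by gcongr
        _ = _ := by rw [hW]; ring
    have h3 : Real.sqrt (N / Y) ≤ κ ^ 13 := by
      rw [Real.sqrt_le_left (by positivity)]
      rw [div_le_iff₀ hY]
      calc N ≤ Y * κ ^ 25 := hNY
        _ ≤ Y * κ ^ 26 := by
            have := hpow 25 26 (by norm_num)
            gcongr
        _ = (κ ^ 13) ^ 2 * Y := by ring
    calc C04 * (N ^ 2 / κ ^ 200) * (1 + L) ^ 7 * Real.sqrt (N / Y) ≤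
        C04 * (W * κ ^ 25 / κ ^ 200) * (128 * κ ^ 28) * κ ^ 13 := by gcongr
      _ = 128 * C04 * (W / κ ^ 134) := by field_simp
      _ ≤ 128 * C04 * (W / κ) := by
          have := hdiv 134 (by norm_num)
          gcongr
  have t2 : 3 * Y * (C07 * N / κ ^ 400) ≤ 3 * C07 * (W / κ) := by
    calc 3 * Y * (C07 * N / κ ^ 400) = 3 * C07 * (W / κ ^ 400) := by rw [hW]; ring
      _ ≤ _ := by
          have := hdiv 400 (by norm_num)
          gcongr
  have t3 : 3 * Y * (C16 * L * Real.sqrt (N * EE)) ≤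
      3 * C16 * Real.sqrt C03 * (W * (L * ε)) := by
    have h1 : Real.sqrt (N * EE) ≤ Real.sqrt C03 * (N * ε) := by
      have h2 : N * EE ≤ C03 * (N ^ 2 * (E0 + 1 / κ ^ 200)) := by
        calc N * EE ≤ N * (C03 * N * (E0 + 1 / κ ^ 200)) := by gcongr
          _ = _ := by ring
      calc Real.sqrt (N * EE) ≤ Real.sqrt (C03 * (N ^ 2 * (E0 + 1 / κ ^ 200))) :=
            Real.sqrt_le_sqrt h2
        _ = Real.sqrt C03 * (N * Real.sqrt (E0 + 1 / κ ^ 200)) := by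
            rw [Real.sqrt_mul hC03.le, Real.sqrt_mul (sq_nonneg N), Real.sqrt_sq hN.le]
        _ ≤ _ := by gcongr
    calc 3 * Y * (C16 * L * Real.sqrt (N * EE)) ≤
        3 * Y * (C16 * L * (Real.sqrt C03 * (N * ε))) := by gcongr
      _ = _ := by rw [hW]; ring
  have t4 : 3 * Y * (η / 12 * N) = η / 4 * W := by rw [hW]; ring
  have t5 : η / (16 * Ck) * N * (Ck * (4 * Y)) = η / 4 * W := by
    rw [hW]
    field_simp
    ring
  have t6 : 3 * Y * (C06 * (N ^ 2 / Y) / κ ^ 2000) ≤ 3 * C06 * (W / κ) := by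
    have h2 : N ^ 2 / Y ≤ N * κ ^ 25 := by
      rw [div_le_iff₀ hY]
      calc N ^ 2 = N * N := by ring
        _ ≤ N * (Y * κ ^ 25) := by gcongr
        _ = _ := by ring
    calc 3 * Y * (C06 * (N ^ 2 / Y) / κ ^ 2000) ≤ 3 * Y * (C06 * (N * κ ^ 25) / κ ^ 2000) := by
          gcongr
      _ = 3 * C06 * (W / κ ^ 1975) := by
          rw [hW]
          field_simp
      _ ≤ _ := by
          have := hdiv 1975 (by norm_num)
          gcongr
  have t7 : N ^ 2 / Y * (C17 * Y / Rr) ≤ η / 4 * W := by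
    have h1 : N / Rr ≤ Y / L ^ 7 := by
      rw [div_le_div_iff₀ hRr (by positivity)]
      linarith
    have h2 : C17 / L ^ 7 ≤ η / 4 := by
      rw [div_le_iff₀ (by positivity)]
      have h3 : L ≤ L ^ 7 := by
        calc L = L ^ 1 := (pow_one L).symm
          _ ≤ L ^ 7 := pow_le_pow_right₀ hL (by norm_num)
      nlinarith
    calc N ^ 2 / Y * (C17 * Y / Rr) = C17 * N * (N / Rr) := by field_simp
      _ ≤ C17 * N * (Y / L ^ 7) := by gcongr
      _ = W * (C17 / L ^ 7) := by rw [hW]; ring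
      _ ≤ W * (η / 4) := by gcongr
      _ = _ := by ring
  -- `S1`
  have hs3 : 0 ≤ Real.sqrt C03 := Real.sqrt_nonneg _
  have hS1' : S1 ≤ (128 * C04 + 3 * C07 + 3 * C06) * (W / κ) +
      3 * C16 * Real.sqrt C03 * (W * (L * ε)) + 3 * (η / 4 * W) := by
    have h1 : 3 * Y * (C07 * N / κ ^ 400 + C16 * L * Real.sqrt (N * EE) + η / 12 * N) =
        3 * Y * (C07 * N / κ ^ 400) + 3 * Y * (C16 * L * Real.sqrt (N * EE)) +
        3 * Y * (η / 12 * N) := by ring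
    rw [h1, t4, t5] at hS1
    linarith
  -- `SF`
  have hSF' : SF ≤ 3 * C02 * (C7b * C03) * (W * (L * (E0 + 1 / κ ^ 200))) := by
    calc SF ≤ 3 * C02 * Y * (C7b * L * EE) := hSF
      _ ≤ 3 * C02 * Y * (C7b * L * (C03 * N * (E0 + 1 / κ ^ 200))) := by gcongr
      _ = _ := by rw [hW]; ring
  have hSF2 : SF ≤ 3 * C02 * (C7b * C03) * (W * (L * ε)) := by
    refine hSF'.trans ?_
    gcongr
  set s4 : ℝ := Real.sqrt ((2 + C16) * (C7b * C03)) with hs4
  have hs40 : 0 ≤ s4 := Real.sqrt_nonneg _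
  have hprod : Real.sqrt (SP * SF) ≤ 3 * C02 * s4 * (W * (L * ε)) := by
    have h1 : SP * SF ≤ (3 * C02) ^ 2 * (((2 + C16) * (C7b * C03)) *
        ((W * L) ^ 2 * (E0 + 1 / κ ^ 200))) := by
      calc SP * SF ≤ (3 * C02 * Y * ((2 + C16) * N * L)) *
          (3 * C02 * (C7b * C03) * (W * (L * (E0 + 1 / κ ^ 200)))) := by gcongr
        _ = _ := by rw [hW]; ring
    calc Real.sqrt (SP * SF) ≤ Real.sqrt ((3 * C02) ^ 2 * (((2 + C16) * (C7b * C03)) *
        ((W * L) ^ 2 * (E0 + 1 / κ ^ 200)))) := Real.sqrt_le_sqrt h1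
      _ = 3 * C02 * (s4 * (W * L * Real.sqrt (E0 + 1 / κ ^ 200))) := by
          rw [Real.sqrt_mul (sq_nonneg _), Real.sqrt_sq (by positivity),
            Real.sqrt_mul (by positivity), Real.sqrt_mul (sq_nonneg _),
            Real.sqrt_sq (by positivity)]
      _ ≤ 3 * C02 * (s4 * (W * L * ε)) := by gcongr
      _ = _ := by ring
  set Cf : ℝ := 3 * C16 * Real.sqrt C03 + 6 * C02 * s4 + 3 * C02 * (C7b * C03) with hCf
  have hCf0 : 0 ≤ Cf := by positivity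
  have h1 : tot ≤ (128 * C04 + 3 * C07 + 3 * C06) * (W / κ) + Cf * (W * (L * ε)) +
      3 * (η / 4 * W) := by
    rw [hCf]
    linarith
  have h2 : Cf * (W * (L * ε)) ≤ Cf * (W * (L * e) + W / κ) := by gcongr
  have h3 : (128 * C04 + 3 * C07 + 3 * C06 + Cf) * (W / κ) ≤ η / 4 * W := by
    rw [mul_div_assoc', div_le_iff₀ hκp]
    have h4 : (128 * C04 + 3 * C07 + 3 * C06 + Cf) * 4 ≤ η * κ := by linarith
    have h6 := mul_le_mul_of_nonneg_left h4 hW0.le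
    calc (128 * C04 + 3 * C07 + 3 * C06 + Cf) * W =
        W * ((128 * C04 + 3 * C07 + 3 * C06 + Cf) * 4) / 4 := by ring
      _ ≤ W * (η * κ) / 4 := by gcongr
      _ = _ := by ring
  have h5 : (Cf * e * L + η) * N * Y = Cf * (W * (L * e)) + η * W := by
    rw [hW]
    ring
  rw [h5]
  linarith

end Pool.Agent.FGA
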