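import Pool.Agent.Lib_helper99.FGA.A19n

set_option autoImplicit false
set_option exponentiation.threshold 5000

namespace Pool.Agent.FGA

set_option maxHeartbeats 1000000 in
theorem a19e_num {N Y L κ E0 EE θ C02 C03 C04 C06 C07 C7b C15 C16 C17 Ck Cw Cp Rr S1 SF SP tot : ℝ}
    (hκ : 1 ≤ κ) (hL : 1 ≤ L) (hLκ : L ≤ κ ^ 4) (hY : 0 < Y) (hN : 0 < N) (hNY : N ≤ Y * κ ^ 25)
    (hE0 : 0 ≤ E0) (hEE : EE ≤ C03 * N * (E0 + 1 / κ ^ 200)) (hE1 : E0 ≤ 1)
    (hθ : 0 ≤ θ) (hRr : 0 < Rr) (hR : N * L ^ 7 ≤ Rr * Y)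
    (hC02 : 0 < C02) (hC03 : 0 < C03) (hC04 : 0 < C04) (hC06 : 0 < C06) (hC07 : 0 < C07)
    (hC7b : 0 < C7b) (hC15 : 0 < C15) (hC16 : 0 < C16) (hC17 : 0 < C17) (hCk : 0 < Ck)
    (hCw : 0 < Cw) (hCp : 0 < Cp)
    (hS1 : S1 ≤ C04 * (N ^ 2 / κ ^ 200) * (1 + L) ^ 7 * Real.sqrt (N / Y) +
      3 * Y * (C07 * N / κ ^ 400 + C16 * L * Real.sqrt (N * EE) +
        Cw * L * (Real.sqrt (N * EE) + N / κ ^ 400)) +
      C15 * N * (2 * θ) * (Ck * (4 * Y)) + 3 * Y * (C06 * (N ^ 2 / Y) / κ ^ 2000) +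
      N ^ 2 / Y * (C17 * Y / Rr))
    (hSF0 : 0 ≤ SF) (hSP : SP ≤ 3 * C02 * Y * (Cp * N * L))
    (hSF : SF ≤ 3 * C02 * Y * (C7b * L * EE)) (htot : tot ≤ S1 + (2 * Real.sqrt (SP * SF) + SF)) :
    tot ≤ (2 * (3 * C16 * Real.sqrt C03 + 3 * Cw * Real.sqrt C03 +
      6 * C02 * Real.sqrt (Cp * (C7b * C03)) + 3 * C02 * (C7b * C03)) +
      8 * C15 * Ck + (128 * C04 + 3 * C07 + 3 * C06 + 3 * Cw + C17)) *
      (Real.sqrt E0 * L + θ + 1 / L) * N * Y := by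
  have hL00 : 0 < L := by linarith
  have hκp : 0 < κ := by linarith
  set W : ℝ := N * Y with hW
  have hW0 : 0 < W := by positivity
  set e : ℝ := Real.sqrt E0 with he
  have he0 : 0 ≤ e := Real.sqrt_nonneg _
  have he2 : e ^ 2 = E0 := Real.sq_sqrt hE0
  have he1 : e ≤ 1 := by
    rw [he]
    exact Real.sqrt_le_iff.mpr ⟨by norm_num, by simpa using hE1⟩
  have hE0e : E0 ≤ e := by nlinarith
  have hpow : ∀ m n : ℕ, m ≤ n → κ ^ m ≤ κ ^ n := fun m n h => pow_le_pow_right₀ hκ h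
  have hdiv : ∀ j : ℕ, 4 ≤ j → W / κ ^ j ≤ W / L := by
    intro j hj
    have h1 : L ≤ κ ^ j := hLκ.trans (hpow 4 j hj)
    gcongr
  set ε : ℝ := e + 1 / κ ^ 100 with hε
  have hε0 : 0 ≤ ε := by positivity
  -- `W L ε ≤ W L e + W / L`
  have hLε : W * (L * ε) ≤ W * (L * e) + W / L := by
    have h1 : L * (1 / κ ^ 100) ≤ 1 / L := by
      rw [mul_one_div, div_le_div_iff₀ (by positivity) hL00]
      calc L * L ≤ κ ^ 4 * κ ^ 4 := by gcongr
        _ = κ ^ 8 := by ring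
        _ ≤ κ ^ 100 := hpow 8 100 (by norm_num)
        _ = 1 * κ ^ 100 := (one_mul _).symm
    calc W * (L * ε) = W * (L * e) + W * (L * (1 / κ ^ 100)) := by rw [hε]; ring
      _ ≤ W * (L * e) + W * (1 / L) := by gcongr
      _ = _ := by ring
  have hsq : Real.sqrt (E0 + 1 / κ ^ 200) ≤ ε := by
    refine (a19_sqrt_add hE0 (by positivity)).trans ?_
    rw [← he]
    have : Real.sqrt (1 / κ ^ 200) = 1 / κ ^ 100 := by
      have h1 : 1 / κ ^ 200 = (1 / κ ^ 100) ^ 2 := by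
        rw [div_pow, one_pow]
        congr 1
        rw [← pow_mul]
      rw [h1, Real.sqrt_sq (by positivity)]
    rw [this]
  have hEε : E0 + 1 / κ ^ 200 ≤ ε := by
    have h1 : 1 / κ ^ 200 ≤ 1 / κ ^ 100 := by
      have := hpow 100 200 (by norm_num)
      gcongr
    rw [hε]
    linarith
  -- term A04
  have t1 : C04 * (N ^ 2 / κ ^ 200) * (1 + L) ^ 7 * Real.sqrt (N / Y) ≤ 128 * C04 * (W / L) := by
    have h1 : (1 + L) ^ 7 ≤ 128 * κ ^ 28 := by
      have h11 : 1 + L ≤ 2 * κ ^ 4 := by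
        have : (1 : ℝ) ≤ κ ^ 4 := one_le_pow₀ hκ
        linarith
      calc (1 + L) ^ 7 ≤ (2 * κ ^ 4) ^ 7 := by gcongr
        _ = 128 * κ ^ 28 := by ring
    have h2 : N ^ 2 ≤ W * κ ^ 25 := by
      calc N ^ 2 = N * N := by ring
        _ ≤ N * (Y * κ ^ 25) := by gcongr
        _ = _ := by rw [hW]; ring
    have h3 : Real.sqrt (N / Y) ≤ κ ^ 13 := by
      rw [Real.sqrt_le_left (by positivity)]
      rw [div_le_iff₀ hY]
      calc N ≤ Y * κ ^ 25 := hNY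
        _ ≤ Y * κ ^ 26 := by
            have := hpow 25 26 (by norm_num)
            gcongr
        _ = (κ ^ 13) ^ 2 * Y := by ring
    calc C04 * (N ^ 2 / κ ^ 200) * (1 + L) ^ 7 * Real.sqrt (N / Y) ≤
        C04 * (W * κ ^ 25 / κ ^ 200) * (128 * κ ^ 28) * κ ^ 13 := by gcongr
      _ = 128 * C04 * (W / κ ^ 134) := by field_simp
      _ ≤ 128 * C04 * (W / L) := by
          have := hdiv 134 (by norm_num)
          gcongr
  have t2 : 3 * Y * (C07 * N / κ ^ 400) ≤ 3 * C07 * (W / L) := by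
    calc 3 * Y * (C07 * N / κ ^ 400) = 3 * C07 * (W / κ ^ 400) := by rw [hW]; ring
      _ ≤ _ := by
          have := hdiv 400 (by norm_num)
          gcongr
  have hsqN : Real.sqrt (N * EE) ≤ Real.sqrt C03 * (N * ε) := by
    have h2 : N * EE ≤ C03 * (N ^ 2 * (E0 + 1 / κ ^ 200)) := by
      calc N * EE ≤ N * (C03 * N * (E0 + 1 / κ ^ 200)) := by gcongr
        _ = _ := by ring
    calc Real.sqrt (N * EE) ≤ Real.sqrt (C03 * (N ^ 2 * (E0 + 1 / κ ^ 200))) :=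
          Real.sqrt_le_sqrt h2
      _ = Real.sqrt C03 * (N * Real.sqrt (E0 + 1 / κ ^ 200)) := by
          rw [Real.sqrt_mul hC03.le, Real.sqrt_mul (sq_nonneg N), Real.sqrt_sq hN.le]
      _ ≤ _ := by gcongr
  have t3 : 3 * Y * (C16 * L * Real.sqrt (N * EE)) ≤
      3 * C16 * Real.sqrt C03 * (W * (L * ε)) := by
    calc 3 * Y * (C16 * L * Real.sqrt (N * EE)) ≤
        3 * Y * (C16 * L * (Real.sqrt C03 * (N * ε))) := by gcongr
      _ = _ := by rw [hW]; ring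
  have t4 : 3 * Y * (Cw * L * (Real.sqrt (N * EE) + N / κ ^ 400)) ≤
      3 * Cw * Real.sqrt C03 * (W * (L * ε)) + 3 * Cw * (W / L) := by
    have h1 : W * L / κ ^ 400 ≤ W / L := by
      rw [div_le_div_iff₀ (by positivity) hL00]
      have h2 : L * L ≤ κ ^ 400 := by
        calc L * L ≤ κ ^ 4 * κ ^ 4 := by gcongr
          _ = κ ^ 8 := by ring
          _ ≤ κ ^ 400 := hpow 8 400 (by norm_num)
      calc W * L * L = W * (L * L) := by ring
        _ ≤ W * κ ^ 400 := by gcongr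
    calc 3 * Y * (Cw * L * (Real.sqrt (N * EE) + N / κ ^ 400)) ≤
        3 * Y * (Cw * L * (Real.sqrt C03 * (N * ε) + N / κ ^ 400)) := by gcongr
      _ = 3 * Cw * Real.sqrt C03 * (W * (L * ε)) + 3 * Cw * (W * L / κ ^ 400) := by
          rw [hW]; ring
      _ ≤ _ := by gcongr
  have t5 : C15 * N * (2 * θ) * (Ck * (4 * Y)) = 8 * C15 * Ck * (W * θ) := by
    rw [hW]
    ring
  have t6 : 3 * Y * (C06 * (N ^ 2 / Y) / κ ^ 2000) ≤ 3 * C06 * (W / L) := by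
    have h2 : N ^ 2 / Y ≤ N * κ ^ 25 := by
      rw [div_le_iff₀ hY]
      calc N ^ 2 = N * N := by ring
        _ ≤ N * (Y * κ ^ 25) := by gcongr
        _ = _ := by ring
    calc 3 * Y * (C06 * (N ^ 2 / Y) / κ ^ 2000) ≤ 3 * Y * (C06 * (N * κ ^ 25) / κ ^ 2000) := by
          gcongr
      _ = 3 * C06 * (W / κ ^ 1975) := by
          rw [hW]
          field_simp
      _ ≤ _ := by
          have := hdiv 1975 (by norm_num)
          gcongr
  have t7 : N ^ 2 / Y * (C17 * Y / Rr) ≤ C17 * (W / L) := by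
    have h1 : N / Rr ≤ Y / L := by
      rw [div_le_div_iff₀ hRr hL00]
      have h3 : L ≤ L ^ 7 := by
        calc L = L ^ 1 := (pow_one L).symm
          _ ≤ L ^ 7 := pow_le_pow_right₀ hL (by norm_num)
      nlinarith
    calc N ^ 2 / Y * (C17 * Y / Rr) = C17 * N * (N / Rr) := by field_simp
      _ ≤ C17 * N * (Y / L) := by gcongr
      _ = _ := by rw [hW]; ring
  -- `S1`
  have hs3 : 0 ≤ Real.sqrt C03 := Real.sqrt_nonneg _
  have hS1' : S1 ≤ (128 * C04 + 3 * C07 + 3 * C06 + 3 * Cw + C17) * (W / L) +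
      (3 * C16 * Real.sqrt C03 + 3 * Cw * Real.sqrt C03) * (W * (L * ε)) +
      8 * C15 * Ck * (W * θ) := by
    have h1 : 3 * Y * (C07 * N / κ ^ 400 + C16 * L * Real.sqrt (N * EE) +
        Cw * L * (Real.sqrt (N * EE) + N / κ ^ 400)) =
        3 * Y * (C07 * N / κ ^ 400) + 3 * Y * (C16 * L * Real.sqrt (N * EE)) +
        3 * Y * (Cw * L * (Real.sqrt (N * EE) + N / κ ^ 400)) := by ring
    rw [h1, t5] at hS1
    linarith
  -- `SF`
  have hSF' : SF ≤ 3 * C02 * (C7b * C03) * (W * (L * (E0 + 1 / κ ^ 200))) := by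
    calc SF ≤ 3 * C02 * Y * (C7b * L * EE) := hSF
      _ ≤ 3 * C02 * Y * (C7b * L * (C03 * N * (E0 + 1 / κ ^ 200))) := by gcongr
      _ = _ := by rw [hW]; ring
  have hSF2 : SF ≤ 3 * C02 * (C7b * C03) * (W * (L * ε)) := by
    refine hSF'.trans ?_
    gcongr
  set s4 : ℝ := Real.sqrt (Cp * (C7b * C03)) with hs4
  have hs40 : 0 ≤ s4 := Real.sqrt_nonneg _
  have hprod : Real.sqrt (SP * SF) ≤ 3 * C02 * s4 * (W * (L * ε)) := by
    have h1 : SP * SF ≤ (3 * C02) ^ 2 * ((Cp * (C7b * C03)) *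
        ((W * L) ^ 2 * (E0 + 1 / κ ^ 200))) := by
      calc SP * SF ≤ (3 * C02 * Y * (Cp * N * L)) *
          (3 * C02 * (C7b * C03) * (W * (L * (E0 + 1 / κ ^ 200)))) := by gcongr
        _ = _ := by rw [hW]; ring
    calc Real.sqrt (SP * SF) ≤ Real.sqrt ((3 * C02) ^ 2 * ((Cp * (C7b * C03)) *
        ((W * L) ^ 2 * (E0 + 1 / κ ^ 200)))) := Real.sqrt_le_sqrt h1
      _ = 3 * C02 * (s4 * (W * L * Real.sqrt (E0 + 1 / κ ^ 200))) := by
          rw [Real.sqrt_mul (sq_nonneg _), Real.sqrt_sq (by positivity),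
            Real.sqrt_mul (by positivity), Real.sqrt_mul (sq_nonneg _),
            Real.sqrt_sq (by positivity)]
      _ ≤ 3 * C02 * (s4 * (W * L * ε)) := by gcongr
      _ = _ := by ring
  set Cf : ℝ := 3 * C16 * Real.sqrt C03 + 3 * Cw * Real.sqrt C03 + 6 * C02 * s4 +
    3 * C02 * (C7b * C03) with hCf
  have hCf0 : 0 ≤ Cf := by positivity
  set Cg : ℝ := 128 * C04 + 3 * C07 + 3 * C06 + 3 * Cw + C17 with hCg
  have hCg0 : 0 ≤ Cg := by positivity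
  have h1 : tot ≤ Cg * (W / L) + Cf * (W * (L * ε)) + 8 * C15 * Ck * (W * θ) := by
    rw [hCf]
    linarith
  have h2 : Cf * (W * (L * ε)) ≤ Cf * (W * (L * e) + W / L) := by gcongr
  have h3 : 0 ≤ W / L := by positivity
  have h4 : 0 ≤ W * θ := by positivity
  have h5 : 0 ≤ W * (L * e) := by positivity
  have h6 : 0 ≤ 8 * C15 * Ck := by positivity
  have h7 : (2 * Cf + 8 * C15 * Ck + Cg) * (e * L + θ + 1 / L) * N * Y =
      (2 * Cf + 8 * C15 * Ck + Cg) * (W * (L * e)) + (2 * Cf + 8 * C15 * Ck + Cg) * (W * θ) +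
      (2 * Cf + 8 * C15 * Ck + Cg) * (W / L) := by
    rw [hW]
    ring
  rw [h7]
  have k1 : Cf * (W * (L * e)) ≤ (2 * Cf + 8 * C15 * Ck + Cg) * (W * (L * e)) :=
    mul_le_mul_of_nonneg_right (by linarith) h5
  have k2 : 8 * C15 * Ck * (W * θ) ≤ (2 * Cf + 8 * C15 * Ck + Cg) * (W * θ) :=
    mul_le_mul_of_nonneg_right (by linarith) h4
  have k3 : (Cf + Cg) * (W / L) ≤ (2 * Cf + 8 * C15 * Ck + Cg) * (W / L) :=
    mul_le_mul_of_nonneg_right (by linarith) h3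
  have k4 : Cf * (W * (L * e) + W / L) = Cf * (W * (L * e)) + Cf * (W / L) := mul_add _ _ _
  have k5 : (Cf + Cg) * (W / L) = Cf * (W / L) + Cg * (W / L) := add_mul _ _ _
  linarith

end Pool.Agent.FGA
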