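import Pool.Agent.Lib_helper99.FGA.WantedE
import Pool.Agent.Lib_helper99.FGA.A19
import Pool.Agent.Lib_helper99.FGA.A19En

set_option autoImplicit false
set_option exponentiation.threshold 5000

namespace Pool.Agent.FGA

open Finset Pool.Agent.Var35 Pool.Agent.Var73 Pool.Agent.PV Pool.Agent.FGP
open scoped ArithmeticFunction ArithmeticFunction.Moebius

set_option maxHeartbeats 1000000 in
/-- the estimate for one value of the parameters -/
theorem a19e_one {C02 C03 C04 C06 C07 C7b C15 C16 C17 Ck Cw e0 : ℝ} {N K Y M R : ℕ}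
    (hC02 : 0 < C02) (hC03 : 0 < C03) (hC04 : 0 < C04) (hC06 : 0 < C06) (hC07 : 0 < C07)
    (hC7b : 0 < C7b) (hC15 : 0 < C15) (hC16 : 0 < C16) (hC17 : 0 < C17) (hCk : 0 < Ck)
    (hCw : 0 < Cw) (he0 : 0 ≤ e0) (he1 : e0 ≤ 1) (hR : Rg K N) (hRY : RY K N Y)
    (hM : Good (2 * N) M) (hRL : N * Real.log N ^ 7 ≤ (R : ℝ) * Y)
    (hEE : EE N K ≤ C03 * N * (e0 + 1 / Real.sqrt K)) (hEEN : EE N K ≤ N) (hN3 : 100 ≤ N)
    (h10 : 4 * (Mw N K : ℤ) + 1 ≤ N ∧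
      TP (1 - 2 * (Mw N K : ℤ)) (N + 2 * (Mw N K : ℤ)) (fh N K) ∧
      TP (1 - 2 * (Mw N K : ℤ)) (N + 2 * (Mw N K : ℤ)) (gh N K) ∧
      TP (1 - 2 * (Mw N K : ℤ)) (N + 2 * (Mw N K : ℤ)) (Fh N K))
    (h20 : W20)
    (h7b : ms M (Fh N K) ≤ C7b * Real.log N * EE N K)
    (h02 : ∀ (N' M Y R : ℕ) (A B : ℤ) (P : ℝ → ℂ), TP A B P →
      B - A ≤ N' → N' < M → 1 ≤ Y → 1 ≤ R → 1 ≤ N' →
      ∑ Q ∈ MQ Y, VP P Q R ≤ C02 * ((Y : ℝ) + N' / R) * ms M P)
    (h04 : ∑ Q ∈ MQ Y, |(VA (fun t => fh N K t + gh N K t) Q - VA (gh N K) Q) -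
      (ms M (fun t => fh N K t + gh N K t) - ms M (gh N K))| ≤
        C04 * ((N : ℝ) ^ 2 / Real.sqrt K) * (1 + Real.log N) ^ 7 * Real.sqrt ((N : ℝ) / Y))
    (h06 : ∀ Q : ℕ, 1 ≤ Q → |VM (fun t => fh N K t + gh N K t) Q R - (N : ℝ) ^ 2 / Q * TL Q R| ≤
      C06 * ((N : ℝ) ^ 2 / Q) / (K : ℝ) ^ 5)
    (h07 : ∀ Q ∈ MQ Y, |VA (gh N K) Q - ms M (gh N K) -
      2 * ∑ k ∈ Icc 1 (N / Q), SK K (k * Q) * ((N : ℝ) - k * Q)| ≤ C07 * N / K)
    (h16 : |ms M (fun t => fh N K t + gh N K t) - A2 N| ≤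
      C16 * Real.log N * Real.sqrt (N * EE N K))
    (h15 : |A2 N - (N * Real.log N - N)| ≤ Cw * Real.log N * (Real.sqrt (N * EE N K) + N / K))
    (hA15 : ∀ Q ∈ MQ Y, |2 * ∑ k ∈ Icc 1 (N / Q), SK K (k * Q) * ((N : ℝ) - k * Q) -
      ((N : ℝ) ^ 2 / Nat.totient Q - N * (Real.log ((N : ℝ) / Q) + HC.CQ Q - 1))| ≤
      C15 * N * ((Q : ℝ) / N) ^ (1 / 4 : ℝ) * ks Q ^ 4)
    (hk : ∑ Q ∈ Icc 1 (4 * Y), ks Q ^ 8 ≤ Ck * ((4 * Y : ℕ) : ℝ))
    (h17 : ∑ Q ∈ MQ Y, |TL Q R - (Q / Nat.totient Q : ℝ)| ≤ C17 * Y / R) :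
    ∑ Q ∈ MQ Y, |VP (Ps N) Q R - N * (Real.log Q - HC.CQ Q)| ≤
      (2 * (3 * C16 * Real.sqrt C03 + 3 * Cw * Real.sqrt C03 +
      6 * C02 * Real.sqrt ((1 + 2 * Cw + C16) * (C7b * C03)) + 3 * C02 * (C7b * C03)) +
      8 * C15 * Ck + (128 * C04 + 3 * C07 + 3 * C06 + 3 * Cw + C17)) *
      (Real.sqrt e0 * Real.log N + ((Y : ℝ) / N) ^ (1 / 4 : ℝ) + 1 / Real.log N) * N * Y := by
  have hK10 : 10 ≤ K := hR.hK
  obtain ⟨κ, hκ1, hκK⟩ := a19_kappa (K := K) (by omega)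
  have hκp : 0 < κ := by linarith
  have hNR : (100 : ℝ) ≤ N := by exact_mod_cast hN3
  have hN0 : (0 : ℝ) < N := by linarith
  have hY1 : 1 ≤ Y := hRY.hY1
  have hYR : (1 : ℝ) ≤ Y := by exact_mod_cast hY1
  have hL1 : 1 ≤ Real.log N := by
    rw [Real.le_log_iff_exp_le hN0]
    have := Real.exp_one_lt_d9
    linarith
  have hL00 : 0 < Real.log N := by linarith
  have hsK : Real.sqrt K = κ ^ 200 := by
    rw [← hκK]
    have : κ ^ 400 = (κ ^ 200) ^ 2 := by rw [← pow_mul]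
    rw [this, Real.sqrt_sq (by positivity)]
  have hLκ : Real.log N ≤ κ ^ 4 := by
    have h1 := hR.hL
    rw [← hκK] at h1
    have h2 : κ ^ 400 = (κ ^ 4) ^ 100 := by rw [← pow_mul]
    rw [h2] at h1
    exact le_of_pow_le_pow_left₀ (by norm_num) (by positivity) h1
  have hNYκ : (N : ℝ) ≤ Y * κ ^ 25 := by
    have h1 : ((N : ℝ)) ^ 16 ≤ (Y : ℝ) ^ 16 * K := by exact_mod_cast hRY.hY
    rw [← hκK] at h1
    have h2 : (Y : ℝ) ^ 16 * κ ^ 400 = (Y * κ ^ 25) ^ 16 := by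
      rw [mul_pow, ← pow_mul]
    rw [h2] at h1
    exact le_of_pow_le_pow_left₀ (by norm_num) (by positivity) h1
  have hEE0 : 0 ≤ EE N K := by
    unfold EE En
    positivity
  have hK5 : (K : ℝ) ^ 5 = κ ^ 2000 := by
    rw [← hκK, ← pow_mul]
  have hKκ : (K : ℝ) = κ ^ 400 := hκK.symm
  -- `R`
  have hR0 : 0 < (R : ℝ) := by
    by_contra hc
    push Not at hc
    have h1 : 0 < (N : ℝ) * Real.log N ^ 7 := by positivity
    have h2 : (R : ℝ) * Y ≤ 0 := mul_nonpos_of_nonpos_of_nonneg hc (by linarith)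
    linarith
  have hR1 : 1 ≤ R := by
    have : 0 < R := by exact_mod_cast hR0
    omega
  have hNR' : (N : ℝ) / R ≤ Y := by
    rw [div_le_iff₀ hR0]
    have h1 : (1 : ℝ) ≤ Real.log N ^ 7 := one_le_pow₀ hL1
    nlinarith
  -- pointwise
  set P : ℝ → ℂ := fun t => fh N K t + gh N K t with hP
  set a1 : ℕ → ℝ := fun Q => |(VA P Q - VA (gh N K) Q) - (ms M P - ms M (gh N K))| with ha1
  set B : ℝ := C07 * N / κ ^ 400 + C16 * Real.log N * Real.sqrt (N * EE N K) +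
    Cw * Real.log N * (Real.sqrt (N * EE N K) + N / κ ^ 400) with hB
  set θ : ℝ := ((Y : ℝ) / N) ^ (1 / 4 : ℝ) with hθ
  have hθ0 : 0 ≤ θ := by positivity
  have hpt : ∀ Q ∈ MQ Y, |VP P Q R - N * (Real.log Q - HC.CQ Q)| ≤ a1 Q + B +
      C15 * N * (2 * θ) * ks Q ^ 4 + C06 * ((N : ℝ) ^ 2 / Y) / κ ^ 2000 +
      (N : ℝ) ^ 2 / Y * |TL Q R - (Q / Nat.totient Q : ℝ)| := by
    intro Q hQ
    have hQ' := hQ
    unfold MQ at hQ'
    rw [mem_Ioc] at hQ'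
    have hQ1 : 1 ≤ Q := by omega
    have hQY : (Y : ℝ) ≤ Q := by exact_mod_cast hQ'.1.le
    have hQ0 : (0 : ℝ) < Q := by linarith
    have h6 : |(N : ℝ) ^ 2 / Q * TL Q R - (N : ℝ) ^ 2 / Nat.totient Q| ≤
        (N : ℝ) ^ 2 / Y * |TL Q R - (Q / Nat.totient Q : ℝ)| := by
      have h61 : (N : ℝ) ^ 2 / Q * TL Q R - (N : ℝ) ^ 2 / Nat.totient Q =
          (N : ℝ) ^ 2 / Q * (TL Q R - (Q / Nat.totient Q : ℝ)) := by
        field_simp
      rw [h61, abs_mul, abs_of_nonneg (by positivity)]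
      gcongr
    have h1 := a19_pt N K M Q R (by omega) hQ1 P (a1 Q) _ _ _ _ _ _ le_rfl (h07 Q hQ) h16 h15
      (hA15 Q hQ) (h06 Q hQ1) h6
    refine h1.trans ?_
    have h2 : C06 * ((N : ℝ) ^ 2 / Q) / (K : ℝ) ^ 5 ≤ C06 * ((N : ℝ) ^ 2 / Y) / κ ^ 2000 := by
      rw [hK5]
      gcongr
    have h3 : C15 * N * ((Q : ℝ) / N) ^ (1 / 4 : ℝ) * ks Q ^ 4 ≤
        C15 * N * (2 * θ) * ks Q ^ 4 := by
      have h31 : ((Q : ℝ) / N) ^ (1 / 4 : ℝ) ≤ 2 * θ := by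
        have h32 : (Q : ℝ) ≤ 4 * Y := by exact_mod_cast hQ'.2
        have h33 : ((Q : ℝ) / N) ^ (1 / 4 : ℝ) ≤ (16 * ((Y : ℝ) / N)) ^ (1 / 4 : ℝ) := by
          apply Real.rpow_le_rpow (by positivity) _ (by norm_num)
          rw [mul_div_assoc']
          gcongr
          linarith
        refine h33.trans (le_of_eq ?_)
        rw [Real.mul_rpow (by norm_num) (by positivity), hθ]
        congr 1
        rw [show (16 : ℝ) = 2 ^ (4 : ℕ) by norm_num, ← Real.rpow_natCast, ← Real.rpow_mul (by norm_num)]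
        norm_num
      have := a01_ks_ge Q
      gcongr
    rw [hKκ] at h2 ⊢
    rw [hB]
    linarith
  have hB0 : 0 ≤ B := by positivity
  have hks : ∑ Q ∈ MQ Y, ks Q ^ 4 ≤ Ck * (4 * Y) := by
    calc ∑ Q ∈ MQ Y, ks Q ^ 4 ≤ ∑ Q ∈ MQ Y, ks Q ^ 8 :=
          sum_le_sum fun Q _ => pow_le_pow_right₀ (a01_ks_ge Q) (by norm_num)
      _ ≤ ∑ Q ∈ Icc 1 (4 * Y), ks Q ^ 8 := by
          apply sum_le_sum_of_subset_of_nonneg
          · intro Q hQ
            unfold MQ at hQ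
            rw [mem_Ioc] at hQ
            rw [mem_Icc]
            omega
          · intro Q _ _
            have := a01_ks_ge Q
            positivity
      _ ≤ _ := by
          refine hk.trans (le_of_eq ?_)
          push_cast
          ring
  have hS1 : ∑ Q ∈ MQ Y, |VP P Q R - N * (Real.log Q - HC.CQ Q)| ≤
      C04 * ((N : ℝ) ^ 2 / κ ^ 200) * (1 + Real.log N) ^ 7 * Real.sqrt ((N : ℝ) / Y) +
      3 * Y * (C07 * N / κ ^ 400 + C16 * Real.log N * Real.sqrt (N * EE N K) +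
        Cw * Real.log N * (Real.sqrt (N * EE N K) + N / κ ^ 400)) +
      C15 * N * (2 * θ) * (Ck * (4 * Y)) + 3 * Y * (C06 * ((N : ℝ) ^ 2 / Y) / κ ^ 2000) +
      (N : ℝ) ^ 2 / Y * (C17 * Y / R) := by
    refine (sum_le_sum hpt).trans ?_
    rw [sum_add_distrib, sum_add_distrib, sum_add_distrib, sum_add_distrib, sum_const, sum_const,
      ← mul_sum, ← mul_sum, nsmul_eq_mul, nsmul_eq_mul, a01_card Y]
    rw [hsK] at h04
    have e1 : C15 * N * (2 * θ) * ∑ Q ∈ MQ Y, ks Q ^ 4 ≤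
        C15 * N * (2 * θ) * (Ck * (4 * Y)) := by gcongr
    have e2 : (N : ℝ) ^ 2 / Y * ∑ Q ∈ MQ Y, |TL Q R - (Q / Nat.totient Q : ℝ)| ≤
        (N : ℝ) ^ 2 / Y * (C17 * Y / R) := by gcongr
    have e3 : ∑ Q ∈ MQ Y, a1 Q ≤ C04 * ((N : ℝ) ^ 2 / κ ^ 200) * (1 + Real.log N) ^ 7 *
        Real.sqrt ((N : ℝ) / Y) := h04
    have e4 : 3 * (Y : ℝ) * B = 3 * Y * (C07 * N / κ ^ 400 +
        C16 * Real.log N * Real.sqrt (N * EE N K) +
        Cw * Real.log N * (Real.sqrt (N * EE N K) + N / κ ^ 400)) := by rw [hB]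
    rw [e4]
    linarith
  -- Minkowski
  have hmk := a01_mink_sum P (Fh N K) R (MQ Y)
  have hSP0 : 0 ≤ ∑ Q ∈ MQ Y, VP P Q R := sum_nonneg fun Q _ => a01_VP_nonneg _ _ _
  have hSF0 : 0 ≤ ∑ Q ∈ MQ Y, VP (Fh N K) Q R := sum_nonneg fun Q _ => a01_VP_nonneg _ _ _
  have hNM : 2 * N < M := by
    have := hM.1
    omega
  have hTPf : TP (1 - 2 * (Mw N K : ℤ)) (N + 2 * (Mw N K : ℤ)) P := by
    obtain ⟨c1, hc1⟩ := h10.2.1
    obtain ⟨c2, hc2⟩ := h10.2.2.1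
    refine ⟨fun n => c1 n + c2 n, fun t => ?_⟩
    rw [hP]
    simp only
    rw [hc1 t, hc2 t, ← sum_add_distrib]
    refine sum_congr rfl fun n _ => ?_
    ring
  have hAB : ((N : ℤ) + 2 * (Mw N K : ℤ)) - (1 - 2 * (Mw N K : ℤ)) ≤ ((2 * N : ℕ) : ℤ) := by
    have := h10.1
    push_cast
    linarith
  have hbd : (Y : ℝ) + ((2 * N : ℕ) : ℝ) / R ≤ 3 * Y := by
    have : ((2 * N : ℕ) : ℝ) / R = 2 * ((N : ℝ) / R) := by push_cast; ring
    rw [this]
    linarith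
  have hms0 : ∀ F : ℝ → ℂ, 0 ≤ ms M F := by
    intro F
    unfold ms mean
    positivity
  have hmsP : ms M P ≤ (1 + 2 * Cw + C16) * N * Real.log N := by
    have h1 := (abs_le.1 h16).2
    have h2 := (abs_le.1 h15).2
    have h3 : Real.sqrt (N * EE N K) ≤ N := by
      rw [Real.sqrt_le_left hN0.le]
      nlinarith
    have h4 : C16 * Real.log N * Real.sqrt (N * EE N K) ≤ C16 * Real.log N * N := by gcongr
    have h8 : (N : ℝ) / K ≤ N := by
      apply div_le_self hN0.le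
      exact_mod_cast (by omega : 1 ≤ K)
    have h5 : Cw * Real.log N * (Real.sqrt (N * EE N K) + N / K) ≤
        Cw * Real.log N * (N + N) := by gcongr
    have h6 : (1 + 2 * Cw + C16) * N * Real.log N = N * Real.log N + Cw * Real.log N * (N + N) +
        C16 * Real.log N * N := by ring
    linarith
  have hSP : ∑ Q ∈ MQ Y, VP P Q R ≤ 3 * C02 * Y * ((1 + 2 * Cw + C16) * N * Real.log N) := by
    have h1 := h02 (2 * N) M Y R _ _ P hTPf hAB hNM hY1 hR1 (by omega)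
    refine h1.trans ?_
    calc C02 * ((Y : ℝ) + ((2 * N : ℕ) : ℝ) / R) * ms M P ≤
        C02 * (3 * Y) * ((1 + 2 * Cw + C16) * N * Real.log N) := by
          have := hms0 P
          gcongr
      _ = _ := by ring
  have hSF : ∑ Q ∈ MQ Y, VP (Fh N K) Q R ≤ 3 * C02 * Y * (C7b * Real.log N * EE N K) := by
    have h1 := h02 (2 * N) M Y R _ _ (Fh N K) h10.2.2.2 hAB hNM hY1 hR1 (by omega)
    refine h1.trans ?_
    calc C02 * ((Y : ℝ) + ((2 * N : ℕ) : ℝ) / R) * ms M (Fh N K) ≤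
        C02 * (3 * Y) * (C7b * Real.log N * EE N K) := by
          have := hms0 (Fh N K)
          gcongr
      _ = _ := by ring
  have hPs : ∀ Q, VP (Ps N) Q R = VP (fun t => P t + Fh N K t) Q R := by
    intro Q
    congr 1
    funext t
    exact h20.1 N K t
  have htot : ∑ Q ∈ MQ Y, |VP (Ps N) Q R - N * (Real.log Q - HC.CQ Q)| ≤
      ∑ Q ∈ MQ Y, |VP P Q R - N * (Real.log Q - HC.CQ Q)| +
      (2 * Real.sqrt ((∑ Q ∈ MQ Y, VP P Q R) * ∑ Q ∈ MQ Y, VP (Fh N K) Q R) +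
        ∑ Q ∈ MQ Y, VP (Fh N K) Q R) := by
    have h1 : ∑ Q ∈ MQ Y, |VP (Ps N) Q R - N * (Real.log Q - HC.CQ Q)| ≤
        ∑ Q ∈ MQ Y, |VP P Q R - N * (Real.log Q - HC.CQ Q)| +
        ∑ Q ∈ MQ Y, |VP (fun t => P t + Fh N K t) Q R - VP P Q R| := by
      rw [← sum_add_distrib]
      refine sum_le_sum fun Q _ => ?_
      rw [hPs Q]
      have h2 : VP (fun t => P t + Fh N K t) Q R - N * (Real.log Q - HC.CQ Q) =
          (VP P Q R - N * (Real.log Q - HC.CQ Q)) +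
          (VP (fun t => P t + Fh N K t) Q R - VP P Q R) := by ring
      rw [h2]
      exact abs_add_le _ _
    linarith
  rw [hsK] at hEE
  exact a19e_num hκ1 hL1 hLκ (by linarith) hN0 hNYκ he0 hEE he1 hθ0 hR0 hRL hC02 hC03 hC04
    hC06 hC07 hC7b hC15 hC16 hC17 hCk hCw (by positivity) hS1 hSF0 hSP hSF htot

theorem A19E_pr (h3b : W03b) (h7b : W07b) (h10 : W10) (h15 : A15w) (h16 : W16) (h20 : W20)
    (a02 : A02) (a04 : A04) (a06 : A06) (a07 : A07) (a15 : A15E) (a16 : A16) (a17 : A17) :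
    A19E := by
  intro c₁ hc₁
  obtain ⟨C3, c3, B3, hC3, hc3, hB3, K3, H3⟩ := h3b c₁ hc₁
  obtain ⟨C7b, hC7b, K7b, H7b⟩ := h7b
  obtain ⟨K10, H10⟩ := h10
  obtain ⟨Cw, hCw, K15, H15⟩ := h15
  obtain ⟨C16, hC16, K16, H16⟩ := h16
  obtain ⟨C02, hC02, H02⟩ := a02
  obtain ⟨C04, hC04, K04, H04⟩ := a04
  obtain ⟨C06, hC06, K06, H06⟩ := a06
  obtain ⟨C07, hC07, K07, H07⟩ := a07
  obtain ⟨C15, hC15, H15'⟩ := a15
  obtain ⟨Ck, hCk, Hk⟩ := a16
  obtain ⟨C17, hC17, H17⟩ := a17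
  set Cf : ℝ := 2 * (3 * C16 * Real.sqrt C3 + 3 * Cw * Real.sqrt C3 +
      6 * C02 * Real.sqrt ((1 + 2 * Cw + C16) * (C7b * C3)) + 3 * C02 * (C7b * C3)) +
      8 * C15 * Ck + (128 * C04 + 3 * C07 + 3 * C06 + 3 * Cw + C17) with hCf
  have hCf0 : 0 < Cf := by positivity
  -- the exponent `B`
  set B : ℝ := max B3 (2 * C3 / c3) with hB
  -- threshold for `K`
  obtain ⟨Kc, hKc⟩ := exists_nat_gt ((4 * C3) ^ 2)
  refine ⟨Cf, c3 / 2, B, hCf0, by positivity, hB3.trans (le_max_left _ _),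
    K3 + K7b + K10 + K15 + K16 + K04 + K06 + K07 + Kc + 100,
    fun K hK N D hR hgood hKD hDN Y hRY hYN R hRK hRL => ?_⟩
  have hK10 : 10 ≤ K := hR.hK
  have hKN : K ≤ N := by
    have h1 : K ^ 1 ≤ K ^ 400 := Nat.pow_le_pow_right (by omega) (by norm_num)
    rw [pow_one] at h1
    exact h1.trans hR.hN
  have hN100 : 100 ≤ N := by omega
  have hNR : (100 : ℝ) ≤ N := by exact_mod_cast hN100
  have hN0 : (0 : ℝ) < N := by linarith
  have hL0 : 0 < Real.log N := Real.log_pos (by linarith)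
  have hD2 : 2 ≤ D := by
    have h1 : K ^ 1 ≤ K ^ 20 := Nat.pow_le_pow_right (by omega) (by norm_num)
    rw [pow_one] at h1
    omega
  have hDR : (2 : ℝ) ≤ D := by exact_mod_cast hD2
  have hlD : 0 < Real.log D := Real.log_pos (by linarith)
  have hBL : B * Real.log D ≤ Real.log N := by
    have h1 := Real.log_le_log (by positivity) hDN
    rwa [Real.log_rpow (by linarith)] at h1
  have hDN3 : (D : ℝ) ^ B3 ≤ N := by
    refine le_trans ?_ hDN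
    exact Real.rpow_le_rpow_of_exponent_le (by linarith) (le_max_left _ _)
  set e0 : ℝ := Real.exp (-(c3 * Real.log N / Real.log D)) with he0
  have he00 : 0 < e0 := Real.exp_pos _
  have hexp : c3 * Real.log N / Real.log D ≥ 2 * C3 := by
    rw [ge_iff_le, le_div_iff₀ hlD]
    have h1 : 2 * C3 / c3 ≤ B := le_max_right _ _
    have h2 : 2 * C3 ≤ B * c3 := by rwa [div_le_iff₀ hc3] at h1
    nlinarith
  have he0C : C3 * e0 ≤ 1 / 2 := by
    have h2 : e0 ≤ Real.exp (-(2 * C3)) := Real.exp_le_exp.2 (by linarith)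
    have h3 : Real.exp (-(2 * C3)) * Real.exp (2 * C3) = 1 := by
      rw [← Real.exp_add]
      simp
    have h4 : 0 < Real.exp (-(2 * C3)) := Real.exp_pos _
    have h6 := Real.add_one_le_exp (2 * C3)
    have h5 : Real.exp (-(2 * C3)) * (2 * C3) ≤ 1 := by nlinarith
    nlinarith
  have he01 : e0 ≤ 1 := by
    rw [he0]
    apply Real.exp_le_one_iff.2
    have : 0 < c3 * Real.log N / Real.log D := by positivity
    linarith
  have hEE3 := H3 K (by omega) N D hR hgood hKD hDN3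
  -- `EE ≤ N`
  have hsK : 4 * C3 ≤ Real.sqrt K := by
    apply Real.le_sqrt_of_sq_le
    have h1 : (Kc : ℝ) ≤ K := by
      have : Kc ≤ K := by omega
      exact_mod_cast this
    linarith
  have hsK0 : 0 < Real.sqrt K := by
    have : (0 : ℝ) < 4 * C3 := by positivity
    linarith
  have hEEN : EE N K ≤ N := by
    refine hEE3.trans ?_
    have h1 : C3 * (1 / Real.sqrt K) ≤ 1 / 4 := by
      rw [mul_one_div, div_le_iff₀ hsK0]
      linarith
    calc C3 * N * (e0 + 1 / Real.sqrt K) = N * (C3 * e0 + C3 * (1 / Real.sqrt K)) := by ring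
      _ ≤ N * 1 := by
          apply mul_le_mul_of_nonneg_left _ hN0.le
          linarith
      _ = N := mul_one _
  obtain ⟨M, hM⟩ : ∃ M, Good (2 * N) M := ⟨_, CSB_good (2 * N)⟩
  have hY1 : 1 ≤ Y := hRY.hY1
  have hR0 : 0 < (R : ℝ) := by
    by_contra hc
    push Not at hc
    have h1 : 0 < (N : ℝ) * Real.log N ^ 7 := by positivity
    have h2 : (R : ℝ) * Y ≤ 0 := mul_nonpos_of_nonpos_of_nonneg hc (Nat.cast_nonneg _)
    linarith
  have hR1 : 1 ≤ R := by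
    have : 0 < R := by exact_mod_cast hR0
    omega
  have hres := a19e_one (M := M) (e0 := e0) hC02 hC3 hC04 hC06 hC07 hC7b hC15 hC16 hC17 hCk hCw
    he00.le he01 hR hRY hM hRL hEE3 hEEN hN100 (H10 K (by omega) N hR) h20
    (H7b K (by omega) N hR M hM) H02 (H04 K (by omega) N hR M hM Y hRY hEEN)
    (fun Q hQ => H06 K (by omega) N hR Q R hQ hRK) (H07 K (by omega) N hR M hM Y hRY)
    (H16 K (by omega) N hR M hM hEEN) (H15 K (by omega) N hR hEEN) ?_ (Hk (4 * Y) (by omega))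
    (H17 Y R hY1 hR1)
  · -- conclusion
    have h1 : Real.sqrt e0 = Real.exp (-(c3 / 2 * Real.log N / Real.log D)) := by
      rw [he0, ← Real.exp_half]
      congr 1
      ring
    rw [h1] at hres
    exact hres
  · intro Q hQ
    unfold MQ at hQ
    rw [mem_Ioc] at hQ
    refine H15' N K Q (by omega) (by omega) ?_
    calc N ^ 16 ≤ Y ^ 16 * K := hRY.hY
      _ ≤ Q ^ 16 * K := Nat.mul_le_mul_right _ (Nat.pow_le_pow_left hQ.1.le 16)

end Pool.Agent.FGA
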