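import Pool.Agent.Lib_helper99.FGA.WantedE
import Pool.Agent.Lib_helper99.FGA.A20

set_option autoImplicit false

namespace Pool.Agent.FGA

open Finset Pool.Agent.Var35 Pool.Agent.Var73 Pool.Agent.PV Pool.Agent.FGP
open scoped ArithmeticFunction ArithmeticFunction.Moebius
open Filter Topology

set_option maxHeartbeats 2000000 in
theorem A20E_pr (h18a : A18aE) (h18b : A18bE) (h19 : A19E) (c₁ : ℝ) (hc₁ : 0 < c₁) : A20E c₁ := by
  obtain ⟨C₀, c₀, B₀, hC₀, hc₀, hB₀, K0, hK0⟩ := h19 c₁ hc₁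
  obtain ⟨Ca, hCa0, hCa⟩ := h18a
  obtain ⟨Nb, hNb⟩ := h18b
  set c : ℝ := min (c₀ / 2) (1 / 2500) with hc
  have hcpos : 0 < c := lt_min (by positivity) (by norm_num)
  obtain ⟨X₁, hX₁⟩ := a20_X (1 / 8) (max Ca (Nb + 1)) (by positivity)
  obtain ⟨D₀, hD₀⟩ := p19_D c (B₀ + 60) 0 X₁ hcpos K0
  refine ⟨c, 2 * (K0 : ℝ) + 10 + 2 * Ca + 8 * C₀ + 9, B₀ + 60, D₀, hcpos, by positivity,
    by linarith, fun D hgood hD X Y hX hX2 hY hYX => ?_⟩
  obtain ⟨d1, d2, d3, d4, d5, d6⟩ := hD₀ D hD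
  have hD0 : (0 : ℝ) < D := by linarith
  have hDB : (D : ℝ) ≤ (D : ℝ) ^ (B₀ + 60) := by
    calc (D : ℝ) = (D : ℝ) ^ (1 : ℝ) := (Real.rpow_one _).symm
      _ ≤ _ := Real.rpow_le_rpow_of_exponent_le (by linarith) (by linarith)
  have hXX : X₁ ≤ X := d3.trans (hDB.trans hX)
  obtain ⟨x1, x2, x3, x4, x5⟩ := hX₁ X hXX
  have hX0 : 0 < X := by linarith
  have hY0 : 0 < Y := lt_of_lt_of_le (by positivity) hY
  have hK00 : (0 : ℝ) ≤ K0 := Nat.cast_nonneg _
  have hYX1 : (2 * (K0 : ℝ) + 2) * Y ≤ X := by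
    refine le_trans ?_ hYX
    apply mul_le_mul_of_nonneg_right _ hY0.le
    linarith
  have hYX2 : Ca * Y ≤ X := by
    refine le_trans ?_ hYX
    apply mul_le_mul_of_nonneg_right _ hY0.le
    linarith
  have hYX3 : 10 * Y ≤ X := by
    refine le_trans ?_ hYX
    apply mul_le_mul_of_nonneg_right _ hY0.le
    linarith
  have h : P19S c B₀ K0 D X Y :=
    ⟨hcpos, min_le_right _ _, hB₀, d1, d4, d5, x1, hX, hX2, hY, hYX1⟩
  set N : ℕ := ⌊X⌋₊ with hN
  set Y' : ℕ := ⌊Y⌋₊ with hY'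
  set R : ℕ := ⌊X / (4 * Y') * Real.log X ^ 8⌋₊ with hR
  set K : ℕ := ⌊(D : ℝ) ^ (1 / 20 : ℝ)⌋₊ with hK
  have hYf1 : (Y' : ℝ) ≤ Y := h.Yf1
  have hYf2 : Y / 2 ≤ Y' := h.Yf2
  have hYf0 : (0 : ℝ) < Y' := by linarith
  have hNX : (N : ℝ) ≤ X := h.N1
  have hNX2 : X < N + 1 := h.N2
  have hNX3 : X / 2 ≤ N := h.N3
  have hN0 : (0 : ℝ) < N := by linarith
  have hlX : 0 < Real.log X := by linarith
  have hlN2 : Real.log X / 2 ≤ Real.log (N : ℝ) := h.logN
  have hlN0 : 0 < Real.log (N : ℝ) := by linarith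
  -- the three inputs
  have e1 := hCa X Y' ((le_max_left _ _).trans x2) (by
      have h1 := h.Y1
      linarith) (by
      calc Ca * (Y' : ℝ) ≤ Ca * Y := by gcongr
        _ ≤ X := hYX2)
  have hNNb : Nb ≤ N := by
    have h1 : (Nb : ℝ) + 1 ≤ X := (le_max_right _ _).trans x2
    have h2 : (Nb : ℝ) ≤ N := by linarith
    exact_mod_cast h2
  have h4Y : 4 * Y' ≤ N := by
    have h1 : 4 * (Y' : ℝ) ≤ N := by linarith
    exact_mod_cast h1
  have e3 := hK0 K h.KK0 N D h.rg hgood h.K20 h.DB Y' h.ry h4Y R (A20S.RK h (min_le_right _ _))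
    (A20S.RL h x4)
  -- one modulus
  have hpt : ∀ Q ∈ IR Y, |HC.GX X Q - HC.LX X Q (X / Q * Real.log X ^ 8) -
      X * (Real.log Q - HC.CQ Q)| ≤
      |HC.HH X Q (X / Q * Real.log X ^ 8) - (1 / (Q : ℝ)) * ∑ l ∈ (range Q).filter (fun l : ℕ =>
        R < HC.den l Q), HC.Sq HC.Lam N (l / Q)| +
      |VP (Ps N) Q R - N * (Real.log Q - HC.CQ Q)| + 3 * X / Real.log X := by
    intro Q hQ
    obtain ⟨hQ1, hYQ, hQY⟩ := A20S.Qf h hQ
    have hQ0 : (0 : ℝ) < Q := by linarith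
    have hQX : (Q : ℝ) ≤ X := by linarith
    have hD1 : 1 ≤ X / Q * Real.log X ^ 8 := by
      have h1 : 1 ≤ X / Q := by rwa [le_div_iff₀ hQ0, one_mul]
      have h2 : 1 ≤ Real.log X ^ 8 := one_le_pow₀ (by linarith)
      nlinarith
    rw [HC.gx_ident X Q hQ1 _ hD1]
    have hlQ : Real.log Q ≤ Real.log X := Real.log_le_log hQ0 hQX
    have hlX2 : Real.log X * (Real.log X + 3) ≤ X := by
      have h1 : Real.log X * (Real.log X + 3) ≤ Real.sqrt X * Real.log X ^ 12 := by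
        have h2 : Real.log X * (Real.log X + 3) ≤ Real.log X ^ 12 := by
          calc Real.log X * (Real.log X + 3) ≤ Real.log X * (Real.log X + Real.log X) := by
                gcongr
                linarith
            _ = 2 * Real.log X ^ 2 := by ring
            _ ≤ Real.log X ^ 10 * Real.log X ^ 2 := by
                have : (2 : ℝ) ≤ Real.log X ^ 10 := by
                  calc (2 : ℝ) ≤ Real.log X := by linarith
                    _ = Real.log X ^ 1 := (pow_one _).symm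
                    _ ≤ Real.log X ^ 10 := pow_le_pow_right₀ (by linarith) (by norm_num)
                gcongr
            _ = _ := by ring
        have h3 : 1 ≤ Real.sqrt X := by
          rw [Real.one_le_sqrt]
          linarith
        have h4 : 0 ≤ Real.log X ^ 12 := by positivity
        nlinarith
      have h2 : X ^ (59 / 60 : ℝ) ≤ X := by
        calc X ^ (59 / 60 : ℝ) ≤ X ^ (1 : ℝ) :=
              Real.rpow_le_rpow_of_exponent_le (by linarith) (by norm_num)
          _ = X := Real.rpow_one _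
      have h3 : 0 ≤ Real.sqrt X * Real.log X ^ 12 := by positivity
      linarith
    have e4 : |(N : ℝ) * (Real.log Q - HC.CQ Q) - X * (Real.log Q - HC.CQ Q)| ≤
        X / Real.log X := by
      rw [← sub_mul, abs_mul]
      have h1 : |(N : ℝ) - X| ≤ 1 := by
        rw [abs_le]
        constructor <;> linarith
      have h2 := a20_CQ Q hQ1
      calc |(N : ℝ) - X| * |Real.log Q - HC.CQ Q| ≤ 1 * (Real.log Q + 3) := by gcongr
        _ ≤ Real.log X + 3 := by linarith
        _ ≤ X / Real.log X := by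
            rw [le_div_iff₀ hlX]
            linarith
    have hb1 : N ^ 9 ≤ Q ^ 10 := by
      have h1 : (N : ℝ) ^ 9 ≤ (Q : ℝ) ^ 10 := by
        have h2 : X ^ (59 / 60 : ℝ) ≤ Q := h.Y1.trans hYQ.le
        have h3 : (X ^ (59 / 60 : ℝ)) ^ 10 ≤ (Q : ℝ) ^ 10 := by
          have := Real.rpow_pos_of_pos hX0 (59 / 60)
          gcongr
        have h4 : (X ^ (59 / 60 : ℝ)) ^ 10 = X ^ (59 / 6 : ℝ) := by
          rw [← Real.rpow_natCast, ← Real.rpow_mul hX0.le]
          norm_num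
        have h5 : X ^ (9 : ℕ) ≤ X ^ (59 / 6 : ℝ) := by
          rw [← Real.rpow_natCast]
          exact Real.rpow_le_rpow_of_exponent_le (by linarith) (by norm_num)
        calc (N : ℝ) ^ 9 ≤ X ^ 9 := by gcongr
          _ ≤ X ^ (59 / 6 : ℝ) := h5
          _ ≤ _ := by rw [← h4]; exact h3
      exact_mod_cast h1
    have hb2 : Q ≤ 4 * N := by
      have h1 : (Q : ℝ) ≤ 4 * N := by linarith
      exact_mod_cast h1
    have e5 := hNb N hNNb Q R hb1 hb2
    have e6 : (N : ℝ) / Real.log N ≤ 2 * X / Real.log X := by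
      rw [div_le_div_iff₀ hlN0 hlX]
      calc (N : ℝ) * Real.log X ≤ X * (2 * Real.log N) := by
            gcongr
            linarith
        _ = 2 * X * Real.log N := by ring
    set V1 : ℝ := (1 / (Q : ℝ)) * ∑ l ∈ (range Q).filter (fun l : ℕ =>
        R < HC.den l Q), HC.Sq HC.Lam N (l / Q)
    set H1 : ℝ := HC.HH X Q (X / Q * Real.log X ^ 8)
    have h7 : H1 - X * (Real.log Q - HC.CQ Q) = (H1 - V1) + (V1 - VP (Ps N) Q R) +
        (VP (Ps N) Q R - N * (Real.log Q - HC.CQ Q)) +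
        ((N : ℝ) * (Real.log Q - HC.CQ Q) - X * (Real.log Q - HC.CQ Q)) := by ring
    rw [h7]
    refine (abs_add_le _ _).trans ?_
    have h8 := abs_add_le ((H1 - V1) + (V1 - VP (Ps N) Q R))
      (VP (Ps N) Q R - N * (Real.log Q - HC.CQ Q))
    have h9 := abs_add_le (H1 - V1) (V1 - VP (Ps N) Q R)
    have h10 : 3 * X / Real.log X = 2 * X / Real.log X + X / Real.log X := by ring
    linarith
  have hcard : ((IR Y).card : ℝ) ≤ 3 * Y := by
    have h1 : ((IR Y).card : ℝ) ≤ ((MQ Y').card : ℝ) := by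
      exact_mod_cast card_le_card (A20S.sub h)
    rw [a01_card] at h1
    linarith
  have s1 : ∑ Q ∈ IR Y, |HC.HH X Q (X / Q * Real.log X ^ 8) - (1 / (Q : ℝ)) *
      ∑ l ∈ (range Q).filter (fun l : ℕ => R < HC.den l Q), HC.Sq HC.Lam N (l / Q)| ≤
      Ca * (1 / Real.log X) * X * Y := by
    refine (sum_le_sum_of_subset_of_nonneg (A20S.sub h) fun _ _ _ => abs_nonneg _).trans ?_
    refine e1.trans ?_
    have : Ca * X * (Y' : ℝ) / Real.log X ≤ Ca * X * Y / Real.log X := by gcongr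
    refine this.trans (le_of_eq ?_)
    ring
  set θ : ℝ := (Y / X) ^ (1 / 4 : ℝ) with hθ
  have hθ0 : 0 ≤ θ := by positivity
  have s2 : ∑ Q ∈ IR Y, |VP (Ps N) Q R - N * (Real.log Q - HC.CQ Q)| ≤
      C₀ * (Real.exp (-(c * Real.log X / Real.log D)) * Real.log X + 2 * θ +
        2 * (1 / Real.log X)) * X * Y := by
    refine (sum_le_sum_of_subset_of_nonneg (A20S.sub h) fun _ _ _ => abs_nonneg _).trans ?_
    refine e3.trans ?_
    have hlD : 0 < Real.log D := Real.log_pos (by linarith)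
    have h1 : Real.exp (-(c₀ * Real.log N / Real.log D)) ≤
        Real.exp (-(c * Real.log X / Real.log D)) := by
      apply Real.exp_le_exp.2
      apply neg_le_neg
      apply div_le_div_of_nonneg_right _ hlD.le
      have h3 : c ≤ c₀ / 2 := min_le_left _ _
      calc c * Real.log X ≤ c₀ / 2 * Real.log X := by gcongr
        _ = c₀ * (Real.log X / 2) := by ring
        _ ≤ c₀ * Real.log N := by gcongr
    have h2 : Real.log (N : ℝ) ≤ Real.log X := Real.log_le_log hN0 hNX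
    have h5 : ((Y' : ℝ) / N) ^ (1 / 4 : ℝ) ≤ 2 * θ := by
      have h51 : ((Y' : ℝ) / N) ^ (1 / 4 : ℝ) ≤ (16 * (Y / X)) ^ (1 / 4 : ℝ) := by
        apply Real.rpow_le_rpow (by positivity) _ (by norm_num)
        rw [mul_div_assoc', div_le_div_iff₀ hN0 hX0]
        calc (Y' : ℝ) * X ≤ Y * (16 * N) := by
              gcongr
              linarith
          _ = 16 * Y * N := by ring
      refine h51.trans (le_of_eq ?_)
      rw [Real.mul_rpow (by norm_num) (by positivity), hθ]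
      congr 1
      rw [show (16 : ℝ) = 2 ^ (4 : ℕ) by norm_num, ← Real.rpow_natCast, ← Real.rpow_mul (by norm_num)]
      norm_num
    have h6 : 1 / Real.log (N : ℝ) ≤ 2 * (1 / Real.log X) := by
      rw [mul_one_div, div_le_div_iff₀ hlN0 hlX]
      linarith
    gcongr
  set E1 : ℝ := Real.exp (-(c * Real.log X / Real.log D)) * Real.log X with hE1
  have hE10 : 0 ≤ E1 := by positivity
  have hl0 : 0 ≤ 1 / Real.log X := by positivity
  calc ∑ Q ∈ IR Y, |HC.GX X Q - HC.LX X Q (X / Q * Real.log X ^ 8) -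
      X * (Real.log Q - HC.CQ Q)| ≤ ∑ Q ∈ IR Y, (|HC.HH X Q (X / Q * Real.log X ^ 8) -
        (1 / (Q : ℝ)) * ∑ l ∈ (range Q).filter (fun l : ℕ =>
        R < HC.den l Q), HC.Sq HC.Lam N (l / Q)| +
      |VP (Ps N) Q R - N * (Real.log Q - HC.CQ Q)| + 3 * X / Real.log X) := sum_le_sum hpt
    _ ≤ Ca * (1 / Real.log X) * X * Y + C₀ * (E1 + 2 * θ + 2 * (1 / Real.log X)) * X * Y +
        3 * Y * (3 * X / Real.log X) := by
        rw [sum_add_distrib, sum_add_distrib, sum_const, nsmul_eq_mul]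
        have : ((IR Y).card : ℝ) * (3 * X / Real.log X) ≤ 3 * Y * (3 * X / Real.log X) := by
          gcongr
        linarith
    _ = (C₀ * E1 + 2 * C₀ * θ + (Ca + 2 * C₀ + 9) * (1 / Real.log X)) * X * Y := by ring
    _ ≤ (2 * (K0 : ℝ) + 10 + 2 * Ca + 8 * C₀ + 9) * (E1 + θ + 1 / Real.log X) * X * Y := by
        have g1 : C₀ * E1 ≤ (2 * (K0 : ℝ) + 10 + 2 * Ca + 8 * C₀ + 9) * E1 :=
          mul_le_mul_of_nonneg_right (by linarith) hE10
        have g2 : 2 * C₀ * θ ≤ (2 * (K0 : ℝ) + 10 + 2 * Ca + 8 * C₀ + 9) * θ :=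
          mul_le_mul_of_nonneg_right (by linarith) hθ0
        have g3 : (Ca + 2 * C₀ + 9) * (1 / Real.log X) ≤
            (2 * (K0 : ℝ) + 10 + 2 * Ca + 8 * C₀ + 9) * (1 / Real.log X) :=
          mul_le_mul_of_nonneg_right (by linarith) hl0
        have g4 : C₀ * E1 + 2 * C₀ * θ + (Ca + 2 * C₀ + 9) * (1 / Real.log X) ≤
            (2 * (K0 : ℝ) + 10 + 2 * Ca + 8 * C₀ + 9) * (E1 + θ + 1 / Real.log X) := by
          rw [mul_add, mul_add]
          linarith
        gcongr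

end Pool.Agent.FGA
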