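import Pool.Agent.Lib_helper3.FGP.Wanted
import Pool.Agent.Lib_helper92.HCF.FIF

/-!
# FGA: the Friedlander-Goldston asymptotic for almost all moduli. Definitions

Second stage of FGP (all integers `Q` instead of the primes, characters of small conductor removed).
-/

set_option autoImplicit false

namespace Pool.Agent.FGA

open Finset Pool.Agent.Var35 Pool.Agent.Var73 Pool.Agent.PV Pool.Agent.FGP
open scoped ArithmeticFunction ArithmeticFunction.Moebius

/-- the moduli -/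
def MQ (Y : ℕ) : Finset ℕ := Ioc Y (4 * Y)

/-- the part of the variance functional at the fractions `l / Q` of denominator `> R` -/
noncomputable def VP (P : ℝ → ℂ) (Q R : ℕ) : ℝ :=
  (1 / (Q : ℝ)) * ∑ l ∈ (range Q).filter (fun l : ℕ => R < HC.den l Q), ‖P (l / Q)‖ ^ 2

/-- the part at the fractions `l / Q` of denominator `≤ R` -/
noncomputable def VM (P : ℝ → ℂ) (Q R : ℕ) : ℝ :=
  (1 / (Q : ℝ)) * ∑ l ∈ (range Q).filter (fun l : ℕ => HC.den l Q ≤ R), ‖P (l / Q)‖ ^ 2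

/-- `∏_{p ∣ n} (1 + 1/√p)` -/
noncomputable def ks (n : ℕ) : ℝ := ∏ p ∈ n.primeFactors, (1 + 1 / Real.sqrt p)

/-- `f_M(k) = ∏_{p ∣ k, p ∤ M} (p-1)/(p-2)` (used for `M` even) -/
noncomputable def FM (M k : ℕ) : ℝ :=
  ∏ p ∈ k.primeFactors.filter (fun p => ¬ p ∣ M), (((p : ℝ) - 1) / ((p : ℝ) - 2))

/-- `G_M = 2 C₂ ∏_{p ∣ M, p > 2} (p-1)/(p-2)` -/
noncomputable def GM (C2 : ℝ) (M : ℕ) : ℝ :=
  2 * C2 * ∏ p ∈ M.primeFactors.erase 2, (((p : ℝ) - 1) / ((p : ℝ) - 2))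

/-- the multiplicative function `b_M`: for `p ∣ M` one has `b(p) = -1` and `b(p^j) = 0` for `j > 1`;
for `p ∤ M` one has `b(p) = 2/(p-2)`, `b(p²) = -p/(p-2)` and `b(p^j) = 0` for `j > 2` -/
noncomputable def bM (M d : ℕ) : ℝ := ∏ p ∈ d.primeFactors,
  (if p ∣ M then (if d.factorization p = 1 then -1 else 0) else
    if d.factorization p = 1 then 2 / ((p : ℝ) - 2) else
    if d.factorization p = 2 then -(p : ℝ) / ((p : ℝ) - 2) else 0)

/-- `C2` is the constant of the singular series -/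
def IsC2 (C2 : ℝ) : Prop := 0 < C2 ∧ HasProd (fun p : Nat.Primes => if (p : ℕ) = 2 then 1 else
      (1 - 1 / (((p : ℕ) : ℝ) - 1) ^ 2)) C2

/-- main term of `Ps1` -/
noncomputable def M1 (x : ℝ) : ℝ := Real.pi ^ 2 / 12 * x ^ 2 - x / 2 * Real.log x +
    x / 2 * (1 - Real.eulerMascheroniConstant - Real.log (2 * Real.pi))

/-- `∑_{d ∣ Q, d ≤ R} μ²(d)/φ(d)` -/
noncomputable def TL (Q R : ℕ) : ℝ :=
  ∑ r ∈ Q.divisors.filter (fun r => r ≤ R), mr r ^ 2 * (Nat.totient r : ℝ)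

end Pool.Agent.FGA
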