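import Pool.Agent.Lib_helper99.FGA.Wanted
import Pool.Agent.Lib_helper92.HCF.IDN

set_option autoImplicit false

namespace Pool.Agent.FGA

open Finset Pool.Agent.Var35 Pool.Agent.Var73 Pool.Agent.PV Pool.Agent.FGP
open scoped ArithmeticFunction ArithmeticFunction.Moebius

theorem prim_gx (X : ℝ) (Q : ℕ) : HC.GX X Q = FGP.GV X Q := by
  unfold HC.GX FGP.GV
  refine sum_congr rfl fun a ha => ?_
  have ha' := mem_range.1 (mem_filter.1 ha).1
  have : (Icc 1 ⌊X⌋₊).filter (fun n => n % Q = a) = (Icc 1 ⌊X⌋₊).filter (fun n => n ≡ a [MOD Q]) := by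
    refine filter_congr fun n _ => ?_
    unfold Nat.ModEq
    rw [Nat.mod_eq_of_lt ha']
  rw [this]

/-- for prime `Q` only the principal character has small conductor -/
theorem prim_lx (X : ℝ) (Q : ℕ) (hQ : Q.Prime) (D : ℝ) (hD1 : 1 ≤ D) (hD : D < Q) :
    HC.LX X Q D = PV0 X Q := by
  classical
  have : NeZero Q := ⟨hQ.ne_zero⟩
  unfold HC.LX PV0
  have h1 : ∀ χ : DirichletCharacter ℂ Q, (if (χ.conductor : ℝ) ≤ D then
      ‖∑ n ∈ Icc 1 ⌊X⌋₊, (HC.Lam n : ℂ) * χ (n : ZMod Q) - (if χ = 1 then (X : ℂ) else 0)‖ ^ 2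
        else 0) =
      if χ = 1 then ((∑ n ∈ (Icc 1 ⌊X⌋₊).filter (fun n => Nat.Coprime n Q),
        ArithmeticFunction.vonMangoldt n) - X) ^ 2 else 0 := by
    intro χ
    by_cases hχ : χ = 1
    · subst hχ
      rw [if_pos (by
        rw [DirichletCharacter.conductor_one]
        simpa using hD1), if_pos rfl, if_pos rfl]
      have h2 : ∑ n ∈ Icc 1 ⌊X⌋₊, (HC.Lam n : ℂ) * (1 : DirichletCharacter ℂ Q) (n : ZMod Q) =
          ((∑ n ∈ (Icc 1 ⌊X⌋₊).filter (fun n => Nat.Coprime n Q),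
            ArithmeticFunction.vonMangoldt n : ℝ) : ℂ) := by
        rw [Complex.ofReal_sum, sum_filter]
        refine sum_congr rfl fun n _ => ?_
        by_cases hn : Nat.Coprime n Q
        · rw [if_pos hn, MulChar.one_apply ((ZMod.isUnit_iff_coprime n Q).2 hn), mul_one]
        · rw [if_neg hn, MulChar.map_nonunit _ (fun h => hn ((ZMod.isUnit_iff_coprime n Q).1 h)),
            mul_zero]
      rw [h2, ← Complex.ofReal_sub, Complex.norm_real, Real.norm_eq_abs, sq_abs]
    · rw [if_neg hχ, if_neg hχ]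
      refine if_neg ?_
      intro hc
      have h2 : χ.conductor ∣ Q := DirichletCharacter.conductor_dvd_level χ
      rcases (Nat.dvd_prime hQ).1 h2 with h3 | h3
      · exact hχ (DirichletCharacter.eq_one_iff_conductor_eq_one.2 h3)
      · rw [h3] at hc
        linarith
  have h2 : ∀ (T : ℝ), (1 / (Nat.totient Q : ℝ)) * T = T / (Nat.totient Q : ℝ) := by
    intro T
    ring
  rw [h2]
  congr 1
  refine Eq.trans (sum_congr rfl fun χ _ => ?_)
    ((sum_ite_eq' univ (1 : DirichletCharacter ℂ Q) (fun _ => ((∑ n ∈ (Icc 1 ⌊X⌋₊).filter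
      (fun n => Nat.Coprime n Q), ArithmeticFunction.vonMangoldt n) - X) ^ 2)).trans
        (if_pos (mem_univ _)))
  refine Eq.trans ?_ (h1 χ)
  congr!

end Pool.Agent.FGA
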