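import Pool.Agent.Lib_helper99.FGA.Mono
import Pool.Agent.Lib_helper99.FGA.Level
import Pool.Agent.Lib_helper99.FGA.Prim

set_option autoImplicit false

namespace Pool.Agent.FGA

open Finset Pool.Agent.Var35 Pool.Agent.Var73 Pool.Agent.PV Pool.Agent.FGP
open scoped ArithmeticFunction ArithmeticFunction.Moebius
open Filter Topology

/-- `LEV` with smaller `c` and larger `C`, `B` -/
theorem mono_lev {c₁ : ℝ} (h : LEV c₁) : ∃ c₀ C₀ B₀ X₀ : ℝ, 0 < c₀ ∧ 0 < C₀ ∧ 1 ≤ B₀ ∧ 2 ≤ X₀ ∧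
    ∀ c C B : ℝ, 0 < c → c ≤ c₀ → C₀ ≤ C → B₀ ≤ B →
    ∀ D : ℕ, Pool.Agent.GA.Good c₁ D → X₀ ≤ D →
    (∀ X Y : ℝ, (D : ℝ) ^ B ≤ X → X ≤ Real.exp ((D : ℝ) ^ c) →
      X * (D : ℝ) ^ (-c) ≤ Y → Y ≤ X / 2 → 1 < Y →
      ∑ Q ∈ QR Y, max 0 (|FGP.GV X Q - PV0 X Q - MTQ X Q| - C * X * (Y / X) ^ (1 / 4 : ℝ)) ≤
        C * (Real.exp (-(c * Real.log X / Real.log D)) + (D : ℝ) ^ (-c)) * Real.log X * X *
          (Y / Real.log Y)) ∧
    (∀ N : ℕ, (D : ℝ) ^ B ≤ N → (N : ℝ) ≤ Real.exp ((D : ℝ) ^ c) →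
      |∑ n ∈ Icc 1 N, ArithmeticFunction.vonMangoldt n - N| ≤ (N : ℝ) ^ (3 / 4 : ℝ) →
      ∀ Y : ℝ, N * (D : ℝ) ^ (-c) ≤ Y → Y ≤ N / 2 → 1 < Y →
      ∑ Q ∈ QR Y, max 0 (|FGP.GV N Q - MTQ N Q| - C * N * (Y / N) ^ (1 / 4 : ℝ)) ≤
        C * (Real.exp (-(c * Real.log N / Real.log D)) + (D : ℝ) ^ (-c)) * Real.log N * N *
          (Y / Real.log Y)) := by
  obtain ⟨c₀, C₀, B₀, X₀, hc₀, hC₀, hB₀, h⟩ := h
  refine ⟨c₀, C₀, B₀, max X₀ 2, hc₀, hC₀, hB₀, le_max_right _ _,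
    fun c C B hc hcc hCC hBB D hgood hD => ?_⟩
  have hD0 : X₀ ≤ D := (le_max_left _ _).trans hD
  have hD2 : (2 : ℝ) ≤ D := (le_max_right _ _).trans hD
  have hD1 : (1 : ℝ) ≤ D := by linarith
  have hDp : (0 : ℝ) < D := by linarith
  have hB1 : 1 ≤ B := hB₀.trans hBB
  have hlD : 0 < Real.log D := Real.log_pos (by linarith)
  have hC0 : 0 ≤ C := hC₀.le.trans hCC
  obtain ⟨ha, hb⟩ := h D hgood hD0
  have hXD : ∀ X : ℝ, (D : ℝ) ^ B ≤ X → (D : ℝ) ≤ X := by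
    intro X hX
    calc (D : ℝ) = (D : ℝ) ^ (1 : ℝ) := (Real.rpow_one _).symm
      _ ≤ (D : ℝ) ^ B := Real.rpow_le_rpow_of_exponent_le hD1 hB1
      _ ≤ X := hX
  have hdc : (D : ℝ) ^ (-c₀) ≤ (D : ℝ) ^ (-c) :=
    Real.rpow_le_rpow_of_exponent_le hD1 (by linarith)
  have hfin : ∀ (X Y : ℝ) (F : ℕ → ℝ), (D : ℝ) ^ B ≤ X → 0 < Y → 1 < Y →
      ∑ Q ∈ QR Y, max 0 (|F Q| - C₀ * X * (Y / X) ^ (1 / 4 : ℝ)) ≤
        C₀ * (Real.exp (-(c₀ * Real.log X / Real.log D)) + (D : ℝ) ^ (-c₀)) * Real.log X * X *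
          (Y / Real.log Y) →
      ∑ Q ∈ QR Y, max 0 (|F Q| - C * X * (Y / X) ^ (1 / 4 : ℝ)) ≤
        C * (Real.exp (-(c * Real.log X / Real.log D)) + (D : ℝ) ^ (-c)) * Real.log X * X *
          (Y / Real.log Y) := by
    intro X Y F hX hY0 hY1 hF
    have hX1 := hXD X hX
    have hX0 : 0 < X := by linarith
    have hlX : 0 < Real.log X := Real.log_pos (by linarith)
    have hlY : 0 < Real.log Y := Real.log_pos hY1
    have h2 : Real.exp (-(c₀ * Real.log X / Real.log D)) ≤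
        Real.exp (-(c * Real.log X / Real.log D)) := by
      apply Real.exp_le_exp.2
      apply neg_le_neg
      apply div_le_div_of_nonneg_right _ hlD.le
      gcongr
    calc ∑ Q ∈ QR Y, max 0 (|F Q| - C * X * (Y / X) ^ (1 / 4 : ℝ)) ≤
        ∑ Q ∈ QR Y, max 0 (|F Q| - C₀ * X * (Y / X) ^ (1 / 4 : ℝ)) := by
          refine sum_le_sum fun Q _ => max_le_max le_rfl (sub_le_sub_left ?_ _)
          gcongr
      _ ≤ _ := hF
      _ ≤ _ := by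
          have h5 : 0 < (D : ℝ) ^ (-c₀) := Real.rpow_pos_of_pos hDp _
          gcongr
  constructor
  · intro X Y hX hX2 hY hYX hY1
    have hX1 := hXD X hX
    have hX0 : 0 < X := by linarith
    refine hfin X Y _ hX (by linarith) hY1 (ha X Y ?_ ?_ ?_ hYX)
    · exact (Real.rpow_le_rpow_of_exponent_le hD1 hBB).trans hX
    · exact hX2.trans (Real.exp_le_exp.2 (Real.rpow_le_rpow_of_exponent_le hD1 hcc))
    · refine le_trans ?_ hY
      gcongr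
  · intro N hX hX2 hN Y hY hYX hY1
    have hX1 := hXD N hX
    have hX0 : (0 : ℝ) < N := by linarith
    refine hfin N Y _ hX (by linarith) hY1 (hb N ?_ ?_ hN Y ?_ hYX)
    · exact (Real.rpow_le_rpow_of_exponent_le hD1 hBB).trans hX
    · exact hX2.trans (Real.exp_le_exp.2 (Real.rpow_le_rpow_of_exponent_le hD1 hcc))
    · refine le_trans ?_ hY
      gcongr

/-- all moduli and the prime moduli, together -/
def WALLM : Prop :=
    ∃ S : Set ℕ, ¬ BddAbove S ∧ ∃ c C B : ℝ, 0 < c ∧ 0 < C ∧ 1 ≤ B ∧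
    (∀ D ∈ S, ∀ X Y : ℝ, (D : ℝ) ^ B ≤ X → X ≤ Real.exp ((D : ℝ) ^ c) →
      X * (D : ℝ) ^ (-c) ≤ Y → Y ≤ X / C →
      ∑ Q ∈ IR Y, |HC.GX X Q - HC.LX X Q (X / Q * Real.log X ^ 8) -
          X * (Real.log Q - HC.CQ Q)| ≤
        C * (Real.exp (-(c * Real.log X / Real.log D)) * Real.log X + (Y / X) ^ (1 / 4 : ℝ) +
          1 / Real.log X) * X * Y ∧
      ∑ Q ∈ QR Y, max 0 (|HC.GX X Q - HC.LX X Q (X / Q * Real.log X ^ 8) -
          X * (Real.log Q - HC.CQ Q)| - C * X * (Y / X) ^ (1 / 4 : ℝ)) ≤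
        C * (Real.exp (-(c * Real.log X / Real.log D)) + (D : ℝ) ^ (-c)) * Real.log X * X *
          (Y / Real.log Y) ∧
      ((∃ N : ℕ, X = N ∧ |∑ n ∈ Icc 1 N, ArithmeticFunction.vonMangoldt n - N| ≤
          (N : ℝ) ^ (3 / 4 : ℝ)) →
        ∑ Q ∈ QR Y, max 0 (|HC.GX X Q - X * (Real.log Q - HC.CQ Q)| -
            C * X * (Y / X) ^ (1 / 4 : ℝ)) ≤
          C * (Real.exp (-(c * Real.log X / Real.log D)) + (D : ℝ) ^ (-c)) * Real.log X * X *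
            (Y / Real.log Y)))

/-- all moduli and the prime moduli, together -/
theorem fin_m (h18 : E18) (h20 : ∀ c₁ : ℝ, 0 < c₁ → A20E c₁) : WALLM := by
  obtain ⟨c₁, hc₁, hfreq⟩ := Pool.Agent.GA.good_frequently
  obtain ⟨ca, Ca, Ba, Xa, hca, hCa, hBa, hXa, ha⟩ := mono_pr (h20 c₁ hc₁)
  obtain ⟨cb, Cb, Bb, Xb, hcb, hCb, hBb, hXb, hb⟩ := mono_lev (lev_pr h18 c₁ hc₁)
  obtain ⟨X₁, hX₁⟩ := a20_X 1 1 one_pos
  set c : ℝ := min (min ca cb) 1 with hc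
  set C : ℝ := max (max Ca Cb) 2 with hC
  set B : ℝ := max (max Ba Bb) 60 with hB
  have hc0 : 0 < c := lt_min (lt_min hca hcb) one_pos
  have hcA : c ≤ ca := (min_le_left _ _).trans (min_le_left _ _)
  have hcB : c ≤ cb := (min_le_left _ _).trans (min_le_right _ _)
  have hcC : c ≤ 1 := min_le_right _ _
  have hCA : Ca ≤ C := (le_max_left _ _).trans (le_max_left _ _)
  have hCB : Cb ≤ C := (le_max_right _ _).trans (le_max_left _ _)
  have hC2 : 2 ≤ C := le_max_right _ _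
  have hBA : Ba ≤ B := (le_max_left _ _).trans (le_max_left _ _)
  have hBB : Bb ≤ B := (le_max_right _ _).trans (le_max_left _ _)
  have hB60 : 60 ≤ B := le_max_right _ _
  refine ⟨{D | Pool.Agent.GA.Good c₁ D ∧ max (max Xa Xb) X₁ ≤ (D : ℝ)}, ?_, c, C, B, hc0,
    by linarith, by linarith, ?_⟩
  · rintro ⟨b, hb'⟩
    obtain ⟨n₀, hn₀⟩ := exists_nat_ge (max (max Xa Xb) X₁)
    obtain ⟨D, hD, hgood⟩ := Filter.frequently_atTop.1 hfreq (max n₀ (b + 1))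
    have h1 : n₀ ≤ D := (le_max_left _ _).trans hD
    have h2 : b + 1 ≤ D := (le_max_right _ _).trans hD
    have h3 : max (max Xa Xb) X₁ ≤ (D : ℝ) := hn₀.trans (by exact_mod_cast h1)
    have h4 : D ∈ {D : ℕ | Pool.Agent.GA.Good c₁ D ∧ max (max Xa Xb) X₁ ≤ (D : ℝ)} :=
      ⟨hgood, h3⟩
    have := hb' h4
    omega
  intro D hD X Y hX hX2 hY hYX
  obtain ⟨hgood, hDD⟩ := hD
  have hDa : Xa ≤ D := ((le_max_left _ _).trans (le_max_left _ _)).trans hDD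
  have hDb : Xb ≤ D := ((le_max_right _ _).trans (le_max_left _ _)).trans hDD
  have hDc : X₁ ≤ D := (le_max_right _ _).trans hDD
  have hD2 : (2 : ℝ) ≤ D := hXa.trans hDa
  have hDp : (0 : ℝ) < D := by linarith
  have hD60 : (D : ℝ) ^ (60 : ℝ) ≤ X :=
    (Real.rpow_le_rpow_of_exponent_le (by linarith) hB60).trans hX
  have hXD : (D : ℝ) ≤ X := by
    calc (D : ℝ) = (D : ℝ) ^ (1 : ℝ) := (Real.rpow_one _).symm
      _ ≤ (D : ℝ) ^ (60 : ℝ) := Real.rpow_le_rpow_of_exponent_le (by linarith) (by norm_num)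
      _ ≤ X := hD60
  obtain ⟨x1, x2, x3, x4, x5⟩ := hX₁ X (hDc.trans hXD)
  have hX0 : 0 < X := by linarith
  have hY0 : 0 < Y := lt_of_lt_of_le (by positivity) hY
  have hCY : C * Y ≤ X := by
    rw [le_div_iff₀ (by linarith)] at hYX
    linarith
  have hY2 : Y ≤ X / 2 := by
    rw [le_div_iff₀ (by norm_num)]
    have : 2 * Y ≤ C * Y := by gcongr
    linarith
  -- `Y ≥ X^(59/60)`
  have hY59 : X ^ (59 / 60 : ℝ) ≤ Y := by
    refine le_trans ?_ hY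
    have h1 : (D : ℝ) ^ c ≤ X ^ (1 / 60 : ℝ) := by
      calc (D : ℝ) ^ c ≤ (D : ℝ) ^ (1 : ℝ) :=
            Real.rpow_le_rpow_of_exponent_le (by linarith) hcC
        _ = ((D : ℝ) ^ (60 : ℝ)) ^ (1 / 60 : ℝ) := by
            rw [← Real.rpow_mul hDp.le]
            norm_num
        _ ≤ X ^ (1 / 60 : ℝ) := Real.rpow_le_rpow (by positivity) hD60 (by norm_num)
    have hDc0 := Real.rpow_pos_of_pos hDp c
    rw [Real.rpow_neg hDp.le, ← div_eq_mul_inv, le_div_iff₀ hDc0]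
    calc X ^ (59 / 60 : ℝ) * (D : ℝ) ^ c ≤ X ^ (59 / 60 : ℝ) * X ^ (1 / 60 : ℝ) := by
          have := Real.rpow_pos_of_pos hX0 (59 / 60)
          gcongr
      _ = X := by
          rw [← Real.rpow_add hX0]; norm_num
  have hY1 : 1 < Y := by
    refine lt_of_lt_of_le ?_ hY59
    apply Real.one_lt_rpow (by linarith) (by norm_num)
  -- for primes `L = P`
  have hLP : ∀ Q ∈ QR Y, HC.LX X Q (X / Q * Real.log X ^ 8) = PV0 X Q := by
    intro Q hQ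
    unfold QR at hQ
    rw [mem_filter, mem_Icc] at hQ
    obtain ⟨⟨hQ1, hQ2⟩, hQp, hYQ⟩ := hQ
    have hQ2' : (Q : ℝ) ≤ 2 * Y := le_trans (by exact_mod_cast hQ2) (Nat.floor_le (by linarith))
    have hQ0 : (0 : ℝ) < Q := by linarith
    have hQX : (Q : ℝ) ≤ X := by linarith
    apply prim_lx X Q hQp
    · have h1 : 1 ≤ X / Q := by rwa [le_div_iff₀ hQ0, one_mul]
      have h2 : 1 ≤ Real.log X ^ 8 := one_le_pow₀ (by linarith)
      nlinarith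
    · -- `X log^8 X < Q²`
      rw [div_mul_eq_mul_div, div_lt_iff₀ hQ0]
      have h1 : Real.log X ^ 8 ≤ Real.log X ^ 12 := pow_le_pow_right₀ (by linarith) (by norm_num)
      have h2 : 1 ≤ Real.log X ^ 12 := one_le_pow₀ (by linarith)
      have h3 : Real.sqrt X * Real.log X ^ 12 < Y := by
        have h4 : 0 < Real.sqrt X * Real.log X ^ 12 := by positivity
        linarith
      have h5 : X * Real.log X ^ 8 ≤ (Real.sqrt X * Real.log X ^ 12) ^ 2 := by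
        rw [mul_pow, Real.sq_sqrt hX0.le]
        have h6 : Real.log X ^ 12 ≤ (Real.log X ^ 12) ^ 2 := by nlinarith
        have h7 : Real.log X ^ 8 ≤ (Real.log X ^ 12) ^ 2 := h1.trans h6
        gcongr
      calc X * Real.log X ^ 8 ≤ (Real.sqrt X * Real.log X ^ 12) ^ 2 := h5
        _ < Y ^ 2 := by
            have h8 : 0 ≤ Real.sqrt X * Real.log X ^ 12 := by positivity
            gcongr
        _ = Y * Y := sq Y
        _ ≤ Q * Q := by gcongr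
  have hM : ∀ Q : ℕ, X * (Real.log Q - HC.CQ Q) = MTQ X Q := fun Q => rfl
  refine ⟨?_, ?_, ?_⟩
  · exact ha c C B hc0 hcA hCA hBA D hgood hDa X Y hX hX2 hY hCY
  · obtain ⟨hb1, -⟩ := hb c C B hc0 hcB hCB hBB D hgood hDb
    refine le_trans (le_of_eq ?_) (hb1 X Y hX hX2 hY hY2 hY1)
    refine sum_congr rfl fun Q hQ => ?_
    rw [hLP Q hQ, hM Q, prim_gx]
  · rintro ⟨N, rfl, hN⟩
    obtain ⟨-, hb2⟩ := hb c C B hc0 hcB hCB hBB D hgood hDb
    refine le_trans (le_of_eq ?_) (hb2 N hX hX2 hN Y hY hY2 hY1)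
    refine sum_congr rfl fun Q hQ => ?_
    rw [hM Q, prim_gx]

end Pool.Agent.FGA
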