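import Pool.Agent.Lib_helper99.FGA.A20E

set_option autoImplicit false

namespace Pool.Agent.FGA

open Finset Pool.Agent.Var35 Pool.Agent.Var73 Pool.Agent.PV Pool.Agent.FGP
open scoped ArithmeticFunction ArithmeticFunction.Moebius

/-- `A20E` with smaller `c` and larger `C`, `B` -/
theorem mono_pr {c₁ : ℝ} (h : A20E c₁) : ∃ c₀ C₀ B₀ X₀ : ℝ, 0 < c₀ ∧ 0 < C₀ ∧ 1 ≤ B₀ ∧ 2 ≤ X₀ ∧
    ∀ c C B : ℝ, 0 < c → c ≤ c₀ → C₀ ≤ C → B₀ ≤ B →
    ∀ D : ℕ, Pool.Agent.GA.Good c₁ D → X₀ ≤ D → ∀ X Y : ℝ, (D : ℝ) ^ B ≤ X →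
      X ≤ Real.exp ((D : ℝ) ^ c) → X * (D : ℝ) ^ (-c) ≤ Y → C * Y ≤ X →
      ∑ Q ∈ IR Y, |HC.GX X Q - HC.LX X Q (X / Q * Real.log X ^ 8) -
          X * (Real.log Q - HC.CQ Q)| ≤
        C * (Real.exp (-(c * Real.log X / Real.log D)) * Real.log X + (Y / X) ^ (1 / 4 : ℝ) +
          1 / Real.log X) * X * Y := by
  obtain ⟨c₀, C₀, B₀, X₀, hc₀, hC₀, hB₀, h⟩ := h
  refine ⟨c₀, C₀, B₀, max X₀ 2, hc₀, hC₀, hB₀, le_max_right _ _,
    fun c C B hc hcc hCC hBB D hgood hD X Y hX hX2 hY hYX => ?_⟩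
  have hD0 : X₀ ≤ D := (le_max_left _ _).trans hD
  have hD2 : (2 : ℝ) ≤ D := (le_max_right _ _).trans hD
  have hD1 : (1 : ℝ) ≤ D := by linarith
  have hDp : (0 : ℝ) < D := by linarith
  have hB1 : 1 ≤ B := hB₀.trans hBB
  have hXD : (D : ℝ) ≤ X := by
    calc (D : ℝ) = (D : ℝ) ^ (1 : ℝ) := (Real.rpow_one _).symm
      _ ≤ (D : ℝ) ^ B := Real.rpow_le_rpow_of_exponent_le hD1 hB1
      _ ≤ X := hX
  have hX0 : 0 < X := by linarith
  have hX1 : 1 < X := by linarith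
  have hY0 : 0 < Y := lt_of_lt_of_le (by positivity) hY
  have hlX : 0 < Real.log X := Real.log_pos hX1
  have hlD : 0 < Real.log D := Real.log_pos (by linarith)
  have h1 := h D hgood hD0 X Y
    ((Real.rpow_le_rpow_of_exponent_le hD1 hBB).trans hX)
    (hX2.trans (Real.exp_le_exp.2 (Real.rpow_le_rpow_of_exponent_le hD1 hcc)))
    (by
      refine le_trans ?_ hY
      apply mul_le_mul_of_nonneg_left _ hX0.le
      exact Real.rpow_le_rpow_of_exponent_le hD1 (by linarith))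
    ((mul_le_mul_of_nonneg_right hCC hY0.le).trans hYX)
  refine h1.trans ?_
  have h2 : Real.exp (-(c₀ * Real.log X / Real.log D)) ≤
      Real.exp (-(c * Real.log X / Real.log D)) := by
    apply Real.exp_le_exp.2
    apply neg_le_neg
    apply div_le_div_of_nonneg_right _ hlD.le
    gcongr
  have h3 : 0 ≤ (Y / X) ^ (1 / 4 : ℝ) := by positivity
  have h4 : 0 ≤ C := hC₀.le.trans hCC
  gcongr

end Pool.Agent.FGA
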