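import Pool.Agent.Lib_helper3.FGP.Final
import Pool.Agent.Lib_helper3.FGP.E14dF
import Pool.Agent.Lib_helper3.FGP.E15F
import Pool.Agent.Lib_helper34.FGA.A02
import Pool.Agent.Lib_helper89.FGA.A03
import Pool.Agent.Lib_helper1.FGA.A04
import Pool.Agent.Lib_helper31.FGA.A05
import Pool.Agent.Lib_helper31.FGA.A06
import Pool.Agent.Lib_helper72.FGA.A07
import Pool.Agent.Lib_helper65.FGA.A08
import Pool.Agent.Lib_helper67.FGA.A09
import Pool.Agent.Lib_helper10.FGA.A10
import Pool.Agent.Lib_helper85.FGA.A11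
import Pool.Agent.Lib_helper65.FGA.A12
import Pool.Agent.Lib_helper25.FGA.A14E
import Pool.Agent.Lib_helper65.FGA.A15E
import Pool.Agent.Lib_helper67.FGA.A16
import Pool.Agent.Lib_helper72.FGA.A17
import Pool.Agent.Lib_helper61.FGA.A18aE
import Pool.Agent.Lib_helper16.FGA.A18bE
import Pool.Agent.Lib_helper99.FGA.EE
import Pool.Agent.Lib_helper99.FGA.A19E
import Pool.Agent.Lib_helper99.FGA.Mono

/-!
# FGA: the blocks put together
-/

set_option autoImplicit false

namespace Pool.Agent.FGA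

open Finset Pool.Agent.FGP

theorem g13e : A13E := A13E_pr E14d_pr
theorem g14e : A14E := A14E_pr A10_pr A11_pr A12_pr g13e
theorem g15e : A15E := A15E_pr W14a_pr A08_pr A09_pr g14e
theorem g15w : A15w := A15w_pr (E15_pr f01)
theorem g04 : A04 := A04_pr f04 f05 f07b f10 A03_pr
theorem g05 : A05 := A05_pr f01 f04
theorem g06 : A06 := A06_pr g05
theorem g07 : A07 := A07_pr f13a f13b
theorem g19e : A19E := A19E_pr f03b f07b f10 g15w f16 W20_pr A02_pr g04 g06 g07 g15e A16_pr A17_pr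

theorem g20e (c₁ : ℝ) (hc₁ : 0 < c₁) : A20E c₁ := A20E_pr A18aE_pr A18bE_pr g19e c₁ hc₁

end Pool.Agent.FGA
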