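import Pool.Agent.Lib_helper3.FGP.FinalE
import Pool.Agent.Lib_helper99.FGA.FinalE
import Pool.Agent.Lib_helper99.FGA.FinM

/-!
# FGA: all moduli and the prime moduli, together
-/

set_option autoImplicit false

namespace Pool.Agent.FGA

theorem finalM : WALLM := fin_m Pool.Agent.FGP.fe18 g20e

end Pool.Agent.FGA
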