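import Pool.Agent.Lib_helper99.FGA.NoLc
import Pool.Agent.Lib_helper99.FGA.FinM

/-!
# FGA: all moduli and the prime moduli, with and without the characters of small conductor
-/

set_option autoImplicit false

namespace Pool.Agent.FGA

open Finset Pool.Agent.Var35 Pool.Agent.Var73 Pool.Agent.PV Pool.Agent.FGP
open scoped ArithmeticFunction ArithmeticFunction.Moebius

theorem nl_num (x : ℝ) (hx0 : 0 ≤ x) (hx : x ^ 2 ≤ 1 / 2) : 1 ≤ (1 - x ^ 2) * (1 + x) ^ 8 := by
  have h1 : x ≤ 1 := by nlinarith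
  have h2 : 1 ≤ (1 - x ^ 2) * (1 + x) ^ 2 := by
    have h3 : (1 - x ^ 2) * (1 + x) ^ 2 = 1 + x * (2 - 2 * x ^ 2 - x ^ 2 * x) := by ring
    rw [h3]
    have h4 : x ^ 2 * x ≤ 1 / 2 := by
      calc x ^ 2 * x ≤ 1 / 2 * 1 := by gcongr
        _ = 1 / 2 := by ring
    have h5 : 0 ≤ x * (2 - 2 * x ^ 2 - x ^ 2 * x) := mul_nonneg hx0 (by linarith)
    linarith
  have h6 : (1 + x) ^ 2 ≤ (1 + x) ^ 8 := pow_le_pow_right₀ (by linarith) (by norm_num)
  calc (1 : ℝ) ≤ (1 - x ^ 2) * (1 + x) ^ 2 := h2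
    _ ≤ _ := mul_le_mul_of_nonneg_left h6 (by linarith)

/-- `Q / φ(Q) ≤ ks(Q)^8` -/
theorem nl_ks (Q : ℕ) (_hQ : 1 ≤ Q) : (Q : ℝ) ≤ Nat.totient Q * ks Q ^ 8 := by
  have h1 : ((Nat.totient Q : ℕ) : ℝ) = Q * ∏ p ∈ Q.primeFactors, (1 - (p : ℝ)⁻¹) := by
    have h := Nat.totient_eq_mul_prod_factors Q
    have h2 : (((Nat.totient Q : ℕ) : ℚ) : ℝ) =
        ((Q * ∏ p ∈ Q.primeFactors, (1 - (p : ℚ)⁻¹) : ℚ) : ℝ) := by rw [h]
    push_cast at h2
    exact h2
  rw [h1]
  unfold ks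
  rw [← prod_pow, mul_assoc, ← prod_mul_distrib]
  apply le_mul_of_one_le_right (Nat.cast_nonneg Q)
  have h3 : ∀ p ∈ Q.primeFactors, (1 : ℝ) ≤ (1 - (p : ℝ)⁻¹) * (1 + 1 / Real.sqrt p) ^ 8 := by
    intro p hp
    have hp2 : (2 : ℝ) ≤ p := by exact_mod_cast (Nat.prime_of_mem_primeFactors hp).two_le
    have h4 : (p : ℝ)⁻¹ = (1 / Real.sqrt p) ^ 2 := by
      rw [div_pow, one_pow, Real.sq_sqrt (by linarith), one_div]
    rw [h4]
    apply nl_num _ (by positivity)
    rw [← h4, inv_eq_one_div]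
    exact one_div_le_one_div_of_le (by norm_num) hp2
  calc (1 : ℝ) = ∏ p ∈ Q.primeFactors, (1 : ℝ) := by simp
    _ ≤ _ := prod_le_prod (fun _ _ => zero_le_one) h3

/-- the mean of `1/φ` -/
theorem nl_phi (h16 : A16) : ∃ C : ℝ, 0 < C ∧ ∀ Y : ℝ, 2 ≤ Y →
    ∑ Q ∈ IR Y, 1 / (Nat.totient Q : ℝ) ≤ C := by
  obtain ⟨C, hC, h⟩ := h16
  refine ⟨2 * C, by positivity, fun Y hY => ?_⟩
  have hY0 : 0 < Y := by linarith
  have h1 : ∀ Q ∈ IR Y, 1 / (Nat.totient Q : ℝ) ≤ (1 / Y) * ks Q ^ 8 := by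
    intro Q hQ
    unfold IR at hQ
    rw [mem_filter, mem_Icc] at hQ
    obtain ⟨⟨hQ1, -⟩, hYQ⟩ := hQ
    have h2 := nl_ks Q hQ1
    have h3 : (0 : ℝ) < Nat.totient Q := by exact_mod_cast Nat.totient_pos.mpr (by omega)
    rw [div_mul_eq_mul_div, one_mul, div_le_div_iff₀ h3 hY0]
    linarith
  have hfl : 1 ≤ ⌊2 * Y⌋₊ := Nat.le_floor (by push_cast; linarith)
  calc ∑ Q ∈ IR Y, 1 / (Nat.totient Q : ℝ) ≤ ∑ Q ∈ IR Y, (1 / Y) * ks Q ^ 8 := sum_le_sum h1
    _ = (1 / Y) * ∑ Q ∈ IR Y, ks Q ^ 8 := by rw [mul_sum]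
    _ ≤ (1 / Y) * ∑ Q ∈ Icc 1 ⌊2 * Y⌋₊, ks Q ^ 8 := by
        apply mul_le_mul_of_nonneg_left _ (by positivity)
        apply sum_le_sum_of_subset_of_nonneg
        · exact filter_subset _ _
        · intro Q _ _
          have := a01_ks_ge Q
          positivity
    _ ≤ (1 / Y) * (C * (⌊2 * Y⌋₊ : ℕ)) := by
        apply mul_le_mul_of_nonneg_left (h _ hfl) (by positivity)
    _ ≤ (1 / Y) * (C * (2 * Y)) := by
        apply mul_le_mul_of_nonneg_left _ (by positivity)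
        apply mul_le_mul_of_nonneg_left _ hC.le
        exact Nat.floor_le (by linarith)
    _ = 2 * C := by
        field_simp

/-- the number of primes in `(Y, 2Y]` -/
theorem nl_qr : ∃ C : ℝ, 0 < C ∧ ∀ Y : ℝ, 10 ≤ Y → ((QR Y).card : ℝ) ≤ C * (Y / Real.log Y) := by
  obtain ⟨Cq, hCq, hcard⟩ := qq_card_pr
  refine ⟨2 * Cq, by positivity, fun Y hY => ?_⟩
  have hY0 : 0 < Y := by linarith
  have hf1 : (⌊Y⌋₊ : ℝ) ≤ Y := Nat.floor_le hY0.le
  have hf2 : Y < ⌊Y⌋₊ + 1 := Nat.lt_floor_add_one Y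
  have hsub : QR Y ⊆ QQ ⌊Y⌋₊ := by
    intro Q hQ
    unfold QR at hQ
    rw [mem_filter, mem_Icc] at hQ
    obtain ⟨⟨hQ1, hQ2⟩, hQp, hYQ⟩ := hQ
    unfold QQ
    rw [mem_filter, mem_Ioc]
    have hQ2' : (Q : ℝ) ≤ 2 * Y := le_trans (by exact_mod_cast hQ2) (Nat.floor_le (by linarith))
    refine ⟨⟨?_, ?_⟩, hQp⟩
    · have : (⌊Y⌋₊ : ℝ) < Q := by linarith
      exact_mod_cast this
    · have : (Q : ℝ) ≤ 4 * ⌊Y⌋₊ := by linarith
      exact_mod_cast this
  have h2 : 2 ≤ ⌊Y⌋₊ := Nat.le_floor (by push_cast; linarith)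
  have hlY : 0 < Real.log Y := Real.log_pos (by linarith)
  have hl : Real.log Y / 2 ≤ Real.log (⌊Y⌋₊ : ℝ) := by
    have h1 : Real.log Y ≤ Real.log ((⌊Y⌋₊ : ℝ) ^ 2) := by
      apply Real.log_le_log hY0
      nlinarith
    rw [Real.log_pow] at h1
    push_cast at h1
    linarith
  calc ((QR Y).card : ℝ) ≤ ((QQ ⌊Y⌋₊).card : ℝ) := by exact_mod_cast card_le_card hsub
    _ ≤ Cq * (⌊Y⌋₊ / Real.log ⌊Y⌋₊) := hcard _ h2
    _ ≤ Cq * (Y / (Real.log Y / 2)) := by
        apply mul_le_mul_of_nonneg_left _ hCq.le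
        apply div_le_div₀ hY0.le hf1 (by linarith) hl
    _ = 2 * Cq * (Y / Real.log Y) := by
        field_simp

/-- the special integers -/
def Spc (X : ℝ) : Prop := ∃ N : ℕ, X = N ∧
  |∑ n ∈ Icc 1 N, ArithmeticFunction.vonMangoldt n - N| ≤ (N : ℝ) ^ (3 / 4 : ℝ)

/-- all moduli and the prime moduli, with `L` and without -/
def WALLU : Prop :=
    ∃ S : Set ℕ, ¬ BddAbove S ∧ ∃ c C B : ℝ, 0 < c ∧ 0 < C ∧ 1 ≤ B ∧
    ∀ D ∈ S, ∀ X Y : ℝ, (D : ℝ) ^ B ≤ X → X ≤ Real.exp ((D : ℝ) ^ c) →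
      X * (D : ℝ) ^ (-c) ≤ Y → Y ≤ X / C →
      ∀ (T : Finset ℕ) (w t : ℝ), (T = IR Y ∧ w = Y ∧ t = 1 / Real.log X) ∨
        (T = QR Y ∧ w = Y / Real.log Y ∧ t = (D : ℝ) ^ (-c)) →
      ∀ F : ℕ → ℝ, ((∀ Q, F Q = HC.LX X Q (X / Q * Real.log X ^ 8)) ∨ ((∀ Q, F Q = 0) ∧
        (X * Real.exp (-(c * Real.log X / Real.log D)) ≤ Y ∨ (T = QR Y ∧ Spc X)))) →
      ∑ Q ∈ T, |HC.GX X Q - F Q - X * (Real.log Q - HC.CQ Q)| ≤
        C * (Real.exp (-(c * Real.log X / Real.log D)) * Real.log X + (Y / X) ^ (1 / 4 : ℝ) + t) *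
          X * w

theorem nl_ne (Y : ℝ) (hY : 10 ≤ Y) : IR Y ≠ QR Y := by
  intro h
  have hY0 : 0 ≤ Y := by linarith
  have hf1 : (⌊Y⌋₊ : ℝ) ≤ Y := Nat.floor_le hY0
  have hf2 : Y < ⌊Y⌋₊ + 1 := Nat.lt_floor_add_one Y
  have h10 : 10 ≤ ⌊Y⌋₊ := Nat.le_floor (by push_cast; linarith)
  have hmem : ∀ n : ℕ, (n = ⌊Y⌋₊ + 1 ∨ n = ⌊Y⌋₊ + 2) → n.Prime := by
    intro n hn
    have h1 : n ∈ IR Y := by
      unfold IR
      rw [mem_filter, mem_Icc]
      have h2 : (n : ℝ) ≤ 2 * Y := by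
        rcases hn with rfl | rfl <;> push_cast <;> linarith
      refine ⟨⟨by omega, Nat.le_floor h2⟩, ?_⟩
      rcases hn with rfl | rfl <;> push_cast <;> linarith
    rw [h] at h1
    unfold QR at h1
    rw [mem_filter] at h1
    exact h1.2.1
  have h1 := (hmem _ (Or.inl rfl)).eq_two_or_odd
  have h2 := (hmem _ (Or.inr rfl)).eq_two_or_odd
  omega

set_option maxHeartbeats 4000000 in
theorem wallu_pr (h18 : E18) (h20 : ∀ c₁ : ℝ, 0 < c₁ → A20E c₁) (hL : ∀ c₁ : ℝ, 0 < c₁ → LXE c₁)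
    (h16 : A16) : WALLU := by
  obtain ⟨c₁, hc₁, hfreq⟩ := Pool.Agent.GA.good_frequently
  obtain ⟨ca, Ca, Ba, Xa, hca, hCa, hBa, hXa, ha⟩ := mono_pr (h20 c₁ hc₁)
  obtain ⟨cb, Cb, Bb, Xb, hcb, hCb, hBb, hXb, hb⟩ := mono_lev (lev_pr h18 c₁ hc₁)
  obtain ⟨cl, Cl, Bl, Xl, hcl, hCl, hBl, hl⟩ := hL c₁ hc₁
  obtain ⟨Cp, hCp, hphi⟩ := nl_phi h16
  obtain ⟨Cq, hCq, hqr⟩ := nl_qr
  obtain ⟨X₁, hX₁⟩ := a20_X 1 1 one_pos
  set c : ℝ := min (min ca (cb / 2)) (min (cl / 2) (1 / 2)) with hc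
  have hc0 : 0 < c := lt_min (lt_min hca (by positivity)) (lt_min (by positivity) (by norm_num))
  have hcA : c ≤ ca := (min_le_left _ _).trans (min_le_left _ _)
  have hcB : 2 * c ≤ cb := by
    have : c ≤ cb / 2 := (min_le_left _ _).trans (min_le_right _ _)
    linarith
  have hcL : 2 * c ≤ cl := by
    have : c ≤ cl / 2 := (min_le_right _ _).trans (min_le_left _ _)
    linarith
  have hcC : c ≤ 1 / 2 := (min_le_right _ _).trans (min_le_right _ _)
  set B : ℝ := max (max Ba Bb) (max Bl 60) with hB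
  have hBA : Ba ≤ B := (le_max_left _ _).trans (le_max_left _ _)
  have hBB : Bb ≤ B := (le_max_right _ _).trans (le_max_left _ _)
  have hBL : Bl ≤ B := (le_max_left _ _).trans (le_max_right _ _)
  have hB60 : 60 ≤ B := (le_max_right _ _).trans (le_max_right _ _)
  have hkA : 0 < Ca + Cb + Cl * Cp + 4 * Cl * Cq + Cb * Cq + 2 := by positivity
  set C : ℝ := Ca + Cb + Cl * Cp + 4 * Cl * Cq + Cb * Cq + 2 with hC
  have hC2 : 2 ≤ C := by
    have : 0 < Ca + Cb + Cl * Cp + 4 * Cl * Cq + Cb * Cq := by positivity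
    linarith
  refine ⟨{D | Pool.Agent.GA.Good c₁ D ∧ max (max Xa Xb) (max Xl X₁) ≤ (D : ℝ)}, ?_, c, C, B, hc0,
    hkA, by linarith, ?_⟩
  · rintro ⟨b, hb'⟩
    obtain ⟨n₀, hn₀⟩ := exists_nat_ge (max (max Xa Xb) (max Xl X₁))
    obtain ⟨D, hD, hgood⟩ := Filter.frequently_atTop.1 hfreq (max n₀ (b + 1))
    have h1 : n₀ ≤ D := (le_max_left _ _).trans hD
    have h2 : b + 1 ≤ D := (le_max_right _ _).trans hD
    have h3 : max (max Xa Xb) (max Xl X₁) ≤ (D : ℝ) := hn₀.trans (by exact_mod_cast h1)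
    have h4 : D ∈ {D : ℕ | Pool.Agent.GA.Good c₁ D ∧ max (max Xa Xb) (max Xl X₁) ≤ (D : ℝ)} :=
      ⟨hgood, h3⟩
    have := hb' h4
    omega
  intro D hD X Y hX hX2 hY hYX T w t hT F hF
  obtain ⟨hgood, hDD⟩ := hD
  have hDa : Xa ≤ D := ((le_max_left _ _).trans (le_max_left _ _)).trans hDD
  have hDb : Xb ≤ D := ((le_max_right _ _).trans (le_max_left _ _)).trans hDD
  have hDl : Xl ≤ D := ((le_max_left _ _).trans (le_max_right _ _)).trans hDD
  have hDc : X₁ ≤ D := ((le_max_right _ _).trans (le_max_right _ _)).trans hDD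
  have hD2 : (2 : ℝ) ≤ D := hXa.trans hDa
  have hD1 : (1 : ℝ) ≤ D := by linarith
  have hDp : (0 : ℝ) < D := by linarith
  have hD60 : (D : ℝ) ^ (60 : ℝ) ≤ X :=
    (Real.rpow_le_rpow_of_exponent_le (by linarith) hB60).trans hX
  have hXD : (D : ℝ) ≤ X := by
    calc (D : ℝ) = (D : ℝ) ^ (1 : ℝ) := (Real.rpow_one _).symm
      _ ≤ (D : ℝ) ^ (60 : ℝ) := Real.rpow_le_rpow_of_exponent_le (by linarith) (by norm_num)
      _ ≤ X := hD60
  obtain ⟨x1, x2, x3, x4, x5⟩ := hX₁ X (hDc.trans hXD)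
  have hX0 : 0 < X := by linarith
  have hY0 : 0 < Y := lt_of_lt_of_le (by positivity) hY
  have hCY : C * Y ≤ X := by
    rw [le_div_iff₀ (by linarith)] at hYX
    linarith
  have hY2 : Y ≤ X / 2 := by
    rw [le_div_iff₀ (by norm_num)]
    have : 2 * Y ≤ C * Y := by gcongr
    linarith
  -- `Y ≥ X^(59/60)`
  have hY59 : X ^ (59 / 60 : ℝ) ≤ Y := by
    refine le_trans ?_ hY
    have h1 : (D : ℝ) ^ c ≤ X ^ (1 / 60 : ℝ) := by
      calc (D : ℝ) ^ c ≤ (D : ℝ) ^ (1 : ℝ) :=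
            Real.rpow_le_rpow_of_exponent_le (by linarith) (by linarith)
        _ = ((D : ℝ) ^ (60 : ℝ)) ^ (1 / 60 : ℝ) := by
            rw [← Real.rpow_mul hDp.le]
            norm_num
        _ ≤ X ^ (1 / 60 : ℝ) := Real.rpow_le_rpow (by positivity) hD60 (by norm_num)
    have hDc0 := Real.rpow_pos_of_pos hDp c
    rw [Real.rpow_neg hDp.le, ← div_eq_mul_inv, le_div_iff₀ hDc0]
    calc X ^ (59 / 60 : ℝ) * (D : ℝ) ^ c ≤ X ^ (59 / 60 : ℝ) * X ^ (1 / 60 : ℝ) := by
          have := Real.rpow_pos_of_pos hX0 (59 / 60)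
          gcongr
      _ = X := by
          rw [← Real.rpow_add hX0]; norm_num
  have hsq : Real.sqrt X * Real.log X ^ 12 ≤ Y / 2 := by linarith
  have hY10 : 10 ≤ Y := by
    have h1 : 10 ≤ Real.sqrt X := by
      apply Real.le_sqrt_of_sq_le
      linarith
    have h2 : 1 ≤ Real.log X ^ 12 := one_le_pow₀ (by linarith)
    have h3 : Real.sqrt X ≤ Real.sqrt X * Real.log X ^ 12 :=
      le_mul_of_one_le_right (by positivity) h2
    linarith
  have hY1 : 1 < Y := by linarith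
  have hlX : 0 < Real.log X := by linarith
  have hlY : 0 < Real.log Y := Real.log_pos hY1
  have hlD : 0 < Real.log (D : ℝ) := Real.log_pos (by linarith)
  -- the quantities
  set e : ℝ := Real.exp (-(c * Real.log X / Real.log D)) with he
  have he0 : 0 < e := Real.exp_pos _
  set θ : ℝ := (Y / X) ^ (1 / 4 : ℝ) with hθ
  have hθ0 : 0 ≤ θ := by positivity
  set d : ℝ := (D : ℝ) ^ (-c) with hd
  have hd0 : 0 < d := Real.rpow_pos_of_pos hDp _
  have hlXD : Real.log X ≤ (D : ℝ) ^ c := by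
    rw [Real.log_le_iff_le_exp hX0]; exact hX2
  have hdl : d * Real.log X ≤ 1 := by
    calc d * Real.log X ≤ d * (D : ℝ) ^ c := by gcongr
      _ = 1 := by rw [hd, ← Real.rpow_add hDp]; simp
  have hdL : d ≤ 1 / Real.log X := by
    rw [le_div_iff₀ hlX]
    exact hdl
  have hd2 : ∀ c' : ℝ, 2 * c ≤ c' → (D : ℝ) ^ (-c') ≤ d * d := by
    intro c' hc'
    rw [hd, ← Real.rpow_add hDp]
    exact Real.rpow_le_rpow_of_exponent_le hD1 (by linarith)
  have he2 : ∀ c' : ℝ, 2 * c ≤ c' → Real.exp (-(c' * Real.log X / Real.log D)) ≤ e * e := by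
    intro c' hc'
    rw [he, ← Real.exp_add]
    apply Real.exp_le_exp.2
    have h1 : 2 * c * Real.log X / Real.log D ≤ c' * Real.log X / Real.log D := by
      apply div_le_div_of_nonneg_right _ hlD.le
      gcongr
    have h2 : 2 * c * Real.log X / Real.log D = c * Real.log X / Real.log D +
      c * Real.log X / Real.log D := by ring
    linarith
  have he1 : e ≤ 1 := by
    rw [he]
    apply Real.exp_le_one_iff.2
    have : 0 < c * Real.log X / Real.log D := by positivity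
    linarith
  have hd1 : d ≤ 1 := by
    refine hdL.trans ?_
    rw [div_le_one hlX]
    linarith
  -- membership
  have hIR : ∀ Q ∈ IR Y, 1 ≤ Q ∧ Y < Q ∧ (Q : ℝ) ≤ 2 * Y := by
    intro Q hQ
    unfold IR at hQ
    rw [mem_filter, mem_Icc] at hQ
    obtain ⟨⟨hQ1, hQ2⟩, hYQ⟩ := hQ
    exact ⟨hQ1, hYQ, le_trans (by exact_mod_cast hQ2) (Nat.floor_le (by linarith))⟩
  have hsub : QR Y ⊆ IR Y := by
    intro Q hQ
    unfold QR at hQ
    rw [mem_filter, mem_Icc] at hQ
    unfold IR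
    rw [mem_filter, mem_Icc]
    exact ⟨hQ.1, hQ.2.2⟩
  -- the part `L`
  have hLX0 : ∀ Q ∈ IR Y, HC.LX X Q (X / Q * Real.log X ^ 8) ≤
      Cl * (e * e + d * d) * X ^ 2 * (1 / (Nat.totient Q : ℝ)) := by
    intro Q hQ
    have hcc : c ≤ cl := by linarith
    refine (hl D hgood hDl X Y ?_ ?_ ?_ hY2 Q hQ).trans ?_
    · exact (Real.rpow_le_rpow_of_exponent_le hD1 hBL).trans hX
    · exact hX2.trans (Real.exp_le_exp.2 (Real.rpow_le_rpow_of_exponent_le hD1 hcc))
    · refine le_trans ?_ hY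
      rw [hd]
      gcongr
    · have h1 := hd2 cl hcL
      have h2 := he2 cl hcL
      gcongr
  have hLnn : ∀ Q, 0 ≤ HC.LX X Q (X / Q * Real.log X ^ 8) := by
    intro Q
    unfold HC.LX
    apply mul_nonneg (by positivity)
    apply sum_nonneg
    intro χ _
    split_ifs <;> positivity
  -- without `L`: the additional error
  have hXe : X * e ≤ Y → X ^ 2 * (e * e + d * d) ≤ X * Y * (e + d) := by
    intro h
    have h1 : X * d ≤ Y := hY
    have h2 : X ^ 2 * (e * e) ≤ X * Y * e := by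
      calc X ^ 2 * (e * e) = X * (X * e) * e := by ring
        _ ≤ X * Y * e := by gcongr
    have h3 : X ^ 2 * (d * d) ≤ X * Y * d := by
      calc X ^ 2 * (d * d) = X * (X * d) * d := by ring
        _ ≤ X * Y * d := by gcongr
    calc X ^ 2 * (e * e + d * d) = X ^ 2 * (e * e) + X ^ 2 * (d * d) := by ring
      _ ≤ X * Y * e + X * Y * d := add_le_add h2 h3
      _ = _ := by ring
  -- from a bound with `L` to a bound without `L`
  have hdrop : ∀ (T' : Finset ℕ) (b s : ℝ), T' ⊆ IR Y → X * e ≤ Y →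
      ∑ Q ∈ T', 1 / (Nat.totient Q : ℝ) ≤ s →
      ∑ Q ∈ T', |HC.GX X Q - HC.LX X Q (X / Q * Real.log X ^ 8) - X * (Real.log Q - HC.CQ Q)| ≤ b →
      ∑ Q ∈ T', |HC.GX X Q - X * (Real.log Q - HC.CQ Q)| ≤ b + Cl * (X * Y * (e + d)) * s := by
    intro T' b s hT' hXY hs hb'
    have h1 : ∀ Q ∈ T', |HC.GX X Q - X * (Real.log Q - HC.CQ Q)| ≤
        |HC.GX X Q - HC.LX X Q (X / Q * Real.log X ^ 8) - X * (Real.log Q - HC.CQ Q)| +
          Cl * (X * Y * (e + d)) * (1 / (Nat.totient Q : ℝ)) := by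
      intro Q hQ
      have h2 : HC.GX X Q - X * (Real.log Q - HC.CQ Q) =
          (HC.GX X Q - HC.LX X Q (X / Q * Real.log X ^ 8) - X * (Real.log Q - HC.CQ Q)) +
          HC.LX X Q (X / Q * Real.log X ^ 8) := by ring
      rw [h2]
      refine (abs_add_le _ _).trans (add_le_add le_rfl ?_)
      rw [abs_of_nonneg (hLnn Q)]
      refine (hLX0 Q (hT' hQ)).trans ?_
      have h3 : 0 ≤ 1 / (Nat.totient Q : ℝ) := by positivity
      apply mul_le_mul_of_nonneg_right _ h3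
      calc Cl * (e * e + d * d) * X ^ 2 = Cl * (X ^ 2 * (e * e + d * d)) := by ring
        _ ≤ Cl * (X * Y * (e + d)) := mul_le_mul_of_nonneg_left (hXe hXY) hCl.le
    refine (sum_le_sum h1).trans ?_
    rw [sum_add_distrib, ← mul_sum]
    have h4 : 0 ≤ Cl * (X * Y * (e + d)) := by positivity
    have h5 := mul_le_mul_of_nonneg_left hs h4
    linarith
  have hCa1 : Ca ≤ C := by
    have : 0 < Cb + Cl * Cp + 4 * Cl * Cq + Cb * Cq + 2 := by positivity
    rw [hC]; linarith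
  have hel : e ≤ e * Real.log X := le_mul_of_one_le_right he0.le (by linarith)
  have hl0 : 0 ≤ 1 / Real.log X := by positivity
  have hel0 : 0 ≤ e * Real.log X := by positivity
  have hXY0 : 0 ≤ X * Y := by positivity
  rcases hT with ⟨rfl, rfl, rfl⟩ | ⟨rfl, rfl, rfl⟩
  · -- all moduli
    have hA := ha c Ca B hc0 hcA le_rfl hBA D hgood hDa X w hX hX2 hY
      ((mul_le_mul_of_nonneg_right hCa1 hY0.le).trans hCY)
    rcases hF with hF | ⟨hF, hF2⟩
    · have h1 : ∑ Q ∈ IR w, |HC.GX X Q - F Q - X * (Real.log Q - HC.CQ Q)| =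
          ∑ Q ∈ IR w, |HC.GX X Q - HC.LX X Q (X / Q * Real.log X ^ 8) -
            X * (Real.log Q - HC.CQ Q)| := sum_congr rfl fun Q _ => by rw [hF Q]
      rw [h1]
      refine hA.trans ?_
      gcongr
    · have h1 : ∑ Q ∈ IR w, |HC.GX X Q - F Q - X * (Real.log Q - HC.CQ Q)| =
          ∑ Q ∈ IR w, |HC.GX X Q - X * (Real.log Q - HC.CQ Q)| :=
        sum_congr rfl fun Q _ => by rw [hF Q, sub_zero]
      rw [h1]
      have hXY : X * e ≤ w := by
        rcases hF2 with h | ⟨h, -⟩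
        · exact h
        · exact absurd h (nl_ne w hY10)
      have h2 := hdrop (IR w) _ Cp Subset.rfl hXY (hphi w (by linarith)) hA
      refine h2.trans ?_
      have h3 : Cl * (X * w * (e + d)) * Cp ≤
          Cl * Cp * (e * Real.log X + θ + 1 / Real.log X) * X * w := by
        calc Cl * (X * w * (e + d)) * Cp = Cl * Cp * (e + d) * X * w := by ring
          _ ≤ Cl * Cp * (e * Real.log X + θ + 1 / Real.log X) * X * w := by
              have : e + d ≤ e * Real.log X + θ + 1 / Real.log X := by linarith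
              gcongr
      calc _ ≤ Ca * (e * Real.log X + θ + 1 / Real.log X) * X * w +
          Cl * Cp * (e * Real.log X + θ + 1 / Real.log X) * X * w := add_le_add le_rfl h3
        _ = (Ca + Cl * Cp) * ((e * Real.log X + θ + 1 / Real.log X) * X * w) := by ring
        _ ≤ C * ((e * Real.log X + θ + 1 / Real.log X) * X * w) := by
            apply mul_le_mul_of_nonneg_right _ (by positivity)
            have : 0 < Cb + 4 * Cl * Cq + Cb * Cq + 2 := by positivity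
            rw [hC]; linarith
        _ = _ := by ring
  · -- the primes
    obtain ⟨hb1, hb2⟩ := hb (2 * c) Cb B (by positivity) hcB le_rfl hBB D hgood hDb
    set w : ℝ := Y / Real.log Y with hw
    have hw0 : 0 < w := by positivity
    have hX2' : X ≤ Real.exp ((D : ℝ) ^ (2 * c)) := by
      refine hX2.trans (Real.exp_le_exp.2 ?_)
      exact Real.rpow_le_rpow_of_exponent_le hD1 (by linarith)
    have hY' : X * (D : ℝ) ^ (-(2 * c)) ≤ Y := by
      refine le_trans ?_ hY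
      rw [hd]
      apply mul_le_mul_of_nonneg_left _ hX0.le
      exact Real.rpow_le_rpow_of_exponent_le hD1 (by linarith)
    have hcard : ((QR Y).card : ℝ) ≤ Cq * w := hqr Y hY10
    -- from the truncated sum to the sum
    have hmax : ∀ f : ℕ → ℝ, ∑ Q ∈ QR Y, max 0 (|f Q| - Cb * X * θ) ≤
        Cb * (Real.exp (-(2 * c * Real.log X / Real.log D)) + (D : ℝ) ^ (-(2 * c))) *
          Real.log X * X * w →
        ∑ Q ∈ QR Y, |f Q| ≤ (Cb + Cb * Cq) * (e * Real.log X + θ + d) * X * w := by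
      intro f hf
      have h1 : ∀ Q ∈ QR Y, |f Q| ≤ max 0 (|f Q| - Cb * X * θ) + Cb * X * θ := by
        intro Q _
        have := le_max_right 0 (|f Q| - Cb * X * θ)
        linarith
      refine (sum_le_sum h1).trans ?_
      rw [sum_add_distrib, sum_const, nsmul_eq_mul]
      have h2 : ((QR Y).card : ℝ) * (Cb * X * θ) ≤ Cq * w * (Cb * X * θ) := by gcongr
      have h3 : Cb * (Real.exp (-(2 * c * Real.log X / Real.log D)) + (D : ℝ) ^ (-(2 * c))) *
          Real.log X * X * w ≤ Cb * (e * Real.log X + d) * X * w := by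
        have h4 := hd2 (2 * c) le_rfl
        have h5 := he2 (2 * c) le_rfl
        have h6 : (Real.exp (-(2 * c * Real.log X / Real.log D)) + (D : ℝ) ^ (-(2 * c))) *
            Real.log X ≤ e * Real.log X + d := by
          calc (Real.exp (-(2 * c * Real.log X / Real.log D)) + (D : ℝ) ^ (-(2 * c))) *
              Real.log X ≤ (e * e + d * d) * Real.log X := by gcongr
            _ = e * (e * Real.log X) + d * (d * Real.log X) := by ring
            _ ≤ 1 * (e * Real.log X) + d * 1 := by gcongr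
            _ = _ := by ring
        calc Cb * (Real.exp (-(2 * c * Real.log X / Real.log D)) + (D : ℝ) ^ (-(2 * c))) *
            Real.log X * X * w = Cb * ((Real.exp (-(2 * c * Real.log X / Real.log D)) +
              (D : ℝ) ^ (-(2 * c))) * Real.log X) * X * w := by ring
          _ ≤ _ := by gcongr
      calc _ ≤ Cb * (e * Real.log X + d) * X * w + Cq * w * (Cb * X * θ) :=
            add_le_add (hf.trans h3) h2
        _ = Cb * (e * Real.log X + d) * X * w + Cb * Cq * θ * X * w := by ring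
        _ ≤ Cb * (e * Real.log X + θ + d) * X * w +
            Cb * Cq * (e * Real.log X + θ + d) * X * w := by
            have h7 : e * Real.log X + d ≤ e * Real.log X + θ + d := by linarith
            have h8 : θ ≤ e * Real.log X + θ + d := by linarith
            gcongr
        _ = _ := by ring
    -- for primes `L = P`
    have hLP : ∀ Q ∈ QR Y, HC.LX X Q (X / Q * Real.log X ^ 8) = PV0 X Q := by
      intro Q hQ
      obtain ⟨hQ1, hYQ, hQ2⟩ := hIR Q (hsub hQ)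
      have hQp : Q.Prime := by
        unfold QR at hQ
        rw [mem_filter] at hQ
        exact hQ.2.1
      have hQ0 : (0 : ℝ) < Q := by linarith
      have hQX : (Q : ℝ) ≤ X := by linarith
      apply prim_lx X Q hQp
      · have h1 : 1 ≤ X / Q := by rwa [le_div_iff₀ hQ0, one_mul]
        have h2 : 1 ≤ Real.log X ^ 8 := one_le_pow₀ (by linarith)
        nlinarith
      · rw [div_mul_eq_mul_div, div_lt_iff₀ hQ0]
        have h1 : Real.log X ^ 8 ≤ Real.log X ^ 12 := pow_le_pow_right₀ (by linarith) (by norm_num)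
        have h2 : 1 ≤ Real.log X ^ 12 := one_le_pow₀ (by linarith)
        have h3 : Real.sqrt X * Real.log X ^ 12 < Y := by linarith
        have h5 : X * Real.log X ^ 8 ≤ (Real.sqrt X * Real.log X ^ 12) ^ 2 := by
          rw [mul_pow, Real.sq_sqrt hX0.le]
          have h6 : Real.log X ^ 12 ≤ (Real.log X ^ 12) ^ 2 := by nlinarith
          have h7 : Real.log X ^ 8 ≤ (Real.log X ^ 12) ^ 2 := h1.trans h6
          gcongr
        calc X * Real.log X ^ 8 ≤ (Real.sqrt X * Real.log X ^ 12) ^ 2 := h5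
          _ < Y ^ 2 := by
              have h8 : 0 ≤ Real.sqrt X * Real.log X ^ 12 := by positivity
              gcongr
          _ = Y * Y := sq Y
          _ ≤ Q * Q := by gcongr
    have hM : ∀ Q : ℕ, X * (Real.log Q - HC.CQ Q) = MTQ X Q := fun Q => rfl
    -- the bound with `L`
    have hL1 : ∑ Q ∈ QR Y, |HC.GX X Q - HC.LX X Q (X / Q * Real.log X ^ 8) -
        X * (Real.log Q - HC.CQ Q)| ≤ (Cb + Cb * Cq) * (e * Real.log X + θ + d) * X * w := by
      apply hmax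
      refine le_trans (le_of_eq ?_) (hb1 X Y ?_ hX2' hY' hY2 hY1)
      · refine sum_congr rfl fun Q hQ => ?_
        rw [hLP Q hQ, hM Q, prim_gx]
      · exact hX
    have hfin : ∀ s : ℝ, s ≤ (Cb + Cb * Cq) * (e * Real.log X + θ + d) * X * w +
        2 * Cl * Cq * (e + d) * X * w →
        s ≤ C * (e * Real.log X + θ + d) * X * w := by
      intro s hs
      refine hs.trans ?_
      calc _ ≤ (Cb + Cb * Cq) * (e * Real.log X + θ + d) * X * w +
            2 * Cl * Cq * (e * Real.log X + θ + d) * X * w := by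
            have : e + d ≤ e * Real.log X + θ + d := by linarith
            gcongr
        _ = (Cb + Cb * Cq + 2 * Cl * Cq) * ((e * Real.log X + θ + d) * X * w) := by ring
        _ ≤ C * ((e * Real.log X + θ + d) * X * w) := by
            apply mul_le_mul_of_nonneg_right _ (by positivity)
            have : 0 < Ca + Cl * Cp + 2 * Cl * Cq + 2 := by positivity
            rw [hC]; linarith
        _ = _ := by ring
    have hpos : 0 ≤ 2 * Cl * Cq * (e + d) * X * w := by positivity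
    rcases hF with hF | ⟨hF, hF2⟩
    · have h1 : ∑ Q ∈ QR Y, |HC.GX X Q - F Q - X * (Real.log Q - HC.CQ Q)| =
          ∑ Q ∈ QR Y, |HC.GX X Q - HC.LX X Q (X / Q * Real.log X ^ 8) -
            X * (Real.log Q - HC.CQ Q)| := sum_congr rfl fun Q _ => by rw [hF Q]
      rw [h1]
      exact hfin _ (by linarith)
    · have h1 : ∑ Q ∈ QR Y, |HC.GX X Q - F Q - X * (Real.log Q - HC.CQ Q)| =
          ∑ Q ∈ QR Y, |HC.GX X Q - X * (Real.log Q - HC.CQ Q)| :=
        sum_congr rfl fun Q _ => by rw [hF Q, sub_zero]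
      rw [h1]
      apply hfin
      rcases hF2 with hXY | ⟨-, N, hXN, hN⟩
      · have hs : ∑ Q ∈ QR Y, 1 / (Nat.totient Q : ℝ) ≤ 2 * Cq * w / Y := by
          have h2 : ∀ Q ∈ QR Y, 1 / (Nat.totient Q : ℝ) ≤ 2 / Y := by
            intro Q hQ
            obtain ⟨hQ1, hYQ, hQ2⟩ := hIR Q (hsub hQ)
            have hQp : Q.Prime := by
              unfold QR at hQ
              rw [mem_filter] at hQ
              exact hQ.2.1
            have h3 : (Nat.totient Q : ℝ) = Q - 1 := by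
              rw [Nat.totient_prime hQp, Nat.cast_sub hQ1, Nat.cast_one]
            rw [h3, div_le_div_iff₀ (by linarith) hY0]
            linarith
          calc ∑ Q ∈ QR Y, 1 / (Nat.totient Q : ℝ) ≤ ∑ Q ∈ QR Y, 2 / Y := sum_le_sum h2
            _ = (QR Y).card * (2 / Y) := by rw [sum_const, nsmul_eq_mul]
            _ ≤ Cq * w * (2 / Y) := by gcongr
            _ = _ := by ring
        refine (hdrop (QR Y) _ _ hsub hXY hs hL1).trans (le_of_eq ?_)
        congr 1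
        field_simp
      · subst hXN
        have h2 := hmax (fun Q => HC.GX N Q - N * (Real.log Q - HC.CQ Q)) (by
          refine le_trans (le_of_eq ?_) (hb2 N hX hX2' hN Y hY' hY2 hY1)
          refine sum_congr rfl fun Q hQ => ?_
          rw [hM Q, prim_gx])
        linarith

end Pool.Agent.FGA
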