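import Pool.Agent.Lib_helper99.FGA.FinalM
import Pool.Agent.Lib_helper99.FGA.NoLd

/-!
# FGA: final statement
-/

set_option autoImplicit false

namespace Pool.Agent.FGA

theorem finalU : WALLU :=
  wallu_pr Pool.Agent.FGP.fe18 g20e (lxe_pr Pool.Agent.FGP.f01 Pool.Agent.FGP.f03b) A16_pr

end Pool.Agent.FGA
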