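import Pool.Agent.Lib_helper99.FGA.Wanted

/-!
# FGA-E: effective forms of the blocks A13, A14, A15, A18a, A18b, A19, A20 (no `η`)
-/

set_option autoImplicit false

namespace Pool.Agent.FGA

open Finset Pool.Agent.Var35 Pool.Agent.Var73 Pool.Agent.PV Pool.Agent.FGP
open scoped ArithmeticFunction ArithmeticFunction.Moebius

/-- A13E : `Ps1` with a power saving (E14d of helper3's `WantedE`) -/
def A13E : Prop := ∃ C : ℝ, 0 < C ∧ ∀ x : ℝ, 0 < x → |Ps1 x - M1 x| ≤ C * x ^ (3 / 4 : ℝ)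

/-- A14E : as `A14`, with `A13E` instead of `A13` (model: FGA_A14_helper25.lean with `η = 0`) -/
def A14E : Prop := ∀ C2 : ℝ, IsC2 C2 → ∃ C : ℝ, 0 < C ∧
  ∀ (M : ℕ) (y : ℝ), 1 ≤ M → 2 ∣ M → 0 < y →
  |GM C2 M * ∑ k ∈ Icc 1 ⌊y⌋₊, (y - k) * FM M k -
      ((M / Nat.totient M : ℝ) * y ^ 2 / 2 - y / 2 * (Real.log y + HC.CQ M - 1))| ≤
    C * y ^ (3 / 4 : ℝ) * ks M ^ 4

/-- A15E : as `A15`, from `W14a`, `A08`, `A09`, `A14E`. `2 Q C (N/Q)^(3/4) = 2 C N (Q/N)^(1/4)`; the truncation costs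
`C N ks(Q)² z² / √K`, `z = N/Q`, `z ^ 16 ≤ K`. -/
def A15E : Prop := ∃ C : ℝ, 0 < C ∧ ∀ N K Q : ℕ, 1 ≤ Q → Q ≤ N → N ^ 16 ≤ Q ^ 16 * K →
  |2 * ∑ k ∈ Icc 1 (N / Q), SK K (k * Q) * ((N : ℝ) - k * Q) -
      ((N : ℝ) ^ 2 / Nat.totient Q - N * (Real.log ((N : ℝ) / Q) + HC.CQ Q - 1))| ≤
    C * N * ((Q : ℝ) / N) ^ (1 / 4 : ℝ) * ks Q ^ 4

/-- A18aE : as `A18a`; the proof FGA_A18a_helper61.lean gives it -/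
def A18aE : Prop := ∃ C : ℝ, 0 < C ∧ ∀ (X : ℝ) (Y : ℕ), C ≤ X →
  Real.sqrt X * Real.log X ^ 12 ≤ Y → C * Y ≤ X →
  ∑ Q ∈ MQ Y, |HC.HH X Q (X / Q * Real.log X ^ 8) -
      (1 / (Q : ℝ)) * ∑ l ∈ (range Q).filter (fun l : ℕ =>
        ⌊X / (4 * Y) * Real.log X ^ 8⌋₊ < HC.den l Q), HC.Sq HC.Lam ⌊X⌋₊ (l / Q)| ≤
    C * X * Y / Real.log X

/-- A18bE : as `A18b` -/
def A18bE : Prop := ∃ N0 : ℕ, ∀ N ≥ N0, ∀ Q R : ℕ, N ^ 9 ≤ Q ^ 10 → Q ≤ 4 * N →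
  |(1 / (Q : ℝ)) * ∑ l ∈ (range Q).filter (fun l : ℕ => R < HC.den l Q), HC.Sq HC.Lam N (l / Q) -
      VP (Ps N) Q R| ≤ N / Real.log N

/-- A15w : second moment without the prime number theorem (E15 of helper3's `WantedE`) -/
def A15w : Prop := ∃ C : ℝ, 0 < C ∧ ∃ K0 : ℕ, ∀ K ≥ K0, ∀ N, Rg K N → EE N K ≤ N →
  |A2 N - (N * Real.log N - N)| ≤ C * Real.log N * (Real.sqrt (N * EE N K) + N / K)

/-- A19E : as `A19` -/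
def A19E : Prop := ∀ c₁ : ℝ, 0 < c₁ → ∃ C c B : ℝ, 0 < C ∧ 0 < c ∧ 1 ≤ B ∧
  ∃ K0 : ℕ, ∀ K ≥ K0, ∀ N D : ℕ, Rg K N → Pool.Agent.GA.Good c₁ D → K ^ 20 ≤ D → (D : ℝ) ^ B ≤ N →
  ∀ Y, RY K N Y → 4 * Y ≤ N → ∀ R : ℕ, R ≤ K → N * Real.log N ^ 7 ≤ (R : ℝ) * Y →
  ∑ Q ∈ MQ Y, |VP (Ps N) Q R - N * (Real.log Q - HC.CQ Q)| ≤
    C * (Real.exp (-(c * Real.log N / Real.log D)) * Real.log N + ((Y : ℝ) / N) ^ (1 / 4 : ℝ) +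
      1 / Real.log N) * N * Y

/-- A20E : the final estimate for one good level -/
def A20E (c₁ : ℝ) : Prop := ∃ c C B X₀ : ℝ, 0 < c ∧ 0 < C ∧ 1 ≤ B ∧
  ∀ D : ℕ, Pool.Agent.GA.Good c₁ D → X₀ ≤ D → ∀ X Y : ℝ, (D : ℝ) ^ B ≤ X →
    X ≤ Real.exp ((D : ℝ) ^ c) → X * (D : ℝ) ^ (-c) ≤ Y → C * Y ≤ X →
    ∑ Q ∈ IR Y, |HC.GX X Q - HC.LX X Q (X / Q * Real.log X ^ 8) - X * (Real.log Q - HC.CQ Q)| ≤
      C * (Real.exp (-(c * Real.log X / Real.log D)) * Real.log X + (Y / X) ^ (1 / 4 : ℝ) +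
        1 / Real.log X) * X * Y

end Pool.Agent.FGA
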