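import Pool.Agent.Lib_helper99.FGA.Basic
import Pool.Agent.Lib_helper99.FGA.WantedE

/-!
# FGA: the characters of small conductor, from the energy
-/

set_option autoImplicit false

namespace Pool.Agent.FGA

open Finset Pool.Agent.Var35 Pool.Agent.Var73 Pool.Agent.PV Pool.Agent.FGP
open scoped ArithmeticFunction ArithmeticFunction.Moebius

/-- the translates of the window sum to `1` -/
theorem nl_win (N K : ℕ) (h : ∑ m ∈ Iw N K, vw N K m = 1) (p : ℤ) (hp1 : 1 ≤ p) (hp2 : p ≤ N) :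
    ∑ n ∈ Icc (1 - (Mw N K : ℤ)) ((N : ℤ) + Mw N K), vw N K (p - n) = 1 := by
  rw [← h]
  symm
  apply Finset.sum_of_injOn (fun m => p - m)
  · intro a _ b _ hab
    simp only at hab
    omega
  · intro m hm
    unfold Iw at hm
    rw [mem_coe, mem_Icc] at hm
    rw [mem_coe, mem_Icc]
    show 1 - (Mw N K : ℤ) ≤ p - m ∧ p - m ≤ (N : ℤ) + Mw N K
    constructor <;> omega
  · intro n _ hn
    unfold vw
    rw [if_neg]
    intro hm
    apply hn
    rw [Set.mem_image]
    exact ⟨p - n, hm, by ring⟩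
  · intro m _
    congr 1
    ring

/-- the sum of the twisted window sums -/
theorem nl_TS {q : ℕ} (ψ : DirichletCharacter ℂ q) (N K : ℕ) (h : ∑ m ∈ Iw N K, vw N K m = 1) :
    ∑ n ∈ Icc (1 - (Mw N K : ℤ)) ((N : ℤ) + Mw N K), TS ψ N K n =
      ∑ p ∈ Icc 1 N, ((aS N p : ℝ) : ℂ) * ψ (p : ZMod q) := by
  unfold TS
  rw [sum_comm]
  refine sum_congr rfl fun p hp => ?_
  rw [mem_Icc] at hp
  have h1 := nl_win N K h (p : ℤ) (by exact_mod_cast hp.1) (by exact_mod_cast hp.2)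
  rw [← sum_mul, ← Complex.ofReal_sum, ← mul_sum, h1, mul_one]

theorem nl_T0 (N K : ℕ) (h : ∑ m ∈ Iw N K, vw N K m = 1) :
    ∑ n ∈ Icc (1 - (Mw N K : ℤ)) ((N : ℤ) + Mw N K), T0 N K n = ∑ p ∈ Icc 1 N, aS N p - N := by
  unfold T0
  rw [sum_sub_distrib, sum_comm]
  congr 1
  · refine sum_congr rfl fun p hp => ?_
    rw [mem_Icc] at hp
    have h1 := nl_win N K h (p : ℤ) (by exact_mod_cast hp.1) (by exact_mod_cast hp.2)
    rw [← mul_sum, h1, mul_one]
  · rw [sum_comm]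
    have h2 : ∀ m ∈ Icc 1 N, ∑ n ∈ Icc (1 - (Mw N K : ℤ)) ((N : ℤ) + Mw N K),
        vw N K ((m : ℤ) - n) = 1 := by
      intro m hm
      rw [mem_Icc] at hm
      exact nl_win N K h (m : ℤ) (by exact_mod_cast hm.1) (by exact_mod_cast hm.2)
    rw [sum_congr rfl h2]
    simp

/-- mean square of the character sums of small conductor -/
theorem nl_energy (N K : ℕ) (h : ∑ m ∈ Iw N K, vw N K m = 1) (h2 : 2 * Mw N K ≤ N) :
    (∑ q ∈ Ioc 1 K, ∑ ψ ∈ Pr q, ‖∑ p ∈ Icc 1 N, ((aS N p : ℝ) : ℂ) * ψ (p : ZMod q)‖ ^ 2) +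
      (∑ p ∈ Icc 1 N, aS N p - N) ^ 2 ≤ 2 * N * EE N K := by
  set I := Icc (1 - (Mw N K : ℤ)) ((N : ℤ) + Mw N K) with hI
  have hc : ((#I : ℕ) : ℝ) ≤ 2 * N := by
    have h3 : #I ≤ 2 * N := by
      rw [hI, Int.card_Icc]
      omega
    exact_mod_cast h3
  have hN0 : (0 : ℝ) ≤ N := Nat.cast_nonneg N
  have h4 : ∀ (q : ℕ) (ψ : DirichletCharacter ℂ q),
      ‖∑ p ∈ Icc 1 N, ((aS N p : ℝ) : ℂ) * ψ (p : ZMod q)‖ ^ 2 ≤
        2 * N * ∑ n ∈ I, ‖TS ψ N K n‖ ^ 2 := by
    intro q ψ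
    rw [← nl_TS ψ N K h]
    calc ‖∑ n ∈ I, TS ψ N K n‖ ^ 2 ≤ (∑ n ∈ I, ‖TS ψ N K n‖) ^ 2 := by
          gcongr
          exact norm_sum_le _ _
      _ ≤ (#I : ℝ) * ∑ n ∈ I, ‖TS ψ N K n‖ ^ 2 := sq_sum_le_card_mul_sum_sq
      _ ≤ 2 * N * ∑ n ∈ I, ‖TS ψ N K n‖ ^ 2 := by gcongr
  have h5 : (∑ p ∈ Icc 1 N, aS N p - N) ^ 2 ≤ 2 * N * ∑ n ∈ I, T0 N K n ^ 2 := by
    rw [← nl_T0 N K h]
    calc (∑ n ∈ I, T0 N K n) ^ 2 ≤ (#I : ℝ) * ∑ n ∈ I, T0 N K n ^ 2 := sq_sum_le_card_mul_sum_sq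
      _ ≤ 2 * N * ∑ n ∈ I, T0 N K n ^ 2 := by gcongr
  have h6 : EE N K = (∑ q ∈ Ioc 1 K, ∑ ψ ∈ Pr q, ∑ n ∈ I, ‖TS ψ N K n‖ ^ 2) +
      ∑ n ∈ I, T0 N K n ^ 2 := by
    unfold EE En
    rw [sum_add_distrib, ← hI, sum_comm]
    congr 1
    refine sum_congr rfl fun q _ => ?_
    rw [sum_comm]
  rw [h6, mul_add]
  refine add_le_add ?_ h5
  rw [mul_sum]
  refine sum_le_sum fun q _ => ?_
  rw [mul_sum]
  exact sum_le_sum fun ψ _ => h4 q ψ

/-- the primes dividing `Q` -/
theorem nl_dvd (N Q : ℕ) (hQ : 1 ≤ Q) :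
    ∑ n ∈ Icc 1 N, (if Nat.Coprime n Q then 0 else aS N n) ≤ Real.log Q := by
  have h1 : ∑ n ∈ Icc 1 N, (if Nat.Coprime n Q then 0 else aS N n) ≤
      ∑ p ∈ Q.primeFactors, Real.log p := by
    calc ∑ n ∈ Icc 1 N, (if Nat.Coprime n Q then 0 else aS N n) ≤
        ∑ n ∈ Icc 1 N, (if n ∈ Q.primeFactors then Real.log n else 0) := by
          refine sum_le_sum fun n hn => ?_
          have hl : 0 ≤ Real.log (n : ℝ) := Real.log_natCast_nonneg n
          by_cases h : Nat.Coprime n Q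
          · rw [if_pos h]
            split_ifs
            · exact hl
            · exact le_rfl
          · rw [if_neg h]
            unfold aS
            by_cases hp : n.Prime ∧ Nat.sqrt N < n
            · rw [if_pos hp]
              have h2 : n ∣ Q := by
                by_contra hc
                exact h ((Nat.Prime.coprime_iff_not_dvd hp.1).2 hc)
              have h3 : n ∈ Q.primeFactors := by
                rw [Nat.mem_primeFactors]
                exact ⟨hp.1, h2, by omega⟩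
              rw [if_pos h3]
            · rw [if_neg hp]
              split_ifs
              · exact hl
              · exact le_rfl
      _ = ∑ n ∈ (Icc 1 N).filter (fun n => n ∈ Q.primeFactors), Real.log n := by rw [sum_filter]
      _ ≤ ∑ p ∈ Q.primeFactors, Real.log p := by
          apply sum_le_sum_of_subset_of_nonneg
          · intro n hn
            rw [mem_filter] at hn
            exact hn.2
          · intro n _ _
            exact Real.log_natCast_nonneg n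
  refine h1.trans ?_
  calc ∑ p ∈ Q.primeFactors, Real.log p = Real.log (∏ p ∈ Q.primeFactors, (p : ℝ)) := by
        rw [Real.log_prod]
        intro p hp
        have := (Nat.prime_of_mem_primeFactors hp).pos
        positivity
    _ ≤ Real.log Q := by
        have h3 : ∏ p ∈ Q.primeFactors, p ≤ Q :=
          Nat.le_of_dvd (by omega) (Nat.prod_primeFactors_dvd Q)
        have h4 : (∏ p ∈ Q.primeFactors, (p : ℝ)) ≤ Q := by
          have h5 := (Nat.cast_le (α := ℝ)).2 h3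
          rwa [Nat.cast_prod] at h5
        apply Real.log_le_log _ h4
        apply prod_pos
        intro p hp
        exact_mod_cast (Nat.prime_of_mem_primeFactors hp).pos

/-- from `Λ` on the integers prime to `Q` to `aS` -/
theorem nl_chr {N Q q : ℕ} (hQ : 1 ≤ Q) (hρ : ∀ n, aS N n ≤ ArithmeticFunction.vonMangoldt n)
    (ψ : DirichletCharacter ℂ q) :
    ‖∑ n ∈ (Icc 1 N).filter (fun n => Nat.Coprime n Q), (HC.Lam n : ℂ) * ψ (n : ZMod q) -
      ∑ n ∈ Icc 1 N, ((aS N n : ℝ) : ℂ) * ψ (n : ZMod q)‖ ≤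
      ∑ n ∈ Icc 1 N, (ArithmeticFunction.vonMangoldt n - aS N n) + Real.log Q := by
  have h0 : ∀ n, 0 ≤ aS N n := by
    intro n
    unfold aS
    split_ifs
    · exact Real.log_natCast_nonneg n
    · exact le_rfl
  rw [sum_filter, ← sum_sub_distrib]
  refine (norm_sum_le _ _).trans ?_
  refine le_trans ?_ (add_le_add_right (nl_dvd N Q hQ) _)
  rw [← sum_add_distrib]
  refine sum_le_sum fun n _ => ?_
  have hψ : ‖ψ (n : ZMod q)‖ ≤ 1 := DirichletCharacter.norm_le_one ψ _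
  by_cases h : Nat.Coprime n Q
  · rw [if_pos h, if_pos h, ← sub_mul, norm_mul, add_zero]
    have h2 : ‖((HC.Lam n : ℝ) : ℂ) - ((aS N n : ℝ) : ℂ)‖ =
        ArithmeticFunction.vonMangoldt n - aS N n := by
      rw [← Complex.ofReal_sub, Complex.norm_real, Real.norm_eq_abs, abs_of_nonneg]
      have := hρ n
      simp only [HC.Lam]
      linarith
    rw [h2]
    have := hρ n
    calc (ArithmeticFunction.vonMangoldt n - aS N n) * ‖ψ (n : ZMod q)‖ ≤
        (ArithmeticFunction.vonMangoldt n - aS N n) * 1 := by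
          apply mul_le_mul_of_nonneg_left hψ
          linarith
      _ = _ := mul_one _
  · rw [if_neg h, if_neg h, zero_sub, norm_neg, norm_mul, Complex.norm_real, Real.norm_eq_abs,
      abs_of_nonneg (h0 n)]
    have h3 := hρ n
    have h4 : aS N n * ‖ψ (n : ZMod q)‖ ≤ aS N n * 1 := mul_le_mul_of_nonneg_left hψ (h0 n)
    linarith

end Pool.Agent.FGA
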