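import Pool.Agent.Lib_helper99.FGA.NoLa

/-!
# FGA: the part `LX` of the variance, from the energy
-/

set_option autoImplicit false

namespace Pool.Agent.FGA

open Finset Pool.Agent.Var35 Pool.Agent.Var73 Pool.Agent.PV Pool.Agent.FGP
open scoped ArithmeticFunction ArithmeticFunction.Moebius

/-- the sum of a character is the sum of the primitive character over the coprime integers -/
theorem nl_sum {Q : ℕ} [NeZero Q] (χ : DirichletCharacter ℂ Q) (N : ℕ) (a : ℕ → ℂ) :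
    ∑ n ∈ Icc 1 N, a n * χ (n : ZMod Q) =
      ∑ n ∈ (Icc 1 N).filter (fun n => Nat.Coprime n Q),
        a n * χ.primitiveCharacter (n : ZMod χ.conductor) := by
  rw [sum_filter]
  refine sum_congr rfl fun n _ => ?_
  split_ifs with h
  · have h1 := HF_level χ.conductor_dvd_level χ.primitiveCharacter h
    rw [DirichletCharacter.changeLevel_primitiveCharacter] at h1
    rw [h1]
  · have h1 : ¬ IsUnit (n : ZMod Q) := by
      rw [ZMod.isUnit_iff_coprime]
      exact h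
    rw [χ.map_nonunit h1, mul_zero]

/-- the number of primitive characters -/
theorem nl_card (K : ℕ) : ∑ q ∈ Icc 1 K, ((#(Pr q) : ℕ) : ℝ) ≤ (K : ℝ) ^ 2 := by
  have h1 : ∀ q ∈ Icc 1 K, ((#(Pr q) : ℕ) : ℝ) ≤ K := by
    intro q hq
    rw [mem_Icc] at hq
    have : NeZero q := ⟨by omega⟩
    have h2 : #(Pr q) ≤ q.totient := by
      calc #(Pr q) ≤ Fintype.card (DirichletCharacter ℂ q) := card_le_univ _
        _ = q.totient := by
            rw [← Nat.card_eq_fintype_card,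
              DirichletCharacter.card_eq_totient_of_hasEnoughRootsOfUnity]
    have h3 : q.totient ≤ K := (Nat.totient_le q).trans hq.2
    exact_mod_cast h2.trans h3
  calc ∑ q ∈ Icc 1 K, ((#(Pr q) : ℕ) : ℝ) ≤ ∑ q ∈ Icc 1 K, (K : ℝ) := sum_le_sum h1
    _ = (K : ℝ) ^ 2 := by
        rw [sum_const, nsmul_eq_mul, Nat.card_Icc]
        push_cast
        ring

/-- the characters of conductor `≤ D` -/
theorem nl_LX (X : ℝ) (Q K N : ℕ) (D E W : ℝ) (hN : N = ⌊X⌋₊) (hQ : 1 ≤ Q) (hDK : D ≤ K)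
    (hK : 1 ≤ K) (hE0 : 0 ≤ E)
    (hE : ∀ (q : ℕ) (ψ : DirichletCharacter ℂ q),
      ‖∑ n ∈ (Icc 1 N).filter (fun n => Nat.Coprime n Q), (HC.Lam n : ℂ) * ψ (n : ZMod q) -
        ∑ n ∈ Icc 1 N, ((aS N n : ℝ) : ℂ) * ψ (n : ZMod q)‖ ≤ E)
    (hNX : |(N : ℝ) - X| ≤ 1)
    (hW : (∑ q ∈ Ioc 1 K, ∑ ψ ∈ Pr q, ‖∑ p ∈ Icc 1 N, ((aS N p : ℝ) : ℂ) * ψ (p : ZMod q)‖ ^ 2) +
      (∑ p ∈ Icc 1 N, aS N p - N) ^ 2 ≤ W) :
    HC.LX X Q D ≤ (1 / (Nat.totient Q : ℝ)) * (2 * W + 2 * (E + 1) ^ 2 * (K : ℝ) ^ 2) := by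
  classical
  have : NeZero Q := ⟨by omega⟩
  unfold HC.LX
  refine mul_le_mul_of_nonneg_left ?_ (by positivity)
  set F : Chr → ℝ := fun x =>
    ‖∑ n ∈ Icc 1 N, ((aS N n : ℝ) : ℂ) * x.2 (n : ZMod x.1) -
      (if x.1 = 1 then (N : ℂ) else 0)‖ with hF
  set G : Chr → ℝ := fun x => if x.1 ≤ K then 2 * F x ^ 2 + 2 * (E + 1) ^ 2 else 0 with hG
  have h1 : ∀ χ : DirichletCharacter ℂ Q, (if (χ.conductor : ℝ) ≤ D then
      ‖∑ n ∈ Icc 1 ⌊X⌋₊, (HC.Lam n : ℂ) * χ (n : ZMod Q) -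
        (if χ = 1 then (X : ℂ) else 0)‖ ^ 2 else 0) ≤ G (prm χ) := by
    intro χ
    by_cases hc : (χ.conductor : ℝ) ≤ D
    · have hc2 : (prm χ).1 ≤ K := by
        have : (χ.conductor : ℝ) ≤ K := hc.trans hDK
        exact_mod_cast this
      rw [if_pos hc]
      simp only [hG]
      rw [if_pos hc2, ← hN, nl_sum χ N (fun n => (HC.Lam n : ℂ))]
      have h2 : ‖∑ n ∈ (Icc 1 N).filter (fun n => Nat.Coprime n Q),
          (HC.Lam n : ℂ) * χ.primitiveCharacter (n : ZMod χ.conductor) -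
          (if χ = 1 then (X : ℂ) else 0)‖ ≤ F (prm χ) + (E + 1) := by
        have h3 : (if χ = 1 then (X : ℂ) else 0) = (if (prm χ).1 = 1 then (N : ℂ) else 0) +
            (if (prm χ).1 = 1 then ((X - N : ℝ) : ℂ) else 0) := by
          have h4 : χ = 1 ↔ (prm χ).1 = 1 := DirichletCharacter.eq_one_iff_conductor_eq_one
          by_cases h5 : χ = 1
          · rw [if_pos h5, if_pos (h4.1 h5), if_pos (h4.1 h5)]
            push_cast
            ring
          · rw [if_neg h5, if_neg (fun h => h5 (h4.2 h)), if_neg (fun h => h5 (h4.2 h)), add_zero]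
        rw [h3]
        have h6 : ‖(if (prm χ).1 = 1 then ((X - N : ℝ) : ℂ) else 0)‖ ≤ 1 := by
          split_ifs
          · rw [Complex.norm_real, Real.norm_eq_abs, abs_sub_comm]
            exact hNX
          · simp
        have h7 := hE χ.conductor χ.primitiveCharacter
        have h8 : ∑ n ∈ (Icc 1 N).filter (fun n => Nat.Coprime n Q),
            (HC.Lam n : ℂ) * χ.primitiveCharacter (n : ZMod χ.conductor) -
            ((if (prm χ).1 = 1 then (N : ℂ) else 0) +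
              (if (prm χ).1 = 1 then ((X - N : ℝ) : ℂ) else 0)) =
            (∑ n ∈ Icc 1 N, ((aS N n : ℝ) : ℂ) * (prm χ).2 (n : ZMod (prm χ).1) -
              (if (prm χ).1 = 1 then (N : ℂ) else 0)) +
            ((∑ n ∈ (Icc 1 N).filter (fun n => Nat.Coprime n Q),
              (HC.Lam n : ℂ) * χ.primitiveCharacter (n : ZMod χ.conductor) -
              ∑ n ∈ Icc 1 N, ((aS N n : ℝ) : ℂ) * χ.primitiveCharacter (n : ZMod χ.conductor)) -
              (if (prm χ).1 = 1 then ((X - N : ℝ) : ℂ) else 0)) := by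
          have h9 : ∑ n ∈ Icc 1 N, ((aS N n : ℝ) : ℂ) * (prm χ).2 (n : ZMod (prm χ).1) =
            ∑ n ∈ Icc 1 N, ((aS N n : ℝ) : ℂ) *
              χ.primitiveCharacter (n : ZMod χ.conductor) := rfl
          rw [h9]
          ring
        rw [h8]
        refine (norm_add_le _ _).trans ?_
        have h10 := norm_sub_le (∑ n ∈ (Icc 1 N).filter (fun n => Nat.Coprime n Q),
              (HC.Lam n : ℂ) * χ.primitiveCharacter (n : ZMod χ.conductor) -
              ∑ n ∈ Icc 1 N, ((aS N n : ℝ) : ℂ) * χ.primitiveCharacter (n : ZMod χ.conductor))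
              (if (prm χ).1 = 1 then ((X - N : ℝ) : ℂ) else 0)
        have h11 : F (prm χ) = ‖∑ n ∈ Icc 1 N, ((aS N n : ℝ) : ℂ) *
            (prm χ).2 (n : ZMod (prm χ).1) - (if (prm χ).1 = 1 then (N : ℂ) else 0)‖ := rfl
        rw [h11]
        linarith
      have hF0 : 0 ≤ F (prm χ) := norm_nonneg _
      calc _ ≤ (F (prm χ) + (E + 1)) ^ 2 := pow_le_pow_left₀ (norm_nonneg _) h2 2
        _ ≤ 2 * F (prm χ) ^ 2 + 2 * (E + 1) ^ 2 := by
            nlinarith [sq_nonneg (F (prm χ) - (E + 1))]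
    · rw [if_neg hc]
      simp only [hG]
      split_ifs <;> positivity
  have h1' : ∑ χ : DirichletCharacter ℂ Q, (if (χ.conductor : ℝ) ≤ D then
      ‖∑ n ∈ Icc 1 ⌊X⌋₊, (HC.Lam n : ℂ) * χ (n : ZMod Q) -
        (if χ = 1 then (X : ℂ) else 0)‖ ^ 2 else 0) ≤ ∑ χ : DirichletCharacter ℂ Q, G (prm χ) :=
    sum_le_sum fun χ _ => h1 χ
  refine le_trans (le_of_eq ?_) (h1'.trans ?_)
  · refine sum_congr rfl fun χ _ => ?_
    congr!
  rw [sum_chars Q G, sum_sigma]
  have hG0 : ∀ x, 0 ≤ G x := by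
    intro x
    simp only [hG]
    split_ifs <;> positivity
  have h2 : ∑ q ∈ Q.divisors, ∑ ψ ∈ Pr q, G ⟨q, ψ⟩ ≤ ∑ q ∈ Icc 1 K, ∑ ψ ∈ Pr q, G ⟨q, ψ⟩ := by
    have h3 : ∑ q ∈ Q.divisors, ∑ ψ ∈ Pr q, G ⟨q, ψ⟩ =
        ∑ q ∈ Q.divisors.filter (fun q => q ≤ K), ∑ ψ ∈ Pr q, G ⟨q, ψ⟩ := by
      rw [sum_filter]
      refine sum_congr rfl fun q _ => ?_
      split_ifs with h
      · rfl
      · apply sum_eq_zero
        intro ψ _
        simp only [hG]
        rw [if_neg h]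
    rw [h3]
    apply sum_le_sum_of_subset_of_nonneg
    · intro q hq
      rw [mem_filter, Nat.mem_divisors] at hq
      rw [mem_Icc]
      exact ⟨Nat.pos_of_dvd_of_pos hq.1.1 (by omega), hq.2⟩
    · intro q _ _
      exact sum_nonneg fun ψ _ => hG0 _
  refine h2.trans ?_
  have h3 : ∑ q ∈ Icc 1 K, ∑ ψ ∈ Pr q, G ⟨q, ψ⟩ =
      2 * (∑ q ∈ Icc 1 K, ∑ ψ ∈ Pr q, F ⟨q, ψ⟩ ^ 2) +
        2 * (E + 1) ^ 2 * ∑ q ∈ Icc 1 K, ((#(Pr q) : ℕ) : ℝ) := by
    rw [mul_sum, mul_sum, ← sum_add_distrib]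
    refine sum_congr rfl fun q hq => ?_
    rw [mem_Icc] at hq
    have h4 : ∀ ψ ∈ Pr q, G ⟨q, ψ⟩ = 2 * F ⟨q, ψ⟩ ^ 2 + 2 * (E + 1) ^ 2 := by
      intro ψ _
      simp only [hG]
      rw [if_pos hq.2]
    rw [sum_congr rfl h4, sum_add_distrib, ← mul_sum, sum_const, nsmul_eq_mul]
    ring
  rw [h3]
  have h4 : ∑ q ∈ Icc 1 K, ∑ ψ ∈ Pr q, F ⟨q, ψ⟩ ^ 2 ≤ W := by
    refine le_trans ?_ hW
    have h5 : Icc 1 K = insert 1 (Ioc 1 K) := by
      ext q
      simp only [mem_Icc, mem_insert, mem_Ioc]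
      omega
    rw [h5, sum_insert (by simp), add_comm]
    refine add_le_add ?_ ?_
    · refine sum_le_sum fun q hq => ?_
      rw [mem_Ioc] at hq
      refine sum_le_sum fun ψ _ => ?_
      simp only [hF]
      rw [if_neg (by omega), sub_zero]
    · have h6 : Pr 1 = {1} := by
        ext ψ
        rw [mem_Pr, mem_singleton]
        constructor
        · intro _
          exact Subsingleton.elim _ _
        · rintro rfl
          exact DirichletCharacter.isPrimitive_one_level_one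
      rw [h6, sum_singleton]
      simp only [hF, if_true]
      have h7 : ∀ n : ℕ, ((aS N n : ℝ) : ℂ) * (1 : DirichletCharacter ℂ 1) (n : ZMod 1) =
          ((aS N n : ℝ) : ℂ) := by
        intro n
        have h8 : (1 : DirichletCharacter ℂ 1) (n : ZMod 1) = 1 := by
          have : (n : ZMod 1) = 1 := Subsingleton.elim _ _
          rw [this, map_one]
        rw [h8, mul_one]
      rw [sum_congr rfl (fun n _ => h7 n), ← Complex.ofReal_sum, ← Complex.ofReal_natCast,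
        ← Complex.ofReal_sub, Complex.norm_real, Real.norm_eq_abs, sq_abs]
  have h5 := nl_card K
  have h6 : 0 ≤ 2 * (E + 1) ^ 2 := by positivity
  have h7 := mul_le_mul_of_nonneg_left h5 h6
  linarith

end Pool.Agent.FGA
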