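import Pool.Agent.Lib_helper99.FGA.NoLb
import Pool.Agent.Lib_helper99.FGA.A20
import Pool.Agent.Lib_helper3.FGP.P07

/-!
# FGA: the part `LX` of the variance, for one good level
-/

set_option autoImplicit false

namespace Pool.Agent.FGA

open Finset Pool.Agent.Var35 Pool.Agent.Var73 Pool.Agent.PV Pool.Agent.FGP
open scoped ArithmeticFunction ArithmeticFunction.Moebius

/-- the part `LX` for one good level, every modulus -/
def LXE (c₁ : ℝ) : Prop := ∃ c C B X₀ : ℝ, 0 < c ∧ 0 < C ∧ 1 ≤ B ∧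
  ∀ D : ℕ, Pool.Agent.GA.Good c₁ D → X₀ ≤ D → ∀ X Y : ℝ, (D : ℝ) ^ B ≤ X →
    X ≤ Real.exp ((D : ℝ) ^ c) → X * (D : ℝ) ^ (-c) ≤ Y → Y ≤ X / 2 → ∀ Q ∈ IR Y,
    HC.LX X Q (X / Q * Real.log X ^ 8) ≤
      C * (Real.exp (-(c * Real.log X / Real.log D)) + (D : ℝ) ^ (-c)) * X ^ 2 *
        (1 / (Nat.totient Q : ℝ))

set_option maxHeartbeats 2000000 in
theorem lxe_pr (h01 : W01) (h3b : W03b) (c₁ : ℝ) (hc₁ : 0 < c₁) : LXE c₁ := by
  obtain ⟨C1, hC1, K1, H1⟩ := h01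
  obtain ⟨C3, c3, B₀, hC3, hc3, hB₀, K3, H3⟩ := h3b c₁ hc₁
  obtain ⟨Cr, hCr, hrem⟩ := rem_sum
  set c : ℝ := min (c3 / 2) (1 / 2500) with hc
  have hcpos : 0 < c := lt_min (by positivity) (by norm_num)
  have hc1 : c ≤ 1 / 2500 := min_le_right _ _
  obtain ⟨D₀, hD₀⟩ := p19_D c (B₀ + 60) 0 100 hcpos (K1 + K3)
  refine ⟨c, 4 * C3 + 64 * (Cr + 2) ^ 2, B₀ + 60, D₀, hcpos, by positivity, by linarith,
    fun D hgood hD X Y hX hX2 hY hYX Q hQ => ?_⟩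
  obtain ⟨d1, d2, d3, d4, d5, d6⟩ := hD₀ D hD
  have hD0 : (0 : ℝ) < D := by linarith
  have hD1 : (1 : ℝ) ≤ D := by linarith
  have hDB : (D : ℝ) ≤ (D : ℝ) ^ (B₀ + 60) := by
    calc (D : ℝ) = (D : ℝ) ^ (1 : ℝ) := (Real.rpow_one _).symm
      _ ≤ _ := Real.rpow_le_rpow_of_exponent_le (by linarith) (by linarith)
  have x1 : 100 ≤ X := d3.trans (hDB.trans hX)
  have hX0 : 0 < X := by linarith
  have h : P19S c B₀ 0 D X Y := by
    refine ⟨hcpos, hc1, hB₀, d1, ?_, d5, x1, hX, hX2, hY, ?_⟩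
    · have : (0 : ℝ) ≤ ((K1 + K3 : ℕ) : ℝ) := Nat.cast_nonneg _
      push_cast
      linarith
    · push_cast
      linarith
  set N : ℕ := ⌊X⌋₊ with hN
  set K : ℕ := ⌊(D : ℝ) ^ (1 / 20 : ℝ)⌋₊ with hK
  have hKK : K1 + K3 ≤ K := by
    have h1 : ((K1 + K3 : ℕ) : ℝ) ≤ (D : ℝ) ^ (1 / 20 : ℝ) := by linarith
    rw [hK]
    exact Nat.le_floor h1
  have hNX : (N : ℝ) ≤ X := h.N1
  have hNX2 : X < N + 1 := h.N2
  have hNX3 : X / 2 ≤ N := h.N3
  have hN0 : (0 : ℝ) < N := by linarith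
  have hN2 : 2 ≤ N := by
    have : (2 : ℝ) ≤ N := by linarith
    exact_mod_cast this
  have hlN2 : Real.log X / 2 ≤ Real.log (N : ℝ) := h.logN
  have hlX : 1 ≤ Real.log X := h.logX
  have hlN0 : 0 ≤ Real.log (N : ℝ) := by linarith
  have hlNX : Real.log (N : ℝ) ≤ Real.log X := Real.log_le_log hN0 hNX
  obtain ⟨hQ1, hYQ, hQY⟩ := A20S.Qf h hQ
  have hQ0 : (0 : ℝ) < Q := by linarith [h.Y0]
  have hQX : (Q : ℝ) ≤ X := by linarith
  have hR : Rg K N := h.rg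
  obtain ⟨-, hw, -, -, -⟩ := H1 K (by omega) N hR
  have h2M : 2 * Mw N K ≤ N := p07_Mw hR
  have hEE := H3 K (by omega) N D hR hgood h.K20 h.DB
  obtain ⟨hρ, hS⟩ := hrem N hN2
  -- the conductors
  have hDc : 0 < (D : ℝ) ^ c := Real.rpow_pos_of_pos hD0 c
  have hlXD : Real.log X ≤ (D : ℝ) ^ c := by
    rw [Real.log_le_iff_le_exp hX0]; exact hX2
  have hXY : X ≤ (D : ℝ) ^ c * Y := by
    have h3 := hY
    rw [Real.rpow_neg hD0.le, ← div_eq_mul_inv, div_le_iff₀ hDc] at h3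
    linarith
  have hXQ : X / Q ≤ (D : ℝ) ^ c := by
    rw [div_le_iff₀ hQ0]
    calc X ≤ (D : ℝ) ^ c * Y := hXY
      _ ≤ (D : ℝ) ^ c * Q := by gcongr
  have hK25 : (D : ℝ) ^ (1 / 25 : ℝ) ≤ K := by
    have h1 := h.K25
    have h2 : 0 ≤ (D : ℝ) ^ (1 / 25 : ℝ) := Real.rpow_nonneg hD0.le _
    rw [← hK] at h1
    linarith
  have hDK : X / Q * Real.log X ^ 8 ≤ K := by
    refine le_trans ?_ hK25
    calc X / Q * Real.log X ^ 8 ≤ (D : ℝ) ^ c * ((D : ℝ) ^ c) ^ 8 := by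
          gcongr
      _ = (D : ℝ) ^ (9 * c) := by
          rw [← Real.rpow_natCast, ← Real.rpow_mul hD0.le, ← Real.rpow_add hD0]
          congr 1
          push_cast
          ring
      _ ≤ _ := Real.rpow_le_rpow_of_exponent_le hD1 (by linarith)
  have hK1 : 1 ≤ K := by
    have : (1 : ℝ) ≤ K := le_trans (Real.one_le_rpow hD1 (by norm_num)) hK25
    exact_mod_cast this
  -- the error term
  set E : ℝ := Cr * Real.sqrt N * (1 + Real.log N) ^ 2 + Real.log Q with hE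
  have hlQ : Real.log Q ≤ Real.log X := Real.log_le_log hQ0 hQX
  have hlQ0 : 0 ≤ Real.log (Q : ℝ) := Real.log_natCast_nonneg Q
  have hE0 : 0 ≤ E := by positivity
  have hEb : E + 1 ≤ (Cr + 2) * Real.sqrt X * (2 * Real.log X) ^ 2 := by
    have h1 : Real.sqrt N ≤ Real.sqrt X := Real.sqrt_le_sqrt hNX
    have h2 : 1 ≤ Real.sqrt X := by
      rw [Real.one_le_sqrt]
      linarith
    have h3 : 1 + Real.log (N : ℝ) ≤ 2 * Real.log X := by linarith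
    have h4 : Cr * Real.sqrt N * (1 + Real.log N) ^ 2 ≤ Cr * Real.sqrt X * (2 * Real.log X) ^ 2 := by
      gcongr
    have h5 : Real.log Q + 1 ≤ 2 * Real.sqrt X * (2 * Real.log X) ^ 2 := by
      have h6 : Real.log X ≤ (2 * Real.log X) ^ 2 := by nlinarith
      have h7 : (2 * Real.log X) ^ 2 ≤ Real.sqrt X * (2 * Real.log X) ^ 2 :=
        le_mul_of_one_le_left (by positivity) h2
      nlinarith
    calc E + 1 = Cr * Real.sqrt N * (1 + Real.log N) ^ 2 + (Real.log Q + 1) := by rw [hE]; ring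
      _ ≤ Cr * Real.sqrt X * (2 * Real.log X) ^ 2 + 2 * Real.sqrt X * (2 * Real.log X) ^ 2 := by
          linarith
      _ = _ := by ring
  have hEE2 : (∑ q ∈ Ioc 1 K, ∑ ψ ∈ Pr q, ‖∑ p ∈ Icc 1 N, ((aS N p : ℝ) : ℂ) *
      ψ (p : ZMod q)‖ ^ 2) + (∑ p ∈ Icc 1 N, aS N p - N) ^ 2 ≤ 2 * N * EE N K :=
    nl_energy N K hw h2M
  have hmain := nl_LX X Q K N (X / Q * Real.log X ^ 8) E (2 * N * EE N K) hN hQ1 hDK hK1 hE0
    (fun q ψ => (nl_chr hQ1 hρ ψ).trans (by rw [hE]; linarith)) (by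
      rw [abs_le]
      constructor <;> linarith) hEE2
  refine hmain.trans ?_
  rw [mul_comm]
  have hφ : 0 ≤ 1 / (Nat.totient Q : ℝ) := by positivity
  apply mul_le_mul_of_nonneg_right _ hφ
  -- the numbers
  set e : ℝ := Real.exp (-(c * Real.log X / Real.log D)) with he
  have he0 : 0 < e := Real.exp_pos _
  have hlD : 0 < Real.log (D : ℝ) := Real.log_pos (by linarith)
  have he3 : Real.exp (-(c3 * Real.log N / Real.log D)) ≤ e := by
    apply Real.exp_le_exp.2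
    apply neg_le_neg
    apply div_le_div_of_nonneg_right _ hlD.le
    have h3 : c ≤ c3 / 2 := min_le_left _ _
    calc c * Real.log X ≤ c3 / 2 * Real.log X := by gcongr
      _ = c3 * (Real.log X / 2) := by ring
      _ ≤ c3 * Real.log N := by gcongr
  have hmc : (D : ℝ) ^ (-c) = 1 / (D : ℝ) ^ c := by
    rw [Real.rpow_neg hD0.le, one_div]
  have hsK : 1 / Real.sqrt K ≤ (D : ℝ) ^ (-c) := by
    rw [hmc]
    apply one_div_le_one_div_of_le hDc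
    apply Real.le_sqrt_of_sq_le
    refine le_trans ?_ hK25
    rw [← Real.rpow_natCast, ← Real.rpow_mul hD0.le]
    apply Real.rpow_le_rpow_of_exponent_le hD1
    push_cast
    linarith
  have t1 : 2 * (2 * N * EE N K) ≤ 4 * C3 * (e + (D : ℝ) ^ (-c)) * X ^ 2 := by
    calc 2 * (2 * N * EE N K) = 4 * N * EE N K := by ring
      _ ≤ 4 * N * (C3 * N * (e + (D : ℝ) ^ (-c))) := by
          apply mul_le_mul_of_nonneg_left _ (by positivity)
          refine hEE.trans ?_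
          gcongr
      _ = 4 * C3 * (e + (D : ℝ) ^ (-c)) * (N : ℝ) ^ 2 := by ring
      _ ≤ _ := by
          have : 0 < (D : ℝ) ^ (-c) := Real.rpow_pos_of_pos hD0 _
          gcongr
  have t2 : 2 * (E + 1) ^ 2 * (K : ℝ) ^ 2 ≤ 64 * (Cr + 2) ^ 2 * (D : ℝ) ^ (-c) * X ^ 2 := by
    have h1 : (E + 1) ^ 2 ≤ (Cr + 2) ^ 2 * X * (16 * Real.log X ^ 4) := by
      calc (E + 1) ^ 2 ≤ ((Cr + 2) * Real.sqrt X * (2 * Real.log X) ^ 2) ^ 2 := by gcongr
        _ = (Cr + 2) ^ 2 * Real.sqrt X ^ 2 * (16 * Real.log X ^ 4) := by ring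
        _ = _ := by rw [Real.sq_sqrt hX0.le]
    have h2 : (K : ℝ) ^ 2 ≤ D := by
      have h3 := h.Kf1
      rw [← hK] at h3
      calc (K : ℝ) ^ 2 ≤ ((D : ℝ) ^ (1 / 20 : ℝ)) ^ 2 := by gcongr
        _ = (D : ℝ) ^ (1 / 10 : ℝ) := by
            rw [← Real.rpow_natCast, ← Real.rpow_mul hD0.le]
            norm_num
        _ ≤ (D : ℝ) ^ (1 : ℝ) := Real.rpow_le_rpow_of_exponent_le hD1 (by norm_num)
        _ = D := Real.rpow_one _
    have h3 : Real.log X ^ 4 * (D : ℝ) ^ c ≤ D := by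
      calc Real.log X ^ 4 * (D : ℝ) ^ c ≤ ((D : ℝ) ^ c) ^ 4 * (D : ℝ) ^ c := by gcongr
        _ = (D : ℝ) ^ (5 * c) := by
            rw [← Real.rpow_natCast, ← Real.rpow_mul hD0.le, ← Real.rpow_add hD0]
            congr 1
            push_cast
            ring
        _ ≤ (D : ℝ) ^ (1 : ℝ) := Real.rpow_le_rpow_of_exponent_le hD1 (by linarith)
        _ = D := Real.rpow_one _
    have h4 : (D : ℝ) ^ 2 ≤ X := by
      have h5 := h.DX
      exact (pow_le_pow_right₀ hD1 (by norm_num)).trans h5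
    rw [hmc]
    have h6 : Real.log X ^ 4 * (D : ℝ) ≤ X * (1 / (D : ℝ) ^ c) := by
      rw [mul_one_div, le_div_iff₀ hDc]
      calc Real.log X ^ 4 * (D : ℝ) * (D : ℝ) ^ c = (Real.log X ^ 4 * (D : ℝ) ^ c) * (D : ℝ) := by
            ring
        _ ≤ (D : ℝ) * (D : ℝ) := by gcongr
        _ = (D : ℝ) ^ 2 := by ring
        _ ≤ X := h4
    calc 2 * (E + 1) ^ 2 * (K : ℝ) ^ 2 ≤ 2 * ((Cr + 2) ^ 2 * X * (16 * Real.log X ^ 4)) * D := by
          gcongr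
      _ = 32 * (Cr + 2) ^ 2 * X * (Real.log X ^ 4 * D) := by ring
      _ ≤ 32 * (Cr + 2) ^ 2 * X * (X * (1 / (D : ℝ) ^ c)) := by gcongr
      _ = 32 * ((Cr + 2) ^ 2 * (1 / (D : ℝ) ^ c) * X ^ 2) := by ring
      _ ≤ 64 * ((Cr + 2) ^ 2 * (1 / (D : ℝ) ^ c) * X ^ 2) := by
          have : 0 ≤ (Cr + 2) ^ 2 * (1 / (D : ℝ) ^ c) * X ^ 2 := by positivity
          linarith
      _ = _ := by ring
  calc 2 * (2 * N * EE N K) + 2 * (E + 1) ^ 2 * (K : ℝ) ^ 2 ≤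
      4 * C3 * (e + (D : ℝ) ^ (-c)) * X ^ 2 + 64 * (Cr + 2) ^ 2 * (D : ℝ) ^ (-c) * X ^ 2 := by
        linarith
    _ ≤ 4 * C3 * (e + (D : ℝ) ^ (-c)) * X ^ 2 +
        64 * (Cr + 2) ^ 2 * (e + (D : ℝ) ^ (-c)) * X ^ 2 := by
        have : (D : ℝ) ^ (-c) ≤ e + (D : ℝ) ^ (-c) := by linarith
        gcongr
    _ = _ := by ring

end Pool.Agent.FGA
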